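import Pool.Agent.Lib.SZ.E00

/-!
# Module SZ2 (energy for fat arcs), E27: the product over the small primes
-/

namespace Pool.Agent.SZ

open NumberField Finset
open scoped Classical

section

variable {F : Type*} [Field F] [NumberField F]

/-- For every prime number `ℓ` at most `n` nonzero prime ideals have a norm with smallest prime factor `ℓ`. Proof: if `𝔭` is a nonzero
prime ideal, `𝔭 ∩ ℤ = (q)` for a prime number `q` and `N 𝔭 = q ^ f`, `f ≥ 1` (`Ideal.absNorm_eq_pow_inertiaDeg`, or: `q ∈ 𝔭` gives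
`N 𝔭 ∣ N (q) = q ^ n`), so `minFac (N 𝔭) = q`. The primes above `ℓ` are at most `n = [F : ℚ]`
(`Ideal.card_primesOverFinset_le_finrank` or, by hand: the product of the primes above `ℓ` divides `(ℓ)`, of norm `ℓ ^ n`, and every norm is
`≥ ℓ`; `dg F = Module.finrank ℚ F`: `NumberField.RingOfIntegers.rank`, `Module.finrank_eq_card_chooseBasisIndex`). -/
theorem e27_card (Q : Finset (Ideal (𝓞 F))) (hQ : ∀ p ∈ Q, p.IsPrime ∧ p ≠ ⊥) (ℓ : ℕ)
    (h : ∀ p ∈ Q, (Ideal.absNorm p).minFac = ℓ) : Q.card ≤ dg F := by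
  rcases Q.eq_empty_or_nonempty with hQe | ⟨p0, hp0⟩
  · rw [hQe, Finset.card_empty]
    exact Nat.zero_le _
  have hfin : Module.finrank ℤ (𝓞 F) = dg F := Module.finrank_eq_card_chooseBasisIndex ℤ (𝓞 F)
  have hl : ℓ.Prime := by
    rw [← h p0 hp0]
    apply Nat.minFac_prime
    have := one_lt_absNorm (hQ p0 hp0).2 (hQ p0 hp0).1
    omega
  -- every prime of `Q` contains `ℓ`
  have hmem : ∀ p ∈ Q, ((ℓ : ℕ) : 𝓞 F) ∈ p := by
    intro p hp
    have hpp := (hQ p hp).1
    have hN := one_lt_absNorm (hQ p hp).2 hpp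
    have h1 := Ideal.absNorm_mem p
    obtain ⟨q, hq, hqp⟩ : ∃ q : ℕ, q.Prime ∧ ((q : ℕ) : 𝓞 F) ∈ p := by
      by_contra hcon
      push Not at hcon
      have h2 : ∀ m : ℕ, m ≠ 0 → (∀ q : ℕ, q.Prime → q ∣ m → ((q : ℕ) : 𝓞 F) ∉ p) → ((m : ℕ) : 𝓞 F) ∉ p := by
        intro m
        induction m using Nat.recOnMul with
        | zero => intro h; exact absurd rfl h
        | one =>
          intro _ _ h
          rw [Nat.cast_one] at h
          exact hpp.ne_top ((Ideal.eq_top_iff_one p).2 h)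
        | prime q hq =>
          intro _ h
          exact h q hq dvd_rfl
        | mul a b iha ihb =>
          intro h0 h h'
          rw [Nat.cast_mul] at h'
          rcases hpp.mem_or_mem h' with h3 | h3
          · exact iha (left_ne_zero_of_mul h0) (fun q hq hqa => h q hq (hqa.mul_right b)) h3
          · exact ihb (right_ne_zero_of_mul h0) (fun q hq hqb => h q hq (hqb.mul_left a)) h3
      exact h2 _ (by omega) (fun q hq _ => hcon q hq) h1
    have h4 : Ideal.absNorm p ∣ q ^ dg F := by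
      rw [← hfin, ← Ideal.absNorm_span_natCast]
      exact Ideal.absNorm_dvd_absNorm_of_le ((Ideal.span_singleton_le_iff_mem _).2 hqp)
    have h5 : (Ideal.absNorm p).minFac = q := by
      have h6 : (Ideal.absNorm p).minFac ∣ q ^ dg F := (Nat.minFac_dvd _).trans h4
      have h7 : (Ideal.absNorm p).minFac.Prime := Nat.minFac_prime (by omega)
      exact (Nat.prime_dvd_prime_iff_eq h7 hq).1 (h7.dvd_of_dvd_pow h6)
    rw [h p hp] at h5
    rw [h5]
    exact hqp
  have hdvd : ∏ p ∈ Q, p ∣ Ideal.span {((ℓ : ℕ) : 𝓞 F)} := by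
    apply Finset.prod_primes_dvd
    · intro p hp
      exact (Ideal.prime_iff_isPrime (hQ p hp).2).2 (hQ p hp).1
    · intro p hp
      rw [Ideal.dvd_iff_le, Ideal.span_singleton_le_iff_mem]
      exact hmem p hp
  have h8 : ∏ p ∈ Q, Ideal.absNorm p ∣ ℓ ^ dg F := by
    rw [← hfin, ← Ideal.absNorm_span_natCast, ← map_prod]
    exact Ideal.absNorm_dvd_absNorm_of_le (Ideal.le_of_dvd hdvd)
  have h9 : ℓ ^ Q.card ≤ ∏ p ∈ Q, Ideal.absNorm p := by
    apply Finset.pow_card_le_prod
    intro p hp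
    rw [← h p hp]
    exact Nat.minFac_le (by have := one_lt_absNorm (hQ p hp).2 (hQ p hp).1; omega)
  have h10 : ℓ ^ Q.card ≤ ℓ ^ dg F := h9.trans (Nat.le_of_dvd (pow_pos hl.pos _) h8)
  exact (Nat.pow_le_pow_iff_right hl.one_lt).1 h10

end

end Pool.Agent.SZ
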