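import Pool.Agent.Lib.SZ.B2

/-!
# SZ, assembly of Theorem B: metric lemmas (sizes of characters and coordinates, torsion points).
-/

namespace Pool.Agent.SZ.Asm

open NumberField Finset

variable {F : Type*} [Field F] [NumberField F]

theorem nT_nonneg (τ : T F) : 0 ≤ nT τ := norm_nonneg _

theorem nT_le_of {τ : T F} {ε : ℝ} (h0 : 0 ≤ ε) (h : ∀ i, ‖τ (bas F i)‖ ≤ ε) : nT τ ≤ ε :=
  (pi_norm_le_iff_of_nonneg h0).2 h

theorem le_nT (τ : T F) (i : Ix F) : ‖τ (bas F i)‖ ≤ nT τ := norm_le_pi_norm (fun i => τ (bas F i)) i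

theorem nT_zero : nT (0 : T F) = 0 := by
  apply le_antisymm _ (nT_nonneg _)
  apply nT_le_of le_rfl
  intro i
  simp

theorem nT_add (σ τ : T F) : nT (σ + τ) ≤ nT σ + nT τ := by
  apply nT_le_of (add_nonneg (nT_nonneg _) (nT_nonneg _))
  intro i
  rw [AddMonoidHom.add_apply]
  exact (norm_add_le _ _).trans (add_le_add (le_nT _ _) (le_nT _ _))

theorem nT_nsmul (q : ℕ) (τ : T F) : nT (q • τ) ≤ q * nT τ := by
  induction q with
  | zero => simp [nT_zero]
  | succ k ih =>
    rw [succ_nsmul]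
    push_cast
    refine (nT_add _ _).trans ?_
    linarith

theorem norm_apply_le (τ : T F) {a : ℕ} {x : 𝓞 F} (hx : InB a x) : ‖τ x‖ ≤ dg F * a * nT τ := by
  have h1 : τ x = ∑ i, (bas F).repr x i • τ (bas F i) := by
    conv_lhs => rw [← (bas F).sum_repr x]
    rw [map_sum]
    refine Finset.sum_congr rfl fun i _ => ?_
    rw [map_zsmul]
  rw [h1]
  refine (norm_sum_le _ _).trans ?_
  have h2 : ∀ i ∈ (Finset.univ : Finset (Ix F)), ‖(bas F).repr x i • τ (bas F i)‖ ≤ a * nT τ := by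
    intro i _
    have h3 : ‖(bas F).repr x i • τ (bas F i)‖ ≤ |((bas F).repr x i : ℝ)| * ‖τ (bas F i)‖ := by
      have := norm_zsmul_le ((bas F).repr x i) (τ (bas F i))
      rwa [Int.norm_eq_abs] at this
    refine h3.trans (mul_le_mul ?_ (le_nT _ _) (norm_nonneg _) (by positivity))
    have := hx i
    exact_mod_cast this
  refine (Finset.sum_le_sum h2).trans ?_
  rw [Finset.sum_const, Finset.card_univ, nsmul_eq_mul]
  rw [← mul_assoc]

variable (F) in
/-- Structure constants of the integral basis are bounded. -/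
theorem exists_C1 : ∃ C1 : ℕ, 1 ≤ C1 ∧ ∀ (a b : ℕ) (x y : 𝓞 F), InB a x → InB b y → InB (C1 * a * b) (x * y) := by
  classical
  let D : ℕ := ∑ i, ∑ j, ∑ k, ((bas F).repr (bas F i * bas F j) k).natAbs
  refine ⟨D + 1, by omega, ?_⟩
  intro a b x y hx hy k
  have h1 : x * y = ∑ i, ∑ j, ((bas F).repr x i * (bas F).repr y j) • (bas F i * bas F j) := by
    conv_lhs => rw [← (bas F).sum_repr x, ← (bas F).sum_repr y]
    rw [Finset.sum_mul_sum]
    refine Finset.sum_congr rfl fun i _ => Finset.sum_congr rfl fun j _ => ?_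
    rw [smul_mul_smul_comm]
  have h2 : (bas F).repr (x * y) k
      = ∑ i, ∑ j, ((bas F).repr x i * (bas F).repr y j) * (bas F).repr (bas F i * bas F j) k := by
    rw [h1]
    simp only [map_sum, Finsupp.coe_finset_sum, Finset.sum_apply, map_zsmul, Finsupp.smul_apply, smul_eq_mul]
  rw [h2]
  refine (Finset.abs_sum_le_sum_abs _ _).trans ?_
  have h3 : ∀ i ∈ (Finset.univ : Finset (Ix F)),
      |∑ j, ((bas F).repr x i * (bas F).repr y j) * (bas F).repr (bas F i * bas F j) k|
      ≤ ∑ j, (a : ℤ) * b * ∑ k, |(bas F).repr (bas F i * bas F j) k| := by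
    intro i _
    refine (Finset.abs_sum_le_sum_abs _ _).trans ?_
    refine Finset.sum_le_sum fun j _ => ?_
    rw [abs_mul, abs_mul]
    refine mul_le_mul (mul_le_mul (hx i) (hy j) (abs_nonneg _) (by positivity)) ?_ (abs_nonneg _) (by positivity)
    exact Finset.single_le_sum (f := fun k => |(bas F).repr (bas F i * bas F j) k|) (fun _ _ => abs_nonneg _)
      (Finset.mem_univ k)
  refine (Finset.sum_le_sum h3).trans ?_
  have h4 : ∑ i, ∑ j, (a : ℤ) * b * ∑ k, |(bas F).repr (bas F i * bas F j) k| = a * b * D := by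
    simp only [D]
    push_cast
    rw [Finset.mul_sum]
    refine Finset.sum_congr rfl fun i _ => ?_
    rw [Finset.mul_sum]
  rw [h4]
  push_cast
  nlinarith [mul_nonneg (Nat.cast_nonneg (α := ℤ) a) (Nat.cast_nonneg (α := ℤ) b)]

theorem _root_.Pool.Agent.SZ.InB.mono {a b : ℕ} {x : 𝓞 F} (h : InB a x) (hab : a ≤ b) : InB b x :=
  fun i => (h i).trans (by exact_mod_cast hab)

theorem _root_.Pool.Agent.SZ.InB.add {a b : ℕ} {x y : 𝓞 F} (hx : InB a x) (hy : InB b y) : InB (a + b) (x + y) := by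
  intro i
  rw [map_add, Finsupp.add_apply]
  push_cast
  exact (abs_add_le _ _).trans (add_le_add (hx i) (hy i))

theorem _root_.Pool.Agent.SZ.InB.neg {a : ℕ} {x : 𝓞 F} (hx : InB a x) : InB a (-x) := by
  intro i
  rw [map_neg, Finsupp.neg_apply, abs_neg]
  exact hx i

theorem _root_.Pool.Agent.SZ.InB.sub {a b : ℕ} {x y : 𝓞 F} (hx : InB a x) (hy : InB b y) : InB (a + b) (x - y) := by
  rw [sub_eq_add_neg]
  exact hx.add hy.neg

theorem InB_of_box {Y : ℕ} {x : 𝓞 F} (hx : x ∈ box F Y) : InB Y x := by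
  rw [mem_box] at hx
  intro i
  rw [abs_of_nonneg (hx i).1]
  exact (hx i).2.le

theorem exists_InB (x : 𝓞 F) : ∃ a : ℕ, 1 ≤ a ∧ InB a x := by
  refine ⟨∑ i, ((bas F).repr x i).natAbs + 1, by omega, ?_⟩
  intro i
  push_cast
  have := Finset.single_le_sum (f := fun k => |(bas F).repr x k|) (fun _ _ => abs_nonneg _)
      (Finset.mem_univ i)
  linarith

theorem InB_pow {C1 : ℕ} (hC1 : ∀ (a b : ℕ) (x y : 𝓞 F), InB a x → InB b y → InB (C1 * a * b) (x * y))
    {a : ℕ} {x : 𝓞 F} (hx : InB a x) (m : ℕ) : InB (C1 ^ m * a ^ (m + 1)) (x ^ (m + 1)) := by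
  induction m with
  | zero => simpa using hx
  | succ k ih =>
    rw [pow_succ x]
    refine (hC1 _ _ _ _ ih hx).mono (le_of_eq ?_)
    ring

theorem nT_tw_le {C1 : ℕ} (hC1 : ∀ (a b : ℕ) (x y : 𝓞 F), InB a x → InB b y → InB (C1 * a * b) (x * y))
    {G : ℕ} {g : 𝓞 F} (hg : InB G g) (τ : T F) : nT (tw g τ) ≤ dg F * (C1 * G) * nT τ := by
  apply nT_le_of (mul_nonneg (by positivity) (nT_nonneg _))
  intro i
  have h1 : InB 1 (bas F i) := by
    classical
    intro j
    rw [Module.Basis.repr_self, Finsupp.single_apply]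
    split_ifs <;> simp
  have h2 := norm_apply_le τ (hC1 _ _ _ _ hg h1)
  rw [mul_one] at h2
  have h3 : tw g τ (bas F i) = τ (g * bas F i) := rfl
  rw [h3]
  refine h2.trans (le_of_eq ?_)
  push_cast
  ring

theorem tw_mul (g h : 𝓞 F) (τ : T F) : tw (g * h) τ = tw h (tw g τ) := by
  ext x
  simp [tw, mul_assoc]

theorem tw_natCast (q : ℕ) (τ : T F) : tw (q : 𝓞 F) τ = q • τ := by
  ext x
  simp only [tw, AddMonoidHom.coe_comp, AddMonoidHom.coe_mulLeft, Function.comp_apply, AddMonoidHom.nsmul_apply]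
  rw [← nsmul_eq_mul, map_nsmul]

/-- A real representative of the right size. -/
theorem exists_rep (t : UnitAddCircle) : ∃ r : ℝ, ((r : ℝ) : UnitAddCircle) = t ∧ |r| = ‖t‖ := by
  induction t using QuotientAddGroup.induction_on with
  | H x =>
    refine ⟨x - round x, ?_, ?_⟩
    · rw [AddCircle.coe_sub]
      have : (((round x : ℤ) : ℝ) : UnitAddCircle) = 0 := by
        rw [AddCircle.coe_eq_zero_iff]
        exact ⟨round x, by simp⟩
      rw [this, sub_zero]
    · rw [UnitAddCircle.norm_eq]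

/-- A character whose multiple by `M` is small is near a torsion point killed by `M`. -/
theorem near_torsion (M : ℕ) (hM : 1 ≤ M) (ψ : T F) : ∃ ψ0 : T F, M • ψ0 = 0 ∧ nT (ψ - ψ0) ≤ nT (M • ψ) := by
  choose r hr hr' using fun i : Ix F => exists_rep ((M • ψ) (bas F i))
  have hM' : (0 : ℝ) < M := by exact_mod_cast hM
  refine ⟨ψ - chr fun i => r i / M, ?_, ?_⟩
  · apply T_ext
    intro i
    rw [smul_sub, AddMonoidHom.sub_apply, AddMonoidHom.nsmul_apply (x := bas F i) (f := chr fun i => r i / M), chr_bas,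
      ← hr i, AddMonoidHom.zero_apply, ← AddCircle.coe_nsmul, sub_eq_zero]
    congr 1
    rw [nsmul_eq_mul]
    field_simp
  · rw [sub_sub_cancel]
    apply nT_le_of (nT_nonneg _)
    intro i
    rw [chr_bas]
    have h1 : ‖((r i / M : ℝ) : UnitAddCircle)‖ ≤ |r i / M| := by
      rw [UnitAddCircle.norm_eq]
      have := round_le (r i / M) 0
      simpa using this
    refine h1.trans ?_
    refine le_trans ?_ (le_nT (M • ψ) i)
    rw [← hr' i, abs_div, abs_of_pos hM']
    have h1M : (1 : ℝ) ≤ M := by exact_mod_cast hM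
    exact div_le_self (abs_nonneg _) h1M

/-- The real part of `ev` for a small argument. -/
theorem re_ev_ge (τ : T F) (x : 𝓞 F) (h : ‖τ x‖ ≤ 1 / 10) : (1 : ℝ) / 2 ≤ (ev τ x).re := by
  obtain ⟨r, hr, hr'⟩ := exists_rep (τ x)
  unfold ev
  rw [← hr, toCircle_coe]
  have h1 : (2 * Real.pi * r * Complex.I : ℂ) = ((2 * Real.pi * r : ℝ) : ℂ) * Complex.I := by push_cast; ring
  rw [h1, Complex.exp_ofReal_mul_I_re]
  have h2 : |r| ≤ 1 / 10 := by rw [hr']; exact h
  have h3 : Real.cos (Real.pi / 3) ≤ Real.cos (2 * Real.pi * r) := by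
    rw [← Real.cos_abs (2 * Real.pi * r)]
    apply Real.cos_le_cos_of_nonneg_of_le_pi (abs_nonneg _)
    · have := Real.pi_pos
      linarith
    · rw [abs_mul, abs_of_pos (by have := Real.pi_pos; linarith : (0 : ℝ) < 2 * Real.pi)]
      have := Real.pi_pos
      nlinarith
  rw [Real.cos_pi_div_three] at h3
  exact h3

end Pool.Agent.SZ.Asm
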