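import Pool.Agent.Lib.SZ.Iface
import Pool.Agent.Lib.SZ.B3
import Pool.Agent.Lib.CFT.B01
import Pool.Agent.Lib.CFT.B02
import Pool.Agent.Lib.CFT.B14
import Pool.Agent.Lib.CFT.L3

/-!
# SZ4, part 2: the balanced prime elements (units of a ray, coordinates, norms)
-/

namespace Pool.Agent.SZ.Asm

open NumberField NumberField.mixedEmbedding CFT Finset
open scoped Classical

variable {F : Type} [Field F] [NumberField F]

/-- The units of the ray. -/
def EU (S : Finset (Pr F)) (N : ℕ) : Subgroup (𝓞 F)ˣ where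
  carrier := {u | Ray S N ((u : 𝓞 F) : F)}
  one_mem' := by
    show Ray S N (((1 : (𝓞 F)ˣ) : 𝓞 F) : F)
    rw [Units.val_one]
    exact ray_one S N
  mul_mem' := by
    intro u v hu hv
    show Ray S N (((u * v : (𝓞 F)ˣ) : 𝓞 F) : F)
    rw [Units.val_mul]
    exact Ray.mul hu hv
  inv_mem' := by
    intro u hu
    show Ray S N (((u⁻¹ : (𝓞 F)ˣ) : 𝓞 F) : F)
    have h1 : (((u⁻¹ : (𝓞 F)ˣ) : 𝓞 F) : F) = ((u : 𝓞 F) : F)⁻¹ := by
      have e2 : ((u : 𝓞 F) : F) * (((u⁻¹ : (𝓞 F)ˣ) : 𝓞 F) : F) = 1 :=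
        congrArg (algebraMap (𝓞 F) F) (Units.mul_inv u)
      exact (inv_eq_of_mul_eq_one_right e2).symm
    rw [h1]
    exact Ray.inv hu

theorem mem_EU {S : Finset (Pr F)} {N : ℕ} {u : (𝓞 F)ˣ} : u ∈ EU S N ↔ Ray S N ((u : 𝓞 F) : F) := Iff.rfl

theorem eu_fin (S : Finset (Pr F)) (N : ℕ) : (EU S N).FiniteIndex := by
  obtain ⟨t, ht, htS⟩ := b14_t S N
  obtain ⟨𝔪, h𝔪⟩ : ∃ 𝔪 : Ideal (𝓞 F), 𝔪 = Ideal.span {(t : 𝓞 F)} := ⟨_, rfl⟩
  have h𝔪0 : 𝔪 ≠ ⊥ := by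
    rw [h𝔪, Ne, Ideal.span_singleton_eq_bot]
    exact_mod_cast ht.ne'
  have hfr : Finite (F →+* ℝ) := by
    refine Finite.of_injective (fun φ : F →+* ℝ => Complex.ofRealHom.comp φ) fun φ ψ h => ?_
    refine RingHom.ext fun x => ?_
    exact Complex.ofReal_injective (RingHom.congr_fun h x)
  have hfq : Finite (𝓞 F ⧸ 𝔪) := Ideal.finiteQuotientOfFreeOfNeBot 𝔪 h𝔪0
  obtain ⟨f, hf⟩ : ∃ f : (𝓞 F)ˣ → (𝓞 F ⧸ 𝔪) × ((F →+* ℝ) → Bool),
      f = fun u : (𝓞 F)ˣ => (Ideal.Quotient.mk 𝔪 (u : 𝓞 F), fun φ : F →+* ℝ => decide (0 < φ ((u : 𝓞 F) : F))) := ⟨_, rfl⟩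
  have key : ∀ u v, f u = f v → u⁻¹ * v ∈ EU S N := by
    intro u v h
    rw [hf] at h
    simp only [Prod.mk.injEq] at h
    obtain ⟨h1, h2⟩ := h
    have h3 : (u : 𝓞 F) - v ∈ 𝔪 := Ideal.Quotient.eq.1 h1
    have hu : ∀ u : (𝓞 F)ˣ, ((u : 𝓞 F) : F) ≠ 0 := fun u h => u.ne_zero (RingOfIntegers.ext h)
    have e1 : (((u⁻¹ * v : (𝓞 F)ˣ) : 𝓞 F) : F) = ((u : 𝓞 F) : F)⁻¹ * ((v : 𝓞 F) : F) := by
      have e2 : ((u : 𝓞 F) : F) * (((u⁻¹ : (𝓞 F)ˣ) : 𝓞 F) : F) = 1 := congrArg (algebraMap (𝓞 F) F) (Units.mul_inv u)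
      have e3 : (((u⁻¹ : (𝓞 F)ˣ) : 𝓞 F) : F) = ((u : 𝓞 F) : F)⁻¹ := (inv_eq_of_mul_eq_one_right e2).symm
      have e4 : (((u⁻¹ * v : (𝓞 F)ˣ) : 𝓞 F) : F) = (((u⁻¹ : (𝓞 F)ˣ) : 𝓞 F) : F) * ((v : 𝓞 F) : F) := rfl
      rw [e4, e3]
    rw [mem_EU]
    refine ⟨hu _, fun w hw => ?_, fun φ => ?_⟩
    · have e : ((u⁻¹ * v : (𝓞 F)ˣ) : 𝓞 F) - 1 = -(((u⁻¹ : (𝓞 F)ˣ) : 𝓞 F) * ((u : 𝓞 F) - v)) := by
        have h : ((u⁻¹ : (𝓞 F)ˣ) : 𝓞 F) * (u : 𝓞 F) = 1 := Units.inv_mul u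
        rw [Units.val_mul]
        linear_combination h
      have h4 : ((u⁻¹ * v : (𝓞 F)ˣ) : 𝓞 F) - 1 ∈ 𝔪 := by
        rw [e]
        exact 𝔪.neg_mem (𝔪.mul_mem_left _ h3)
      rw [h𝔪, Ideal.mem_span_singleton] at h4
      obtain ⟨r, hr⟩ := h4
      have h5 : (((u⁻¹ * v : (𝓞 F)ˣ) : 𝓞 F) : F) - 1 = (t : F) * (r : F) := by
        have := congrArg (fun z : 𝓞 F => (z : F)) hr
        simpa using this
      rw [h5, map_mul]
      calc w.valuation F (t : F) * w.valuation F (r : F) ≤ w.valuation F (t : F) * 1 :=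
            mul_le_mul_right (w.valuation_le_one r) _
        _ < WithZero.exp (-(N : ℤ)) := by
            rw [mul_one]
            exact htS w hw
    · rw [e1, map_mul, map_inv₀, ← div_eq_inv_mul]
      have h4 := decide_eq_decide.1 (congrFun h2 φ)
      have h5 : φ ((u : 𝓞 F) : F) ≠ 0 := (map_ne_zero φ).2 (hu u)
      have h6 : φ ((v : 𝓞 F) : F) ≠ 0 := (map_ne_zero φ).2 (hu v)
      rcases lt_or_gt_of_ne h5 with h7 | h7
      · have h8 : φ ((v : 𝓞 F) : F) < 0 := lt_of_le_of_ne (not_lt.1 fun h => absurd (h4.2 h) (not_lt.2 h7.le)) h6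
        exact div_pos_of_neg_of_neg h8 h7
      · exact div_pos (h4.1 h7) h7
  have h1 : Function.Injective fun q : (𝓞 F)ˣ ⧸ EU S N => f q.out := by
    intro q q' hq
    have h2 := key _ _ hq
    rw [← QuotientGroup.out_eq' q, ← QuotientGroup.out_eq' q', QuotientGroup.eq]
    exact h2
  have h2 : Finite ((𝓞 F)ˣ ⧸ EU S N) := Finite.of_injective _ h1
  exact Subgroup.finiteIndex_of_finite_quotient

theorem finrank_eq_dg : Module.finrank ℚ F = dg F := by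
  rw [← RingOfIntegers.rank, Module.finrank_eq_card_chooseBasisIndex]

variable (F) in
/-- The coordinates on the integral basis are bounded by the norm in the mixed space. -/
theorem coord_bound : ∃ C : ℝ, 0 < C ∧ ∀ (a : 𝓞 F) (i : Ix F), |(((bas F).repr a i : ℤ) : ℝ)| ≤ C * ‖mixedEmbedding F (a : F)‖ := by
  obtain ⟨f, hf⟩ : ∃ f : Ix F → (mixedSpace F →L[ℝ] ℝ), f = fun i => LinearMap.toContinuousLinearMap ((latticeBasis F).coord i) :=
    ⟨_, rfl⟩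
  refine ⟨1 + ∑ i, ‖f i‖, by have := Finset.sum_nonneg (s := Finset.univ) (fun i (_ : i ∈ Finset.univ) => norm_nonneg (f i)); linarith, ?_⟩
  intro a i
  have h1 : (((bas F).repr a i : ℤ) : ℝ) = f i (mixedEmbedding F (a : F)) := by
    rw [hf]
    simp only [LinearMap.coe_toContinuousLinearMap', Module.Basis.coord_apply]
    rw [latticeBasis_repr_apply, integralBasis_repr_apply]
    simp
  rw [h1, ← Real.norm_eq_abs]
  refine (ContinuousLinearMap.le_opNorm _ _).trans ?_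
  apply mul_le_mul_of_nonneg_right _ (norm_nonneg _)
  have := Finset.single_le_sum (f := fun i => ‖f i‖) (fun _ _ => norm_nonneg _) (Finset.mem_univ i)
  linarith

theorem od_unit (v : Pr F) (u : (𝓞 F)ˣ) : od v ((u : 𝓞 F) : F) = 0 := by
  have h0 : ((u : 𝓞 F) : F) ≠ 0 := fun h => u.ne_zero (RingOfIntegers.ext h)
  have h1 := od_nonneg v (u : 𝓞 F)
  have h2 := od_nonneg v ((u⁻¹ : (𝓞 F)ˣ) : 𝓞 F)
  have e2 : ((u : 𝓞 F) : F) * (((u⁻¹ : (𝓞 F)ˣ) : 𝓞 F) : F) = 1 := congrArg (algebraMap (𝓞 F) F) (Units.mul_inv u)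
  have h0' : (((u⁻¹ : (𝓞 F)ˣ) : 𝓞 F) : F) ≠ 0 := by
    intro h
    rw [h, mul_zero] at e2
    exact zero_ne_one e2
  have h3 := od_mul v h0 h0'
  rw [e2, od_one] at h3
  omega

/-- An element `a` which divides `g w` for all `w` in a prime ideal has norm at most `N(g) N(v)`. -/
theorem norm_le_of_dvd (v : Pr F) (a g : 𝓞 F) (hg : g ≠ 0) (h : ∀ w ∈ v.asIdeal, a ∣ g * w) :
    Ideal.absNorm (Ideal.span {a}) ≤ Ideal.absNorm (Ideal.span {g}) * Nm v := by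
  have h1 : Ideal.span {g} * v.asIdeal ≤ Ideal.span {a} := by
    rw [Ideal.span_singleton_mul_le_iff]
    intro w hw
    rw [Ideal.mem_span_singleton]
    exact h w hw
  have h2 := Ideal.absNorm_dvd_absNorm_of_le h1
  rw [map_mul] at h2
  apply Nat.le_of_dvd _ h2
  apply Nat.mul_pos
  · rw [Nat.pos_iff_ne_zero, Ne, Ideal.absNorm_eq_zero_iff, Ideal.span_singleton_eq_bot]
    exact hg
  · exact Nm_pos v

theorem mixed_norm_eq (a : 𝓞 F) : mixedEmbedding.norm (mixedEmbedding F (a : F)) = (Ideal.absNorm (Ideal.span {a}) : ℝ) := by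
  rw [norm_eq_norm, Ideal.absNorm_span_singleton]
  have h1 : Algebra.norm ℚ (a : F) = ((Algebra.norm ℤ a : ℤ) : ℚ) := by
    have := Algebra.coe_norm_int (K := F) a
    exact this.symm
  rw [h1]
  rw [← Int.cast_natCast (R := ℝ), Int.natCast_natAbs]
  push_cast
  rfl

/-- The balanced prime elements. -/
theorem prime_elements (S : Finset (Pr F)) (N : ℕ) (x₀ : F) (hx₀ : x₀ ≠ 0) : ∃ (b0 : ℕ) (C : ℝ), 0 < b0 ∧ 0 < C ∧
    (∀ u ∈ S, (b0 : 𝓞 F) ∈ u.asIdeal) ∧ ∀ v : Pr F, v ∉ S → Finsupp.single v 1 - dv x₀ ∈ Pray S N →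
      ∃ a : 𝓞 F, a ≠ 0 ∧ Ray S N ((a : F) / (b0 : F) / x₀) ∧ (∀ u ∉ S, u ≠ v → od u ((a : F) / (b0 : F)) = 0) ∧
        od v ((a : F) / (b0 : F)) = 1 ∧ ∀ i, |(((bas F).repr a i : ℤ) : ℝ)| ^ dg F ≤ C * Nm v := by
  obtain ⟨α, β, hβ, hαβ⟩ := IsFractionRing.div_surjective (A := 𝓞 F) x₀
  have hβ0 : β ≠ 0 := nonZeroDivisors.ne_zero hβ
  have hα0 : α ≠ 0 := by
    rintro rfl
    rw [map_zero, zero_div] at hαβ
    exact hx₀ hαβ.symm
  have hβF : (β : F) ≠ 0 := by exact_mod_cast hβ0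
  have hαF : (α : F) ≠ 0 := by exact_mod_cast hα0
  have hαβ' : (α : F) / (β : F) = x₀ := hαβ
  obtain ⟨b0, hb0def⟩ : ∃ b0 : ℕ, b0 = Ideal.absNorm (Ideal.span {β}) * ∏ u ∈ S, Nm u := ⟨_, rfl⟩
  have hNβ : Ideal.absNorm (Ideal.span {β}) ≠ 0 := by
    rw [Ne, Ideal.absNorm_eq_zero_iff, Ideal.span_singleton_eq_bot]
    exact hβ0
  have hprod : 0 < ∏ u ∈ S, Nm u := Finset.prod_pos fun v _ => Nm_pos v
  have hb0 : 0 < b0 := by
    rw [hb0def]
    exact Nat.mul_pos (Nat.pos_of_ne_zero hNβ) hprod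
  have hb0O : (b0 : 𝓞 F) ≠ 0 := by exact_mod_cast hb0.ne'
  have hb0F : (b0 : F) ≠ 0 := by exact_mod_cast hb0.ne'
  -- β divides b0
  obtain ⟨γ, hγ⟩ : ∃ γ : 𝓞 F, (b0 : 𝓞 F) = β * γ := by
    have h := Ideal.absNorm_mem (Ideal.span {β})
    rw [Ideal.mem_span_singleton] at h
    have h2 : β ∣ (b0 : 𝓞 F) := by
      rw [hb0def]
      push_cast
      exact h.mul_right _
    exact h2
  have hb0S : ∀ u ∈ S, (b0 : 𝓞 F) ∈ u.asIdeal := by
    intro u hu
    rw [hb0def]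
    push_cast
    rw [← Finset.mul_prod_erase _ _ hu]
    apply Ideal.mul_mem_left
    exact Ideal.mul_mem_right _ _ (Ideal.absNorm_mem _)
  have hE := eu_fin S N
  obtain ⟨C1, hC1, hbal⟩ := CFTL.cocomp_sub (EU S N)
  obtain ⟨C2, hC2, hcoord⟩ := coord_bound F
  obtain ⟨g, hg⟩ : ∃ g : 𝓞 F, g = (b0 : 𝓞 F) * α := ⟨_, rfl⟩
  have hg0 : g ≠ 0 := by rw [hg]; exact mul_ne_zero hb0O hα0
  obtain ⟨G, hG⟩ : ∃ G : ℕ, G = Ideal.absNorm (Ideal.span {g}) := ⟨_, rfl⟩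
  have hGpos : 0 < G := by
    rw [hG, Nat.pos_iff_ne_zero, Ne, Ideal.absNorm_eq_zero_iff, Ideal.span_singleton_eq_bot]
    exact hg0
  refine ⟨b0, C2 ^ dg F * (C1 * G), hb0, by positivity, hb0S, ?_⟩
  intro v hvS hv
  obtain ⟨y, hy, hyv⟩ := hv
  -- orders of `x₀ y`
  have hxy : x₀ * y ≠ 0 := mul_ne_zero hx₀ hy.ne
  have hodS : ∀ u ∈ S, od u (x₀ * y) = od u x₀ := by
    intro u hu
    rw [od_mul u hx₀ hy.ne]
    have h1 := hy.unit hu
    have h2 : od u y = 0 := by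
      unfold od
      rw [h1, WithZero.log_one, neg_zero]
    rw [h2, add_zero]
  have hod : ∀ u ∉ S, od u (x₀ * y) = if u = v then 1 else 0 := by
    intro u hu
    rw [od_mul u hx₀ hy.ne]
    have h1 := hyv u hu
    rw [Finsupp.sub_apply, dv_apply, Finsupp.single_apply] at h1
    by_cases huv : u = v
    · rw [if_pos huv.symm] at h1
      rw [if_pos huv]
      omega
    · rw [if_neg (fun h => huv h.symm)] at h1
      rw [if_neg huv]
      omega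
  have hodx : ∀ u : Pr F, od u x₀ = od u (α : F) - od u (β : F) := by
    intro u
    rw [← hαβ', div_eq_mul_inv, od_mul u hαF (inv_ne_zero hβF), od_inv]
    ring
  have hodb : ∀ u : Pr F, od u (β : F) ≤ od u (b0 : F) := by
    intro u
    have h1 : (b0 : F) = (β : F) * (γ : F) := by
      have := congrArg (fun z : 𝓞 F => (z : F)) hγ
      simpa using this
    have hγ0 : (γ : F) ≠ 0 := by
      intro h
      rw [h, mul_zero] at h1
      exact hb0F h1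
    rw [h1, od_mul u hβF hγ0]
    have := od_nonneg u γ
    omega
  have hodb0 : ∀ u : Pr F, 0 ≤ od u (b0 : F) := by
    intro u
    have := od_nonneg u (b0 : 𝓞 F)
    simpa using this
  -- the integral element
  obtain ⟨a0, ha0⟩ : ∃ a0 : 𝓞 F, (a0 : F) = (b0 : F) * (x₀ * y) := by
    apply int_of_od
    intro u
    rw [od_mul u hb0F hxy]
    have h1 := hodb0 u
    by_cases hu : u ∈ S
    · rw [hodS u hu, hodx u]
      have h2 := hodb u
      have h3 := od_nonneg u α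
      omega
    · rw [hod u hu]
      split_ifs <;> omega
  have ha0F : (a0 : F) ≠ 0 := by
    rw [ha0]
    exact mul_ne_zero hb0F hxy
  have ha0O : a0 ≠ 0 := fun h => ha0F (by rw [h]; exact map_zero _)
  -- its norm
  have hnorm : Ideal.absNorm (Ideal.span {a0}) ≤ G * Nm v := by
    rw [hG]
    apply norm_le_of_dvd v a0 g hg0
    intro w hw
    by_cases hw0 : w = 0
    · rw [hw0, mul_zero]
      exact dvd_zero _
    have hwF : (w : F) ≠ 0 := by exact_mod_cast hw0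
    have hgF : (g : F) = (b0 : F) * (α : F) := by rw [hg]; push_cast; rfl
    have hgF0 : (g : F) ≠ 0 := by exact_mod_cast hg0
    obtain ⟨r, hr⟩ : ∃ r : 𝓞 F, (r : F) = ((g : F) * (w : F)) * (a0 : F)⁻¹ := by
      apply int_of_od
      intro u
      rw [od_mul u (mul_ne_zero hgF0 hwF) (inv_ne_zero ha0F), od_inv, od_mul u hgF0 hwF, hgF, od_mul u hb0F hαF, ha0,
        od_mul u hb0F hxy]
      have h1 := od_nonneg u w
      have h2 := od_nonneg u α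
      by_cases hu : u ∈ S
      · rw [hodS u hu, hodx u]
        have h3 := od_nonneg u β
        omega
      · rw [hod u hu]
        split_ifs with huv
        · have h4 : 0 < od u (w : F) := by
            rw [huv]
            exact (od_pos_iff v hw0).2 hw
          omega
        · omega
    refine ⟨r, ?_⟩
    have h5 : (g : F) * (w : F) = (a0 : F) * (r : F) := by
      rw [hr]
      field_simp
    exact_mod_cast h5
  have hmn := mixed_norm_eq a0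
  have hmn0 : mixedEmbedding.norm (mixedEmbedding F (a0 : F)) ≠ 0 := by
    rw [hmn]
    have : Ideal.absNorm (Ideal.span {a0}) ≠ 0 := by
      rw [Ne, Ideal.absNorm_eq_zero_iff, Ideal.span_singleton_eq_bot]
      exact ha0O
    exact_mod_cast this
  obtain ⟨e, heE, he⟩ := hbal _ hmn0
  rw [mem_EU] at heE
  have heF : ((e : 𝓞 F) : F) ≠ 0 := heE.ne
  have haF : (((e : 𝓞 F) * a0 : 𝓞 F) : F) = ((e : 𝓞 F) : F) * (a0 : F) := by push_cast; rfl
  have hquot : (((e : 𝓞 F) * a0 : 𝓞 F) : F) / (b0 : F) = ((e : 𝓞 F) : F) * (x₀ * y) := by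
    rw [haF, ha0]
    field_simp
  refine ⟨(e : 𝓞 F) * a0, mul_ne_zero e.ne_zero ha0O, ?_, ?_, ?_, ?_⟩
  · rw [hquot]
    have h1 : ((e : 𝓞 F) : F) * (x₀ * y) / x₀ = ((e : 𝓞 F) : F) * y := by
      field_simp
    rw [h1]
    exact heE.mul hy
  · intro u hu huv
    rw [hquot, od_mul u heF hxy, od_unit, hod u hu, if_neg huv, add_zero]
  · rw [hquot, od_mul v heF hxy, od_unit, hod v hvS, if_pos rfl, zero_add]
  · intro i
    have h1 := hcoord ((e : 𝓞 F) * a0) i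
    have h2 : mixedEmbedding F ((((e : 𝓞 F) * a0 : 𝓞 F)) : F) = e • mixedEmbedding F (a0 : F) := by
      rw [haF, map_mul, unitSMul_smul]
    rw [h2] at h1
    rw [finrank_eq_dg, hmn] at he
    calc |(((bas F).repr ((e : 𝓞 F) * a0) i : ℤ) : ℝ)| ^ dg F ≤ (C2 * ‖e • mixedEmbedding F (a0 : F)‖) ^ dg F :=
          pow_le_pow_left₀ (abs_nonneg _) h1 _
      _ = C2 ^ dg F * ‖e • mixedEmbedding F (a0 : F)‖ ^ dg F := mul_pow _ _ _
      _ ≤ C2 ^ dg F * (C1 * (Ideal.absNorm (Ideal.span {a0}) : ℝ)) := mul_le_mul_of_nonneg_left he (by positivity)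
      _ ≤ C2 ^ dg F * (C1 * ((G * Nm v : ℕ) : ℝ)) := by
          apply mul_le_mul_of_nonneg_left _ (by positivity)
          apply mul_le_mul_of_nonneg_left _ hC1.le
          exact_mod_cast hnorm
      _ = C2 ^ dg F * (C1 * G) * Nm v := by push_cast; ring

end Pool.Agent.SZ.Asm
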