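import Pool.Agent.Lib.SZ.P2
import Pool.Agent.Lib.SZ.P3
import Pool.Agent.Lib.SZ.E27

/-!
# SZ4, part 3: `BalPrimes F` from the density of the primes in a ray class
-/

namespace Pool.Agent.SZ.Asm

open NumberField CFT Finset
open scoped Classical

variable {F : Type} [Field F] [NumberField F]

theorem nm_two_le (v : Pr F) : 2 ≤ Nm v := by
  have h := one_lt_absNorm (F := F) v.ne_bot v.isPrime
  exact h

omit [NumberField F] in
theorem asIdeal_inj : Function.Injective fun v : Pr F => v.asIdeal := by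
  intro v w h
  exact IsDedekindDomain.HeightOneSpectrum.ext h

theorem nm_fin (t : ℕ) : {v : Pr F | Nm v ≤ t}.Finite := by
  have h := Ideal.finite_setOfPred_absNorm_le (S := 𝓞 F) t
  refine Set.Finite.of_finite_image (f := fun v : Pr F => v.asIdeal) (h.subset ?_) (asIdeal_inj.injOn)
  rintro _ ⟨v, hv, rfl⟩
  exact hv

/-- At most `n (y + 1)` primes have norm at most `y`. -/
theorem card_le (Φ : Finset (Pr F)) (y : ℕ) (h : ∀ v ∈ Φ, Nm v ≤ y) : Φ.card ≤ dg F * (y + 1) := by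
  have hmaps : ∀ v ∈ Φ, (Nm v).minFac ∈ Finset.range (y + 1) := by
    intro v hv
    rw [Finset.mem_range]
    have h1 := Nat.minFac_le (Nm_pos v)
    have h2 := h v hv
    omega
  rw [Finset.card_eq_sum_card_fiberwise hmaps]
  calc ∑ ℓ ∈ Finset.range (y + 1), (Φ.filter fun v => (Nm v).minFac = ℓ).card
      ≤ ∑ ℓ ∈ Finset.range (y + 1), dg F := by
        refine Finset.sum_le_sum fun ℓ _ => ?_
        have h1 := e27_card ((Φ.filter fun v => (Nm v).minFac = ℓ).image fun v : Pr F => v.asIdeal) (by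
          intro p hp
          rw [Finset.mem_image] at hp
          obtain ⟨v, _, rfl⟩ := hp
          exact ⟨v.isPrime, v.ne_bot⟩) ℓ (by
          intro p hp
          rw [Finset.mem_image] at hp
          obtain ⟨v, hv, rfl⟩ := hp
          rw [Finset.mem_filter] at hv
          exact hv.2)
        rwa [Finset.card_image_of_injective _ asIdeal_inj] at h1
    _ = dg F * (y + 1) := by
        rw [Finset.sum_const, Finset.card_range, smul_eq_mul, mul_comm]

theorem ev_log_sqrt (c : ℝ) : ∀ᶠ t : ℕ in Filter.atTop, c * Real.log t ≤ Real.sqrt t := by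
  have h1 : ∀ᶠ x : ℝ in Filter.atTop, c * Real.log x ≤ Real.sqrt x := by
    have h2 : (fun x : ℝ => c * Real.log x) =o[Filter.atTop] (fun x : ℝ => x ^ (1 / 2 : ℝ)) :=
      (isLittleO_log_rpow_atTop (by norm_num)).const_mul_left _
    have h3 := h2.bound (c := 1) one_pos
    filter_upwards [h3, Filter.eventually_ge_atTop (0 : ℝ)] with x hx hx0
    rw [one_mul, Real.norm_eq_abs, Real.norm_eq_abs, abs_of_nonneg (Real.rpow_nonneg hx0 _), ← Real.sqrt_eq_rpow] at hx
    exact (le_abs_self _).trans hx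
  exact tendsto_natCast_atTop_atTop.eventually h1

theorem balPrimes (h : CFTL.ClassDens F) : BalPrimes F := by
  intro S N x₀ hx₀
  obtain ⟨b0, C, hb0, hC, hb0S, hel⟩ := prime_elements S N x₀ hx₀
  obtain ⟨δ1, C', hδ1, hdens⟩ := h S N (dv x₀)
  obtain ⟨P, hP⟩ : ∃ P : Set (Pr F), P = {v : Pr F | v ∉ S ∧ Finsupp.single v 1 - dv x₀ ∈ Pray S N} := ⟨_, rfl⟩
  have hPfin : ∀ t : ℕ, {v | v ∈ P ∧ Nm v ≤ t}.Finite := fun t => (nm_fin t).subset fun v hv => hv.2
  rw [← hP] at hdens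
  obtain ⟨δ0, hδ0, hscale⟩ := count_scales (fun v : Pr F => Nm v) P (fun v _ => nm_two_le v) hPfin δ1 C' hδ1 hdens
  obtain ⟨n, hn⟩ : ∃ n : ℕ, n = dg F := ⟨_, rfl⟩
  have hnpos : 1 ≤ n := by rw [hn]; exact Pool.Agent.SZ.dg_pos
  have hn0 : n ≠ 0 := by omega
  have hnR : (0 : ℝ) < n := by exact_mod_cast hnpos
  obtain ⟨B, hB⟩ : ∃ B : ℝ, B = C + 1 := ⟨_, rfl⟩
  have hB1 : 1 ≤ B := by rw [hB]; linarith
  have hBC : C ≤ B ^ n := by
    refine le_trans ?_ (le_self_pow₀ hB1 hn0)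
    rw [hB]; linarith
  -- the elements
  have helP : ∀ v : Pr F, ∃ a : 𝓞 F, v ∈ P → a ≠ 0 ∧ Ray S N ((a : F) / (b0 : F) / x₀) ∧
      (∀ u ∉ S, u ≠ v → od u ((a : F) / (b0 : F)) = 0) ∧
        od v ((a : F) / (b0 : F)) = 1 ∧ ∀ i, |(((bas F).repr a i : ℤ) : ℝ)| ^ dg F ≤ C * Nm v := by
    intro v
    by_cases hv : v ∈ P
    · rw [hP] at hv
      obtain ⟨a, ha⟩ := hel v hv.1 hv.2
      exact ⟨a, fun _ => ha⟩
    · exact ⟨0, fun h => absurd h hv⟩
  choose el hel' using helP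
  have hinj : ∀ v ∈ P, ∀ w ∈ P, el v = el w → v = w := by
    intro v hv w hw hvw
    by_contra hne
    have h1 := (hel' v hv).2.2.2.1
    have h2 := (hel' w hw).2.2.1 v (by rw [hP] at hv; exact hv.1) hne
    rw [hvw] at h1
    omega
  refine ⟨b0, δ0 / (2 * n * (2 * B) ^ n), hb0, by positivity, ?_⟩
  intro R1
  -- choice of the scale
  obtain ⟨t1, ht1⟩ := Filter.eventually_atTop.1 (ev_log_sqrt (4 * n / δ0))
  obtain ⟨t2, ht2⟩ := exists_nat_gt ((2 * B) ^ n)
  obtain ⟨t, ht, hcount⟩ := hscale (t1 + t2 + R1 ^ n + 3)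
  have htt1 : t1 ≤ t := by omega
  have ht3 : 3 ≤ t := by omega
  have htR1 : R1 ^ n ≤ t := by omega
  have htB : (2 * B) ^ n < t := by
    have : (t2 : ℝ) ≤ t := by exact_mod_cast (by omega : t2 ≤ t)
    linarith
  have htpos : (0 : ℝ) < t := by exact_mod_cast (by omega : 0 < t)
  have ht3R : (3 : ℝ) ≤ t := by exact_mod_cast ht3
  obtain ⟨τ, hτ⟩ : ∃ τ : ℝ, τ = (t : ℝ) ^ ((n : ℝ)⁻¹) := ⟨_, rfl⟩
  have hτn : τ ^ n = t := by
    rw [hτ]
    exact Real.rpow_inv_natCast_pow htpos.le hn0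
  have hτ1 : 1 ≤ τ := by
    rw [hτ]
    exact Real.one_le_rpow (by linarith) (by positivity)
  have hτlog : Real.log τ = Real.log t / n := by
    rw [hτ, Real.log_rpow htpos]
    ring
  obtain ⟨R, hR⟩ : ∃ R : ℕ, R = ⌈B * τ⌉₊ := ⟨_, rfl⟩
  have hRge : B * τ ≤ R := by rw [hR]; exact Nat.le_ceil _
  have hRle : (R : ℝ) ≤ 2 * B * τ := by
    have h1 : (R : ℝ) < B * τ + 1 := by
      rw [hR]
      exact Nat.ceil_lt_add_one (by positivity)
    have h2 : 1 ≤ B * τ := by nlinarith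
    linarith
  have hRτ : τ ≤ R := by
    refine le_trans ?_ hRge
    nlinarith
  have hRpos : (0 : ℝ) < R := by linarith
  have hRn : (R : ℝ) ^ n ≤ (2 * B) ^ n * t := by
    calc (R : ℝ) ^ n ≤ (2 * B * τ) ^ n := pow_le_pow_left₀ hRpos.le hRle n
      _ = (2 * B) ^ n * t := by rw [mul_pow, hτn]
  have hR1 : R1 ≤ R := by
    have h1 : (R1 : ℝ) ^ n ≤ τ ^ n := by
      rw [hτn]
      exact_mod_cast htR1
    have h2 : (R1 : ℝ) ≤ τ := le_of_pow_le_pow_left₀ hn0 (by linarith) h1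
    exact_mod_cast h2.trans hRτ
  have hlogt : 1 ≤ Real.log t := by
    rw [Real.le_log_iff_exp_le htpos]
    have := Real.exp_one_lt_d9
    linarith
  have hlogR : Real.log t / n ≤ Real.log R := by
    rw [← hτlog]
    exact Real.log_le_log (by linarith) hRτ
  have hlogRpos : 0 < Real.log R := lt_of_lt_of_le (by positivity) hlogR
  -- the set of primes
  obtain ⟨V0, hV0⟩ : ∃ V0 : Finset (Pr F), V0 = (hPfin t).toFinset := ⟨_, rfl⟩
  obtain ⟨V, hV⟩ : ∃ V : Finset (Pr F), V = V0.filter fun v => t < (Nm v) ^ 2 := ⟨_, rfl⟩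
  have hV0mem : ∀ v ∈ V0, v ∈ P ∧ Nm v ≤ t := by
    intro v hv
    rw [hV0, Set.Finite.mem_toFinset] at hv
    exact hv
  have hVmem : ∀ v ∈ V, v ∈ P ∧ Nm v ≤ t ∧ t < (Nm v) ^ 2 := by
    intro v hv
    rw [hV, Finset.mem_filter] at hv
    exact ⟨(hV0mem v hv.1).1, (hV0mem v hv.1).2, hv.2⟩
  rw [← hV0] at hcount
  have hVcard : δ0 / 2 * t / Real.log t ≤ V.card := by
    have h1 : V0.card = V.card + (V0.filter fun v => ¬ t < (Nm v) ^ 2).card := by
      rw [hV]
      exact (Finset.card_filter_add_card_filter_not _).symm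
    have h2 : (V0.filter fun v => ¬ t < (Nm v) ^ 2).card ≤ dg F * (Nat.sqrt t + 1) := by
      apply card_le
      intro v hv
      rw [Finset.mem_filter, not_lt] at hv
      rw [Nat.le_sqrt']
      exact hv.2
    have h3 : ((V0.filter fun v => ¬ t < (Nm v) ^ 2).card : ℝ) ≤ n * (Real.sqrt t + 1) := by
      have h4 : ((V0.filter fun v => ¬ t < (Nm v) ^ 2).card : ℝ) ≤ ((dg F * (Nat.sqrt t + 1) : ℕ) : ℝ) := by
        exact_mod_cast h2
      refine h4.trans ?_
      push_cast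
      rw [← hn]
      have h5 : ((Nat.sqrt t : ℕ) : ℝ) ≤ Real.sqrt t := Real.nat_sqrt_le_real_sqrt
      gcongr
    have h6 := ht1 t htt1
    have hsq : Real.sqrt t * Real.sqrt t = t := Real.mul_self_sqrt htpos.le
    have hs1 : 1 ≤ Real.sqrt t := by
      rw [Real.one_le_sqrt]
      linarith
    have h7 : n * (Real.sqrt t + 1) ≤ δ0 / 2 * t / Real.log t := by
      rw [le_div_iff₀ (by linarith)]
      have h8 : 4 * n * Real.log t ≤ δ0 * Real.sqrt t := by
        have : 4 * n / δ0 * Real.log t * δ0 ≤ Real.sqrt t * δ0 := mul_le_mul_of_nonneg_right h6 hδ0.le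
        calc 4 * n * Real.log t = 4 * n / δ0 * Real.log t * δ0 := by field_simp
          _ ≤ Real.sqrt t * δ0 := this
          _ = δ0 * Real.sqrt t := by ring
      calc n * (Real.sqrt t + 1) * Real.log t ≤ n * (Real.sqrt t + Real.sqrt t) * Real.log t := by
            gcongr
        _ = (4 * n * Real.log t) * Real.sqrt t / 2 := by ring
        _ ≤ (δ0 * Real.sqrt t) * Real.sqrt t / 2 := by gcongr
        _ = δ0 / 2 * (Real.sqrt t * Real.sqrt t) := by ring
        _ = δ0 / 2 * t := by rw [hsq]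
    have h9 : (V0.card : ℝ) = V.card + ((V0.filter fun v => ¬ t < (Nm v) ^ 2).card : ℝ) := by
      exact_mod_cast h1
    have h10 : δ0 * t / Real.log t = δ0 / 2 * t / Real.log t + δ0 / 2 * t / Real.log t := by ring
    rw [h9] at hcount
    linarith
  obtain ⟨A, hA⟩ : ∃ A : Finset (𝓞 F), A = V.image el := ⟨_, rfl⟩
  have hAcard : A.card = V.card := by
    rw [hA]
    apply Finset.card_image_of_injOn
    intro v hv w hw hvw
    exact hinj v (hVmem v hv).1 w (hVmem w hw).1 hvw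
  have hAex : ∀ a : 𝓞 F, ∃ v : Pr F, a ∈ A → v ∈ V ∧ el v = a := by
    intro a
    by_cases ha : a ∈ A
    · rw [hA, Finset.mem_image] at ha
      obtain ⟨v, hv, hva⟩ := ha
      exact ⟨v, fun _ => ⟨hv, hva⟩⟩
    · have hne : V.Nonempty := by
        rw [← Finset.card_pos]
        have : (0 : ℝ) < V.card := lt_of_lt_of_le (by positivity) hVcard
        exact_mod_cast this
      exact ⟨hne.choose, fun h => absurd h ha⟩
  choose p hp using hAex
  refine ⟨R, hR1, A, p, ?_, ?_, ?_, ?_, ?_⟩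
  · -- the box
    intro a ha i
    obtain ⟨hvV, hva⟩ := hp a ha
    obtain ⟨hvP, hvt, _⟩ := hVmem _ hvV
    have h1 := (hel' (p a) hvP).2.2.2.2 i
    rw [hva, ← hn] at h1
    have h2 : |(((bas F).repr a i : ℤ) : ℝ)| ^ n ≤ (B * τ) ^ n := by
      refine h1.trans ?_
      rw [mul_pow, hτn]
      have h3 : ((Nm (p a) : ℕ) : ℝ) ≤ t := by exact_mod_cast hvt
      exact mul_le_mul hBC h3 (by positivity) (by positivity)
    have h4 := le_of_pow_le_pow_left₀ hn0 (by positivity) h2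
    have h5 := h4.trans hRge
    have h6 : |(((bas F).repr a i : ℤ) : ℝ)| = ((|(bas F).repr a i| : ℤ) : ℝ) := by push_cast; rfl
    rw [h6] at h5
    exact_mod_cast h5
  · -- rough
    intro a ha 𝔮 h𝔮 h𝔮0 h𝔮N hb h𝔮a
    obtain ⟨hvV, hva⟩ := hp a ha
    obtain ⟨hvP, hvt, hvt2⟩ := hVmem _ hvV
    obtain ⟨ha0, _, hod1, hod2, _⟩ := hel' (p a) hvP
    rw [hva] at ha0 hod1 hod2
    obtain ⟨u, hu⟩ : ∃ u : Pr F, u.asIdeal = 𝔮 := ⟨⟨𝔮, h𝔮, h𝔮0⟩, rfl⟩
    have huS : u ∉ S := by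
      intro h
      apply hb
      rw [← hu]
      exact hb0S u h
    have hb0F : (b0 : F) ≠ 0 := by exact_mod_cast hb0.ne'
    have hb0O : (b0 : 𝓞 F) ≠ 0 := by exact_mod_cast hb0.ne'
    have haF : (a : F) ≠ 0 := by exact_mod_cast ha0
    have hodb : od u (b0 : F) = 0 := by
      have h1 := od_nonneg u (b0 : 𝓞 F)
      have h2 : ¬ 0 < od u ((b0 : 𝓞 F) : F) := by
        rw [od_pos_iff u hb0O, hu]
        exact hb
      have h3 : ((b0 : 𝓞 F) : F) = (b0 : F) := by push_cast; rfl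
      rw [h3] at h1 h2
      omega
    have hoda : 0 < od u (a : F) := by
      rw [od_pos_iff u ha0, hu]
      exact h𝔮a
    have huv : u = p a := by
      by_contra hne
      have h1 := hod1 u huS hne
      rw [div_eq_mul_inv, od_mul u haF (inv_ne_zero hb0F), od_inv, hodb] at h1
      omega
    have h1 : Ideal.absNorm 𝔮 = Nm (p a) := by
      rw [← hu, huv]
      rfl
    rw [h1, ← hn] at h𝔮N
    have h2 : ((Nm (p a) : ℕ) : ℝ) ^ 4 ≤ (R : ℝ) ^ n := by exact_mod_cast h𝔮N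
    have h3 : (t : ℝ) < ((Nm (p a) : ℕ) : ℝ) ^ 2 := by exact_mod_cast hvt2
    have h4 : (t : ℝ) * t < ((Nm (p a) : ℕ) : ℝ) ^ 4 := by
      calc (t : ℝ) * t < ((Nm (p a) : ℕ) : ℝ) ^ 2 * ((Nm (p a) : ℕ) : ℝ) ^ 2 :=
            mul_lt_mul'' h3 h3 htpos.le htpos.le
        _ = ((Nm (p a) : ℕ) : ℝ) ^ 4 := by ring
    have h5 : (2 * B) ^ n * t < t * t := mul_lt_mul_of_pos_right htB htpos
    linarith
  · -- cardinality
    rw [hAcard, ← hn]
    refine le_trans ?_ hVcard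
    have h1 : (R : ℝ) ^ n / Real.log R ≤ ((2 * B) ^ n * t) / (Real.log t / n) :=
      div_le_div₀ (by positivity) hRn (by positivity) hlogR
    have hlogtpos : 0 < Real.log t := by linarith
    calc δ0 / (2 * n * (2 * B) ^ n) * (R : ℝ) ^ n / Real.log R = δ0 / (2 * n * (2 * B) ^ n) * ((R : ℝ) ^ n / Real.log R) := by ring
      _ ≤ δ0 / (2 * n * (2 * B) ^ n) * (((2 * B) ^ n * t) / (Real.log t / n)) := by gcongr
      _ = δ0 / 2 * t / Real.log t := by
          have hBn : (2 * B) ^ n ≠ 0 := by positivity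
          field_simp
  · -- injectivity
    intro a ha a' ha' haa'
    rw [← (hp a ha).2, ← (hp a' ha').2, haa']
  · intro a ha
    obtain ⟨hvV, hva⟩ := hp a ha
    obtain ⟨hvP, _, _⟩ := hVmem _ hvV
    obtain ⟨h1, h2, h3, h4, _⟩ := hel' (p a) hvP
    rw [hva] at h1 h2 h3 h4
    rw [hP] at hvP
    exact ⟨h1, hvP.1, h2, h3, h4⟩

end Pool.Agent.SZ.Asm
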