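import Pool.Agent.Lib.SZ.P5
import Pool.Agent.Lib.CFT.L10

/-!
# SZ: in every ray class of every number field there are two prime elements whose difference is `c X ^ m` (`m = 2, 3`)
-/

namespace Pool.Agent.SZ

theorem prDiff_all (F : Type) [Field F] [NumberField F] (m : ℕ) (hm : m = 2 ∨ m = 3) : PrDiff F m :=
  prDiff_final F m hm (CFTL.class_dens F)

end Pool.Agent.SZ
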