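import Pool.Agent.Lib.SZ.Defs

/-!
# SZ, assembly of Theorem B, basic lemmas: characters, orthogonality on the grid, Parseval.
-/

namespace Pool.Agent.SZ.Asm

open NumberField Finset

variable {F : Type*} [Field F] [NumberField F]

theorem ev_norm (τ : T F) (x : 𝓞 F) : ‖ev τ x‖ = 1 := by
  unfold ev
  exact Circle.norm_coe _

theorem ev_add (τ : T F) (x y : 𝓞 F) : ev τ (x + y) = ev τ x * ev τ y := by
  unfold ev
  rw [map_add, AddCircle.toCircle_add, Circle.coe_mul]

theorem ev_zero (τ : T F) : ev τ 0 = 1 := by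
  unfold ev
  rw [map_zero, AddCircle.toCircle_zero, Circle.coe_one]

theorem ev_neg (τ : T F) (x : 𝓞 F) : ev τ (-x) = (starRingEnd ℂ) (ev τ x) := by
  unfold ev
  rw [map_neg, AddCircle.toCircle_neg, Circle.coe_inv_eq_conj]

theorem ev_sub (τ : T F) (x y : 𝓞 F) : ev τ (x - y) = ev τ x * (starRingEnd ℂ) (ev τ y) := by
  rw [sub_eq_add_neg, ev_add, ev_neg]

theorem ev_zero_char (x : 𝓞 F) : ev (0 : T F) x = 1 := by
  unfold ev
  rw [AddMonoidHom.zero_apply, AddCircle.toCircle_zero, Circle.coe_one]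

theorem ev_tw (g : 𝓞 F) (τ : T F) (x : 𝓞 F) : ev (tw g τ) x = ev τ (g * x) := rfl

theorem chr_apply (β : Ix F → ℝ) (x : 𝓞 F) :
    chr β x = ((∑ i, β i * ((bas F).repr x i : ℝ) : ℝ) : UnitAddCircle) := rfl

theorem chr_bas (β : Ix F → ℝ) (i : Ix F) : chr β (bas F i) = ((β i : ℝ) : UnitAddCircle) := by
  classical
  rw [chr_apply]
  congr 1
  rw [Finset.sum_eq_single i]
  · simp
  · intro j _ hj
    rw [Module.Basis.repr_self, Finsupp.single_eq_of_ne hj]
    simp
  · intro h
    exact absurd (Finset.mem_univ i) h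

theorem T_ext {σ τ : T F} (h : ∀ i, σ (bas F i) = τ (bas F i)) : σ = τ := by
  apply AddMonoidHom.toIntLinearMap_injective
  exact (bas F).ext h

theorem chr_inj_on (P : ℕ) (hP : 0 < P) :
    Set.InjOn (fun h : Ix F → ℕ => (chr fun i => (h i : ℝ) / (P : ℝ) : T F))
      (Fintype.piFinset fun _ : Ix F => Finset.range P) := by
  intro h hh h' hh' heq
  simp only [Finset.mem_coe, Fintype.mem_piFinset, Finset.mem_range] at hh hh'
  funext i
  have h1 : (((h i : ℝ) / (P : ℝ) : ℝ) : UnitAddCircle) = (((h' i : ℝ) / (P : ℝ) : ℝ) : UnitAddCircle) := by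
    rw [← chr_bas (F := F) (fun i => (h i : ℝ) / (P : ℝ)) i, ← chr_bas (F := F) (fun i => (h' i : ℝ) / (P : ℝ)) i]
    exact DFunLike.congr_fun heq (bas F i)
  have hP' : (0 : ℝ) < P := by exact_mod_cast hP
  have h2 := (AddCircle.coe_eq_coe_iff_of_mem_Ico (p := (1 : ℝ)) (a := 0) ?_ ?_).1 h1
  · field_simp at h2
    exact_mod_cast h2
  · constructor
    · positivity
    · rw [zero_add, div_lt_one hP']
      exact_mod_cast hh i
  · constructor
    · positivity
    · rw [zero_add, div_lt_one hP']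
      exact_mod_cast hh' i

theorem toCircle_coe (t : ℝ) : (AddCircle.toCircle ((t : ℝ) : UnitAddCircle) : ℂ) = Complex.exp (2 * Real.pi * t * Complex.I) := by
  rw [AddCircle.toCircle_apply_mk, Circle.coe_exp]
  congr 1
  push_cast
  ring

theorem ev_chr (β : Ix F → ℝ) (x : 𝓞 F) :
    ev (chr β) x = ∏ i, Complex.exp (2 * Real.pi * (β i * ((bas F).repr x i : ℝ)) * Complex.I) := by
  unfold ev
  rw [chr_apply, toCircle_coe, ← Complex.exp_sum]
  congr 1
  push_cast
  rw [Finset.mul_sum, Finset.sum_mul]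

theorem geom_orth (P : ℕ) (hP : 0 < P) (x : ℤ) :
    ∑ h ∈ Finset.range P, Complex.exp (2 * Real.pi * ((((h : ℕ) : ℝ) / (P : ℝ) : ℝ) * ((x : ℝ) : ℂ)) * Complex.I)
      = if (P : ℤ) ∣ x then (P : ℂ) else 0 := by
  have hP' : (P : ℂ) ≠ 0 := by exact_mod_cast hP.ne'
  have h1 : ∀ h : ℕ, Complex.exp (2 * Real.pi * ((((h : ℕ) : ℝ) / (P : ℝ) : ℝ) * ((x : ℝ) : ℂ)) * Complex.I)
      = (Complex.exp (2 * Real.pi * Complex.I * (x / P))) ^ h := by
    intro h
    rw [← Complex.exp_nat_mul]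
    congr 1
    push_cast
    ring
  simp_rw [h1]
  split_ifs with hd
  · obtain ⟨k, rfl⟩ := hd
    have : Complex.exp (2 * Real.pi * Complex.I * (((P : ℤ) * k : ℤ) / P)) = 1 := by
      rw [Complex.exp_eq_one_iff]
      refine ⟨k, ?_⟩
      push_cast
      field_simp
    rw [this]
    simp
  · have hne : Complex.exp (2 * Real.pi * Complex.I * (x / P)) ≠ 1 := by
      intro h
      rw [Complex.exp_eq_one_iff] at h
      obtain ⟨k, hk⟩ := h
      apply hd
      refine ⟨k, ?_⟩
      have hpi : (2 * Real.pi * Complex.I : ℂ) ≠ 0 := Complex.two_pi_I_ne_zero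
      have h2 : (x / P : ℂ) = k := by
        have : (2 * Real.pi * Complex.I : ℂ) * (x / P) = (2 * Real.pi * Complex.I : ℂ) * k := by
          rw [hk]; ring
        exact mul_left_cancel₀ hpi this
      rw [div_eq_iff hP'] at h2
      have h3 : (x : ℂ) = ((P * k : ℤ) : ℂ) := by
        push_cast
        rw [h2]; ring
      exact_mod_cast h3
    rw [geom_sum_eq hne]
    have : Complex.exp (2 * Real.pi * Complex.I * (x / P)) ^ P = 1 := by
      rw [← Complex.exp_nat_mul, Complex.exp_eq_one_iff]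
      refine ⟨x, ?_⟩
      field_simp
    rw [this, sub_self, zero_div]

/-- Orthogonality on the grid. -/
theorem grid_orth (P : ℕ) (hP : 0 < P) (x : 𝓞 F) :
    ∑ τ ∈ grid F P, ev τ x = if (∀ i, (P : ℤ) ∣ (bas F).repr x i) then (P : ℂ) ^ dg F else 0 := by
  classical
  unfold grid
  rw [Finset.sum_image (chr_inj_on (F := F) P hP)]
  simp_rw [ev_chr]
  rw [← Finset.prod_univ_sum (fun _ : Ix F => Finset.range P)
    (fun i h => Complex.exp (2 * Real.pi * ((((h : ℕ) : ℝ) / (P : ℝ) : ℝ) * (((bas F).repr x i : ℝ) : ℂ)) * Complex.I))]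
  simp_rw [geom_orth P hP]
  split_ifs with h
  · rw [Finset.prod_congr rfl (fun i _ => if_pos (h i))]
    rw [Finset.prod_const, Finset.card_univ]
  · push Not at h
    obtain ⟨i, hi⟩ := h
    exact Finset.prod_eq_zero (Finset.mem_univ i) (if_neg hi)

end Pool.Agent.SZ.Asm
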