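import Pool.Agent.Lib.SZ.B1

/-!
# SZ, assembly of Theorem B: the counting identity and Parseval on the grid.
-/

namespace Pool.Agent.SZ.Asm

open NumberField Finset

variable {F : Type*} [Field F] [NumberField F]

theorem zero_mem_box {Y : ℕ} (hY : 1 ≤ Y) : (0 : 𝓞 F) ∈ box F Y := by
  classical
  unfold box
  rw [Finset.mem_image]
  refine ⟨fun _ => 0, ?_, by simp⟩
  rw [Fintype.mem_piFinset]
  intro i
  rw [Finset.mem_range]
  omega

theorem mem_box {Y : ℕ} {x : 𝓞 F} : x ∈ box F Y ↔ ∀ i, 0 ≤ (bas F).repr x i ∧ (bas F).repr x i < Y := by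
  classical
  unfold box
  rw [Finset.mem_image]
  constructor
  · rintro ⟨v, hv, rfl⟩ i
    rw [Fintype.mem_piFinset] at hv
    have h1 : (∑ j, v j • bas F j : 𝓞 F) = ∑ j, (v j : ℤ) • bas F j := by
      refine Finset.sum_congr rfl fun j _ => ?_
      simp
    rw [h1, Module.Basis.repr_sum_self]
    have := Finset.mem_range.1 (hv i)
    constructor
    · positivity
    · exact_mod_cast this
  · intro h
    refine ⟨fun i => ((bas F).repr x i).toNat, ?_, ?_⟩
    · rw [Fintype.mem_piFinset]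
      intro i
      rw [Finset.mem_range]
      have := h i
      omega
    · conv_rhs => rw [← (bas F).sum_repr x]
      refine Finset.sum_congr rfl fun i _ => ?_
      have h1 : ((((bas F).repr x i).toNat : ℕ) : ℤ) = (bas F).repr x i := Int.toNat_of_nonneg (h i).1
      conv_rhs => rw [← h1]
      rw [natCast_zsmul]

theorem FA_sq (A : Finset (𝓞 F)) (τ : T F) :
    ((‖FA A τ‖ ^ 2 : ℝ) : ℂ) = ∑ a ∈ A, ∑ a' ∈ A, ev τ (a - a') := by
  have h1 : ((‖FA A τ‖ ^ 2 : ℝ) : ℂ) = FA A τ * (starRingEnd ℂ) (FA A τ) := by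
    rw [Complex.mul_conj, Complex.normSq_eq_norm_sq]
  rw [h1]
  unfold FA
  rw [map_sum, Finset.sum_mul_sum]
  refine Finset.sum_congr rfl fun a _ => Finset.sum_congr rfl fun a' _ => ?_
  rw [ev_sub]

/-- The counting identity. -/
theorem sum_ident (A : Finset (𝓞 F)) (g : 𝓞 F) (m Y P : ℕ) (hm : m ≠ 0) (hY : 1 ≤ Y) (hP : 0 < P)
    (hsmall : ∀ a ∈ A, ∀ a' ∈ A, ∀ X ∈ box F Y, ∀ i, |(bas F).repr (a - a' + g * X ^ m) i| < (P : ℤ))
    (hno : ∀ a ∈ A, ∀ a' ∈ A, ∀ X ∈ box F Y, a' - a = g * X ^ m → X = 0) :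
    ∑ τ ∈ grid F P, ((‖FA A τ‖ ^ 2 : ℝ) : ℂ) * ∑ X ∈ box F Y, ev τ (g * X ^ m) = (P : ℂ) ^ dg F * A.card := by
  classical
  have h1 : ∀ τ : T F, ((‖FA A τ‖ ^ 2 : ℝ) : ℂ) * ∑ X ∈ box F Y, ev τ (g * X ^ m)
      = ∑ a ∈ A, ∑ a' ∈ A, ∑ X ∈ box F Y, ev τ (a - a' + g * X ^ m) := by
    intro τ
    rw [FA_sq, Finset.sum_mul]
    refine Finset.sum_congr rfl fun a _ => ?_
    rw [Finset.sum_mul]
    refine Finset.sum_congr rfl fun a' _ => ?_
    rw [Finset.mul_sum]
    refine Finset.sum_congr rfl fun X _ => ?_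
    rw [ev_add]
  simp_rw [h1]
  rw [Finset.sum_comm]
  have h2 : ∀ a ∈ A, ∑ τ ∈ grid F P, ∑ a' ∈ A, ∑ X ∈ box F Y, ev τ (a - a' + g * X ^ m) = (P : ℂ) ^ dg F := by
    intro a ha
    rw [Finset.sum_comm]
    have h3 : ∀ a' ∈ A, ∑ τ ∈ grid F P, ∑ X ∈ box F Y, ev τ (a - a' + g * X ^ m)
        = if a' = a then (P : ℂ) ^ dg F else 0 := by
      intro a' ha'
      rw [Finset.sum_comm]
      have h4 : ∀ X ∈ box F Y, ∑ τ ∈ grid F P, ev τ (a - a' + g * X ^ m)
          = if X = 0 ∧ a' = a then (P : ℂ) ^ dg F else 0 := by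
        intro X hX
        rw [grid_orth P hP]
        refine if_congr ?_ rfl rfl
        constructor
        · intro h
          have h5 : a - a' + g * X ^ m = 0 := by
            apply (bas F).ext_elem
            intro i
            rw [map_zero, Finsupp.zero_apply]
            exact Int.eq_zero_of_abs_lt_dvd (h i) (hsmall a ha a' ha' X hX i)
          have h6 : a' - a = g * X ^ m := by linear_combination -h5
          have h7 := hno a ha a' ha' X hX h6
          refine ⟨h7, ?_⟩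
          rw [h7, zero_pow hm, mul_zero] at h6
          exact sub_eq_zero.1 h6
        · rintro ⟨rfl, rfl⟩ i
          rw [zero_pow hm, mul_zero, sub_self, add_zero, map_zero, Finsupp.zero_apply]
          exact dvd_zero _
      rw [Finset.sum_congr rfl h4]
      by_cases haa : a' = a
      · simp only [haa, and_true, if_true]
        rw [Finset.sum_ite_eq' (box F Y) 0 (fun _ => (P : ℂ) ^ dg F), if_pos (zero_mem_box hY)]
      · simp [haa]
    rw [Finset.sum_congr rfl h3, Finset.sum_ite_eq' A a (fun _ => (P : ℂ) ^ dg F), if_pos ha]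
  rw [Finset.sum_congr rfl h2, Finset.sum_const, nsmul_eq_mul, mul_comm]

/-- Parseval on the grid. -/
theorem parseval (A : Finset (𝓞 F)) (P : ℕ) (hP : 0 < P)
    (hsmall : ∀ a ∈ A, ∀ a' ∈ A, ∀ i, |(bas F).repr (a - a') i| < (P : ℤ)) :
    ∑ τ ∈ grid F P, ‖FA A τ‖ ^ 2 = (P : ℝ) ^ dg F * A.card := by
  have hb : ∀ X ∈ box F 1, X = 0 := by
    intro X hX
    rw [mem_box] at hX
    apply (bas F).ext_elem
    intro i
    rw [map_zero, Finsupp.zero_apply]
    have := hX i
    omega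
  have h := sum_ident A 0 1 1 P one_ne_zero le_rfl hP ?_ ?_
  · have hb' : box F 1 = {0} := by
      ext X
      rw [Finset.mem_singleton]
      constructor
      · exact hb X
      · rintro rfl
        exact zero_mem_box le_rfl
    rw [hb'] at h
    simp only [Finset.sum_singleton, pow_one, mul_zero, ev_zero, mul_one] at h
    exact_mod_cast h
  · intro a ha a' ha' X _ i
    rw [zero_mul, add_zero]
    exact hsmall a ha a' ha' i
  · intro a _ a' _ X hX _
    exact hb X hX

end Pool.Agent.SZ.Asm
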