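import Mathlib

/-!
# SZ, assembly of Theorem B: the abstract core (dyadic sum over small values, nested sets, pigeonhole).
-/

namespace Pool.Agent.SZ.Asm

open Finset

theorem dyadic {α : Type*} (H : Finset α) (ω : α → ℝ) (s : α → ℝ) (hω : ∀ x ∈ H, 0 ≤ ω x)
    (I : ℕ) (E : ℕ → ℝ) (I2 : ℕ) (hI : I ≤ I2)
    (hE : ∀ i, I ≤ i → i < I2 → ∑ x ∈ H with (1 / 2 : ℝ) ^ (i + 1) ≤ s x, ω x ≤ E i) :
    ∑ x ∈ H with s x < (1 / 2 : ℝ) ^ I, ω x * s x
      ≤ ∑ i ∈ Finset.Ico I I2, (1 / 2 : ℝ) ^ i * E i + ∑ x ∈ H with s x < (1 / 2 : ℝ) ^ I2, ω x * s x := by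
  classical
  induction I2, hI using Nat.le_induction with
  | base => simp
  | succ k hk ih =>
    have ih' := ih (fun i h1 h2 => hE i h1 (by omega))
    refine ih'.trans ?_
    rw [Finset.sum_Ico_succ_top hk]
    have h1 : ∑ x ∈ H with s x < (1 / 2 : ℝ) ^ k, ω x * s x
        ≤ (1 / 2 : ℝ) ^ k * E k + ∑ x ∈ H with s x < (1 / 2 : ℝ) ^ (k + 1), ω x * s x := by
      have h2 : (H.filter fun x => s x < (1 / 2 : ℝ) ^ k)
          = (H.filter fun x => s x < (1 / 2 : ℝ) ^ (k + 1)) ∪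
            (H.filter fun x => (1 / 2 : ℝ) ^ (k + 1) ≤ s x ∧ s x < (1 / 2 : ℝ) ^ k) := by
        ext x
        simp only [Finset.mem_filter, Finset.mem_union]
        constructor
        · rintro ⟨hx, hx2⟩
          rcases lt_or_ge (s x) ((1 / 2 : ℝ) ^ (k + 1)) with h | h
          · exact Or.inl ⟨hx, h⟩
          · exact Or.inr ⟨hx, h, hx2⟩
        · rintro (⟨hx, h⟩ | ⟨hx, _, h⟩)
          · refine ⟨hx, h.trans ?_⟩
            exact pow_lt_pow_right_of_lt_one₀ (by norm_num) (by norm_num) (by omega)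
          · exact ⟨hx, h⟩
      rw [h2, Finset.sum_union]
      · rw [add_comm]
        refine add_le_add ?_ le_rfl
        calc ∑ x ∈ H with (1 / 2 : ℝ) ^ (k + 1) ≤ s x ∧ s x < (1 / 2 : ℝ) ^ k, ω x * s x
            ≤ ∑ x ∈ H with (1 / 2 : ℝ) ^ (k + 1) ≤ s x ∧ s x < (1 / 2 : ℝ) ^ k, ω x * (1 / 2 : ℝ) ^ k := by
              refine Finset.sum_le_sum fun x hx => ?_
              rw [Finset.mem_filter] at hx
              exact mul_le_mul_of_nonneg_left hx.2.2.le (hω x hx.1)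
          _ = (1 / 2 : ℝ) ^ k * ∑ x ∈ H with (1 / 2 : ℝ) ^ (k + 1) ≤ s x ∧ s x < (1 / 2 : ℝ) ^ k, ω x := by
              rw [← Finset.sum_mul, mul_comm]
          _ ≤ (1 / 2 : ℝ) ^ k * E k := by
              refine mul_le_mul_of_nonneg_left ?_ (by positivity)
              refine le_trans ?_ (hE k hk (by omega))
              refine Finset.sum_le_sum_of_subset_of_nonneg ?_ ?_
              · intro x hx
                rw [Finset.mem_filter] at hx ⊢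
                exact ⟨hx.1, hx.2.1⟩
              · intro x hx _
                exact hω x (Finset.mem_filter.1 hx).1
      · rw [Finset.disjoint_filter]
        intro x _ h3 h4
        exact absurd h4.1 (not_le.2 h3)
    linarith

theorem core {α : Type*} (H : Finset α) (ω : α → ℝ) (hω : ∀ x ∈ H, 0 ≤ ω x) (s : ℕ → α → ℂ)
    (A : ℕ → Finset α) (Λ δ Ew : ℝ) (J I I2 : ℕ) (E : ℕ → ℝ) (o : α)
    (hΛ : 0 < Λ) (hδ : 0 < δ) (hI : I ≤ I2) (hJ : Ew < J * (δ / 100)) (hEw : 0 ≤ Ew)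
    (h1 : ∀ j < J, A j ⊆ A (j + 1)) (h1' : ∀ j ≤ J, A j ⊆ H)
    (h2 : ∑ x ∈ A J, ω x ≤ Ew * Λ)
    (h4 : ∀ j < J, ∀ x ∈ A j, (1 : ℝ) / 2 ≤ (s j x).re)
    (h5 : ∀ j < J, ∀ x ∈ H, (1 / 2 : ℝ) ^ I ≤ ‖s j x‖ → x ∈ A (j + 1))
    (h5' : ∀ j < J, ∀ x ∈ H, ‖s j x‖ ≤ 1)
    (h6 : ∀ j < J, ∀ i, I ≤ i → i < I2 → ∑ x ∈ H with (1 / 2 : ℝ) ^ (i + 1) ≤ ‖s j x‖, ω x ≤ E i * Λ)
    (h7 : ∑ i ∈ Finset.Ico I I2, (1 / 2 : ℝ) ^ i * E i ≤ δ / 100)
    (h8 : (1 / 2 : ℝ) ^ I2 * ∑ x ∈ H, ω x ≤ δ / 100 * Λ)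
    (h9 : o ∈ A 0) (h9' : δ * Λ ≤ ω o)
    (h10 : ∀ j < J, (∑ x ∈ H, (ω x : ℂ) * s j x).re ≤ δ / 100 * Λ) : False := by
  classical
  have hJ0 : 0 < J := by
    rcases Nat.eq_zero_or_pos J with h | h
    · subst h
      simp at hJ
      linarith
    · exact h
  -- pigeonhole
  obtain ⟨j, hjJ, hj⟩ : ∃ j < J, ∑ x ∈ A (j + 1), ω x - ∑ x ∈ A j, ω x ≤ δ / 100 * Λ := by
    by_contra hcon
    push Not at hcon
    have h11 : ∀ k ≤ J, (k : ℝ) * (δ / 100 * Λ) ≤ ∑ x ∈ A k, ω x - ∑ x ∈ A 0, ω x := by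
      intro k
      induction k with
      | zero => intro _; simp
      | succ k ih =>
        intro hk
        have := ih (by omega)
        have h12 := hcon k (by omega)
        push_cast
        linarith
    have h13 := h11 J le_rfl
    have h14 : 0 ≤ ∑ x ∈ A 0, ω x := Finset.sum_nonneg fun x hx => hω x (h1' 0 (by omega) hx)
    have h15 : (J : ℝ) * (δ / 100 * Λ) ≤ Ew * Λ := by linarith
    have h16 : Ew * Λ < J * (δ / 100) * Λ := mul_lt_mul_of_pos_right hJ hΛ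
    linarith
  have hAH : A j ⊆ H := h1' j hjJ.le
  have hAH' : A (j + 1) ⊆ H := h1' (j + 1) hjJ
  have hsub := h1 j hjJ
  have hoj : o ∈ A j := by
    have : ∀ k ≤ J, A 0 ⊆ A k := by
      intro k
      induction k with
      | zero => intro _; exact Finset.Subset.refl _
      | succ k ih => intro hk; exact (ih (by omega)).trans (h1 k (by omega))
    exact this j hjJ.le h9
  -- the three parts
  have hre : (∑ x ∈ H, (ω x : ℂ) * s j x).re = ∑ x ∈ H, ω x * (s j x).re := by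
    rw [Complex.re_sum]
    refine Finset.sum_congr rfl fun x _ => ?_
    rw [Complex.re_ofReal_mul]
  have hsplit : ∑ x ∈ H, ω x * (s j x).re = ∑ x ∈ H \ A (j + 1), ω x * (s j x).re
      + (∑ x ∈ A (j + 1) \ A j, ω x * (s j x).re + ∑ x ∈ A j, ω x * (s j x).re) := by
    rw [Finset.sum_sdiff hsub, Finset.sum_sdiff hAH']
  have hp1 : δ / 2 * Λ ≤ ∑ x ∈ A j, ω x * (s j x).re := by
    have h20 : ∑ x ∈ A j, ω x * (1 / 2) ≤ ∑ x ∈ A j, ω x * (s j x).re :=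
      Finset.sum_le_sum fun x hx => mul_le_mul_of_nonneg_left (h4 j hjJ x hx) (hω x (hAH hx))
    have h21 : ω o * (1 / 2) ≤ ∑ x ∈ A j, ω x * (1 / 2) :=
      Finset.single_le_sum (f := fun x => ω x * (1 / 2)) (fun x hx => mul_nonneg (hω x (hAH hx)) (by norm_num)) hoj
    linarith
  have hp2 : -(δ / 100 * Λ) ≤ ∑ x ∈ A (j + 1) \ A j, ω x * (s j x).re := by
    have h22 : ∑ x ∈ A (j + 1) \ A j, ω x * (-1) ≤ ∑ x ∈ A (j + 1) \ A j, ω x * (s j x).re := by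
      refine Finset.sum_le_sum fun x hx => ?_
      have hxH : x ∈ H := hAH' (Finset.mem_sdiff.1 hx).1
      refine mul_le_mul_of_nonneg_left ?_ (hω x hxH)
      have h23 := (abs_le.1 ((Complex.abs_re_le_norm (s j x)).trans (h5' j hjJ x hxH))).1
      exact h23
    have h24 : ∑ x ∈ A (j + 1) \ A j, ω x + ∑ x ∈ A j, ω x = ∑ x ∈ A (j + 1), ω x := Finset.sum_sdiff hsub
    rw [← Finset.sum_mul] at h22
    linarith
  have hp3 : -(2 * (δ / 100) * Λ) ≤ ∑ x ∈ H \ A (j + 1), ω x * (s j x).re := by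
    have h25 : ∑ x ∈ H \ A (j + 1), -(ω x * ‖s j x‖) ≤ ∑ x ∈ H \ A (j + 1), ω x * (s j x).re := by
      refine Finset.sum_le_sum fun x hx => ?_
      have hxH : x ∈ H := (Finset.mem_sdiff.1 hx).1
      rw [← mul_neg]
      refine mul_le_mul_of_nonneg_left ?_ (hω x hxH)
      exact (abs_le.1 (Complex.abs_re_le_norm (s j x))).1
    have h26 : ∑ x ∈ H \ A (j + 1), ω x * ‖s j x‖ ≤ ∑ x ∈ H with ‖s j x‖ < (1 / 2 : ℝ) ^ I, ω x * ‖s j x‖ := by
      refine Finset.sum_le_sum_of_subset_of_nonneg ?_ ?_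
      · intro x hx
        rw [Finset.mem_sdiff] at hx
        rw [Finset.mem_filter]
        refine ⟨hx.1, ?_⟩
        by_contra hcon
        exact hx.2 (h5 j hjJ x hx.1 (not_lt.1 hcon))
      · intro x hx _
        exact mul_nonneg (hω x (Finset.mem_filter.1 hx).1) (norm_nonneg _)
    have h27 := dyadic H ω (fun x => ‖s j x‖) hω I (fun i => E i * Λ) I2 hI (h6 j hjJ)
    have h28 : ∑ x ∈ H with ‖s j x‖ < (1 / 2 : ℝ) ^ I2, ω x * ‖s j x‖ ≤ δ / 100 * Λ := by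
      refine le_trans ?_ h8
      rw [Finset.mul_sum]
      calc ∑ x ∈ H with ‖s j x‖ < (1 / 2 : ℝ) ^ I2, ω x * ‖s j x‖
          ≤ ∑ x ∈ H with ‖s j x‖ < (1 / 2 : ℝ) ^ I2, (1 / 2 : ℝ) ^ I2 * ω x := by
            refine Finset.sum_le_sum fun x hx => ?_
            rw [Finset.mem_filter] at hx
            rw [mul_comm]
            exact mul_le_mul_of_nonneg_right hx.2.le (hω x hx.1)
        _ ≤ ∑ x ∈ H, (1 / 2 : ℝ) ^ I2 * ω x := by
            refine Finset.sum_le_sum_of_subset_of_nonneg (Finset.filter_subset _ _) ?_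
            intro x hx _
            exact mul_nonneg (by positivity) (hω x hx)
    have h29 : ∑ i ∈ Finset.Ico I I2, (1 / 2 : ℝ) ^ i * (E i * Λ) ≤ δ / 100 * Λ := by
      have : ∑ i ∈ Finset.Ico I I2, (1 / 2 : ℝ) ^ i * (E i * Λ) = (∑ i ∈ Finset.Ico I I2, (1 / 2 : ℝ) ^ i * E i) * Λ := by
        rw [Finset.sum_mul]
        refine Finset.sum_congr rfl fun i _ => ?_
        ring
      rw [this]
      exact mul_le_mul_of_nonneg_right h7 hΛ.le
    rw [Finset.sum_neg_distrib] at h25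
    linarith
  have h30 := h10 j hjJ
  rw [hre, hsplit] at h30
  have h31 : 0 < δ * Λ := mul_pos hδ hΛ
  nlinarith

/-- The tail of the dyadic series is small. -/
theorem tail_small (K k : ℕ) (hK : 1 ≤ K) (C ε : ℝ) (hC : 0 < C) (hε : 0 < ε) : ∃ I0 : ℕ, ∀ I, I0 ≤ I → ∀ I2 : ℕ,
    ∑ i ∈ Finset.Ico I I2, (1 / 2 : ℝ) ^ i * (C * (Real.log ((K * 2 ^ (K * (i + 1)) : ℕ) : ℝ)) ^ k) ≤ ε := by
  have hsum : Summable fun i : ℕ => C * (2 * (2 * K)) ^ k * ((i : ℝ) ^ k * (1 / 2 : ℝ) ^ i) := by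
    apply Summable.mul_left
    exact summable_pow_mul_geometric_of_norm_lt_one k (by norm_num)
  have hb : ∀ i : ℕ, 1 ≤ i → (1 / 2 : ℝ) ^ i * (C * (Real.log ((K * 2 ^ (K * (i + 1)) : ℕ) : ℝ)) ^ k)
      ≤ C * (2 * (2 * K)) ^ k * ((i : ℝ) ^ k * (1 / 2 : ℝ) ^ i) := by
    intro i hi
    have hK' : (1 : ℝ) ≤ K := by exact_mod_cast hK
    have hi' : (1 : ℝ) ≤ i := by exact_mod_cast hi
    have h1 : Real.log ((K * 2 ^ (K * (i + 1)) : ℕ) : ℝ) ≤ 2 * (2 * K) * i := by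
      push_cast
      rw [Real.log_mul (by positivity) (by positivity), Real.log_pow]
      have h2 : Real.log K ≤ K := (Real.log_le_sub_one_of_pos (by positivity)).trans (by linarith)
      have h3 : Real.log 2 ≤ 1 := by
        have := Real.log_two_lt_d9
        linarith
      have h4 : ((K * (i + 1) : ℕ) : ℝ) * Real.log 2 ≤ K * (i + 1) := by
        push_cast
        have : 0 ≤ (K : ℝ) * (i + 1) := by positivity
        nlinarith
      have h5 : (K : ℝ) * (i + 1) ≤ 2 * K * i := by nlinarith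
      nlinarith
    have h0 : 0 ≤ Real.log ((K * 2 ^ (K * (i + 1)) : ℕ) : ℝ) := by
      apply Real.log_natCast_nonneg
    have h6 := pow_le_pow_left₀ h0 h1 k
    calc (1 / 2 : ℝ) ^ i * (C * (Real.log ((K * 2 ^ (K * (i + 1)) : ℕ) : ℝ)) ^ k)
        ≤ (1 / 2 : ℝ) ^ i * (C * (2 * (2 * K) * i) ^ k) := by gcongr
      _ = C * (2 * (2 * K)) ^ k * ((i : ℝ) ^ k * (1 / 2 : ℝ) ^ i) := by
        rw [mul_pow]; ring
  have hnn : ∀ i : ℕ, 0 ≤ C * (2 * (2 * K)) ^ k * ((i : ℝ) ^ k * (1 / 2 : ℝ) ^ i) := fun i => by positivity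
  have htend := tendsto_sum_nat_add fun i : ℕ => C * (2 * (2 * K)) ^ k * ((i : ℝ) ^ k * (1 / 2 : ℝ) ^ i)
  obtain ⟨I0, hI0⟩ := Filter.eventually_atTop.1 ((tendsto_order.1 htend).2 ε hε)
  refine ⟨I0 + 1, ?_⟩
  intro I hI I2
  have h7 := hI0 I (by omega)
  refine le_trans ?_ h7.le
  calc ∑ i ∈ Finset.Ico I I2, (1 / 2 : ℝ) ^ i * (C * (Real.log ((K * 2 ^ (K * (i + 1)) : ℕ) : ℝ)) ^ k)
      ≤ ∑ i ∈ Finset.Ico I I2, C * (2 * (2 * K)) ^ k * ((i : ℝ) ^ k * (1 / 2 : ℝ) ^ i) := by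
        refine Finset.sum_le_sum fun i hi => hb i ?_
        rw [Finset.mem_Ico] at hi
        omega
    _ = ∑ i ∈ Finset.range (I2 - I), C * (2 * (2 * K)) ^ k * (((i + I : ℕ) : ℝ) ^ k * (1 / 2 : ℝ) ^ (i + I)) := by
        rw [Finset.sum_Ico_eq_sum_range]
        refine Finset.sum_congr rfl fun i _ => ?_
        rw [add_comm I i]
    _ ≤ ∑' i : ℕ, C * (2 * (2 * K)) ^ k * (((i + I : ℕ) : ℝ) ^ k * (1 / 2 : ℝ) ^ (i + I)) := by
        apply Summable.sum_le_tsum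
        · intro i _
          exact hnn (i + I)
        · exact (summable_nat_add_iff I).2 hsum

end Pool.Agent.SZ.Asm
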