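import Pool.Agent.Lib.SZ.B3

/-!
# SZ, assembly of Theorem B: boxes, side lengths, arcs, eventual inequalities.
-/

namespace Pool.Agent.SZ.Asm

open NumberField Finset

variable {F : Type*} [Field F] [NumberField F]

variable (F) in
theorem card_box (Y : ℕ) : (box F Y).card = Y ^ dg F := by
  classical
  unfold box
  rw [Finset.card_image_of_injOn, Fintype.card_piFinset, Finset.prod_const, Finset.card_range, Finset.card_univ]
  intro v _ v' _ h
  funext i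
  have h1 : ∀ u : Ix F → ℕ, (bas F).repr (∑ j, u j • bas F j : 𝓞 F) i = u i := by
    intro u
    have h1 : (∑ j, u j • bas F j : 𝓞 F) = ∑ j, (u j : ℤ) • bas F j := by
      refine Finset.sum_congr rfl fun j _ => ?_
      simp
    rw [h1, Module.Basis.repr_sum_self]
  have h2 := h1 v
  have h3 := h1 v'
  have h4 : (∑ j, v j • bas F j : 𝓞 F) = ∑ j, v' j • bas F j := h
  rw [h4, h3] at h2
  exact_mod_cast h2.symm

variable (F) in
theorem dg_pos : 0 < dg F := by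
  have h : dg F = Module.finrank ℤ (𝓞 F) := (Module.finrank_eq_card_chooseBasisIndex ℤ (𝓞 F)).symm
  rw [h, RingOfIntegers.rank]
  exact Module.finrank_pos

theorem exists_Y (m D R : ℕ) (hm : 1 ≤ m) (hD : 1 ≤ D) (hR : D ≤ R) :
    ∃ Y : ℕ, 1 ≤ Y ∧ D * Y ^ m ≤ R ∧ R < D * (Y + 1) ^ m ∧ R < 2 ^ m * (D * Y ^ m) := by
  classical
  have hex : ∃ Y : ℕ, R < D * (Y + 1) ^ m := by
    refine ⟨R, ?_⟩
    calc R < R + 1 := by omega
      _ = (R + 1) ^ 1 := by ring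
      _ ≤ (R + 1) ^ m := Nat.pow_le_pow_right (by omega) hm
      _ ≤ D * (R + 1) ^ m := Nat.le_mul_of_pos_left _ (by omega)
  have h1 := Nat.find_spec hex
  have h2 : 1 ≤ Nat.find hex := by
    by_contra hcon
    have h3 : Nat.find hex = 0 := by omega
    rw [h3] at h1
    simp at h1
    omega
  refine ⟨Nat.find hex, h2, ?_, h1, ?_⟩
  · have h4 := Nat.find_min hex (m := Nat.find hex - 1) (by omega)
    rw [Nat.sub_add_cancel h2] at h4
    omega
  · refine lt_of_lt_of_le h1 ?_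
    calc D * (Nat.find hex + 1) ^ m ≤ D * (2 * Nat.find hex) ^ m := by
          apply Nat.mul_le_mul_left
          apply Nat.pow_le_pow_left
          omega
      _ = 2 ^ m * (D * Nat.find hex ^ m) := by rw [mul_pow]; ring

/-- Points with small `q • tw g ψ` are near torsion points of the expected order. -/
theorem arc {C1 : ℕ} (hC1 : ∀ (a b : ℕ) (x y : 𝓞 F), InB a x → InB b y → InB (C1 * a * b) (x * y))
    (c c' : 𝓞 F) (Nc W m j q G' : ℕ) (hcc : c * c' = (Nc : 𝓞 F)) (hG' : InB G' c') (hNc : 1 ≤ Nc) (hW : 1 ≤ W)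
    (hq : 1 ≤ q) (ψ : T F) :
    ∃ ψ0 : T F, (q * (Nc * (W ^ j) ^ m)) • ψ0 = 0 ∧
      nT (ψ - ψ0) ≤ dg F * (C1 * G') * nT (q • tw (c * ((W ^ j : ℕ) : 𝓞 F) ^ m) ψ) := by
  obtain ⟨ψ0, h0, h1⟩ := near_torsion (F := F) (q * (Nc * (W ^ j) ^ m)) (by
    have : 0 < q * (Nc * (W ^ j) ^ m) := by positivity
    omega) ψ
  refine ⟨ψ0, h0, h1.trans ?_⟩
  have h2 : (q * (Nc * (W ^ j) ^ m)) • ψ = tw c' (q • tw (c * ((W ^ j : ℕ) : 𝓞 F) ^ m) ψ) := by
    have h3 : ∀ φ : T F, tw c' (q • φ) = q • tw c' φ := by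
      intro φ
      ext x
      simp [tw]
    rw [h3, ← tw_mul, mul_nsmul', ← tw_natCast (Nc * (W ^ j) ^ m)]
    congr 2
    push_cast
    rw [← hcc]
    ring
  rw [h2]
  exact nT_tw_le hC1 hG' _

theorem ev_big (B : ℝ) : ∀ᶠ R : ℕ in Filter.atTop, B ≤ Real.log R := by
  have := (Real.tendsto_log_atTop.comp tendsto_natCast_atTop_atTop).eventually_ge_atTop B
  exact this

theorem ev_Y (m D n : ℕ) (hm : 1 ≤ m) (hD : 1 ≤ D) (hn : 1 ≤ n) (δ : ℝ) (hδ : 0 < δ) :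
    ∀ᶠ R : ℕ in Filter.atTop, ∀ Y : ℕ, 1 ≤ Y → R < 2 ^ m * (D * Y ^ m) →
      100 * 4 ^ n * Real.log R ≤ δ * (Y : ℝ) ^ n := by
  set T : ℝ := 100 * 4 ^ n / δ with hT
  have hTpos : 0 < T := by positivity
  have h1 : ∀ᶠ x : ℝ in Filter.atTop, (2 ^ m * (D * T ^ m)) * Real.log x ^ m ≤ x := by
    have h2 : (fun x : ℝ => (2 ^ m * (D * T ^ m)) * Real.log x ^ m) =o[Filter.atTop] (id : ℝ → ℝ) :=
      (Real.isLittleO_pow_log_id_atTop (n := m)).const_mul_left _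
    have h3 := h2.bound (c := 1) one_pos
    filter_upwards [h3, Filter.eventually_ge_atTop (0 : ℝ)] with x hx hx0
    rw [one_mul, id, Real.norm_eq_abs, Real.norm_eq_abs, abs_of_nonneg hx0] at hx
    exact (le_abs_self _).trans hx
  have h4 := tendsto_natCast_atTop_atTop.eventually h1
  filter_upwards [h4, ev_big 0] with R hR hlog Y hY hRY
  have h5 : T * Real.log R ≤ Y := by
    by_contra hcon
    push Not at hcon
    have hY0 : (0 : ℝ) ≤ Y := by positivity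
    have h6 : (Y : ℝ) ^ m ≤ (T * Real.log R) ^ m := pow_le_pow_left₀ hY0 hcon.le m
    have h7 : (R : ℝ) < 2 ^ m * (D * Y ^ m) := by exact_mod_cast hRY
    have h8 : (2 : ℝ) ^ m * (D * Y ^ m) ≤ 2 ^ m * (D * (T * Real.log R) ^ m) := by gcongr
    rw [mul_pow] at h8
    have h9 : (2 : ℝ) ^ m * (D * (T ^ m * Real.log R ^ m)) = (2 ^ m * (D * T ^ m)) * Real.log R ^ m := by ring
    linarith
  have hY1 : (1 : ℝ) ≤ Y := by exact_mod_cast hY
  have h10 : (Y : ℝ) ≤ (Y : ℝ) ^ n := le_self_pow₀ hY1 (by omega)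
  have h11 : T * Real.log R ≤ (Y : ℝ) ^ n := h5.trans h10
  have h12 : δ * (T * Real.log R) ≤ δ * (Y : ℝ) ^ n := by gcongr
  have h13 : δ * (T * Real.log R) = 100 * 4 ^ n * Real.log R := by
    rw [hT]; field_simp
  linarith

/-- A dyadic scale. -/
theorem exists_I2 (x : ℝ) (hx : 1 ≤ x) (I : ℕ) (hI : (2 : ℝ) ^ I ≤ x) : ∃ I2 : ℕ, I ≤ I2 ∧ x ≤ 2 ^ I2 ∧ (2 : ℝ) ^ I2 ≤ 2 * x := by
  obtain ⟨k, hk1, hk2⟩ := exists_nat_pow_near hx (by norm_num : (1 : ℝ) < 2)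
  refine ⟨k + 1, ?_, hk2.le, ?_⟩
  · by_contra hcon
    push Not at hcon
    have h1 : (2 : ℝ) ^ (k + 1) ≤ 2 ^ I := pow_le_pow_right₀ (by norm_num) hcon.le
    linarith
  · rw [pow_succ]
    linarith

end Pool.Agent.SZ.Asm
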