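import Pool.Agent.Lib.SZ.B4
import Pool.Agent.Lib.SZ.B5

/-!
# SZ, assembly of Theorem B: `thmB : Weyl F m → Energy F b0 → ThmB F b0 c m` for `c ≠ 0`, `1 ≤ m`.
-/

namespace Pool.Agent.SZ.Asm

open NumberField Finset

variable {F : Type*} [Field F] [NumberField F]

/-- The coordinate bound of `c (W^j X)^m`. -/
def Useq (W m C1 G j : ℕ) : ℕ := (W ^ j) ^ m * (C1 ^ m * G)

/-- The widths of the nested aligned sets. -/
def Lseq (W m K I n C1 G : ℕ) : ℕ → ℕ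
  | 0 => 1
  | j + 1 => W ^ m * (2 ^ m * (K * 2 ^ (K * I)) * (Useq W m C1 G j + 10 * n * C1 ^ m * Lseq W m K I n C1 G j + 1)
      + Lseq W m K I n C1 G j)

/-- The denominators: `Y_j ^ m ~ R / D_j`. -/
def Dseq (W m K I n C1 G j : ℕ) : ℕ := Useq W m C1 G j + 10 * n * C1 ^ m * Lseq W m K I n C1 G j + 1

theorem Lseq_succ (W m K I n C1 G j : ℕ) : Lseq W m K I n C1 G (j + 1) =
    W ^ m * (2 ^ m * (K * 2 ^ (K * I)) * Dseq W m K I n C1 G j + Lseq W m K I n C1 G j) := rfl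

theorem tw_zero (g : 𝓞 F) : tw g (0 : T F) = 0 := by
  ext x
  simp [tw]

theorem tw_nsmul (g : 𝓞 F) (q : ℕ) (τ : T F) : tw g (q • τ) = q • tw g τ := by
  ext x
  simp [tw]

theorem zero_mem_grid {P : ℕ} (hP : 0 < P) : (0 : T F) ∈ grid F P := by
  classical
  unfold grid
  rw [Finset.mem_image]
  refine ⟨fun _ => 0, ?_, ?_⟩
  · rw [Fintype.mem_piFinset]
    intro i
    rw [Finset.mem_range]
    exact hP
  · apply T_ext
    intro i
    rw [chr_bas]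
    simp

theorem tw_succ (c : 𝓞 F) (W m j : ℕ) (ψ : T F) :
    tw (c * ((W ^ (j + 1) : ℕ) : 𝓞 F) ^ m) ψ = (W ^ m) • tw (c * ((W ^ j : ℕ) : 𝓞 F) ^ m) ψ := by
  rw [← tw_natCast, ← tw_mul]
  congr 1
  push_cast
  ring

theorem InB_natCast_mul (q : ℕ) {a : ℕ} {x : 𝓞 F} (hx : InB a x) : InB (q * a) ((q : 𝓞 F) * x) := by
  intro i
  have h1 : ((q : 𝓞 F) * x) = q • x := by rw [nsmul_eq_mul]
  rw [h1, map_nsmul, Finsupp.smul_apply, nsmul_eq_mul, abs_mul, Nat.abs_cast]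
  push_cast
  exact mul_le_mul_of_nonneg_left (hx i) (by positivity)

theorem thmB (b0 c : 𝓞 F) (hc : c ≠ 0) (m : ℕ) (hm : 1 ≤ m) (hW : Weyl F m) (hE : Energy F b0) :
    ThmB F b0 c m := by
  classical
  intro δ hδ
  obtain ⟨K, hK1, hWeyl⟩ := hW
  obtain ⟨C, k, z0, hC, hEn⟩ := hE
  obtain ⟨C1, hC1pos, hC1⟩ := exists_C1 F
  obtain ⟨G, hG1, hG⟩ := exists_InB c
  obtain ⟨Nc, hNcdef⟩ : ∃ Nc : ℕ, Nc = Ideal.absNorm (Ideal.span {c}) := ⟨_, rfl⟩
  have hNc : 1 ≤ Nc := by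
    rw [hNcdef, Nat.one_le_iff_ne_zero, Ne, Ideal.absNorm_eq_zero_iff, Ideal.span_singleton_eq_bot]
    exact hc
  obtain ⟨c', hcc⟩ : ∃ c' : 𝓞 F, c * c' = (Nc : 𝓞 F) := by
    have h := Ideal.absNorm_mem (Ideal.span {c})
    rw [Ideal.mem_span_singleton, ← hNcdef] at h
    obtain ⟨c', h⟩ := h
    exact ⟨c', h.symm⟩
  obtain ⟨G', hG'1, hG'⟩ := exists_InB c'
  have hδ100 : 0 < δ / 100 := by positivity
  obtain ⟨I0, hI0⟩ := tail_small K k hK1 C (δ / 100) hC hδ100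
  obtain ⟨I, hII0, hIz0, hINc⟩ : ∃ I : ℕ, I0 ≤ I ∧ z0 ≤ I ∧ Nc ≤ I := ⟨I0 + z0 + Nc, by omega, by omega, by omega⟩
  obtain ⟨w, hw⟩ : ∃ w : ℕ, w = K * 2 ^ (K * I) := ⟨_, rfl⟩
  have hIw : I ≤ w := by
    rw [hw]
    calc I ≤ 2 ^ I := Nat.lt_two_pow_self.le
      _ ≤ 2 ^ (K * I) := Nat.pow_le_pow_right (by norm_num) (Nat.le_mul_of_pos_left _ (by omega))
      _ ≤ K * 2 ^ (K * I) := Nat.le_mul_of_pos_left _ (by omega)
  obtain ⟨W, hWdef⟩ : ∃ W : ℕ, W = w.factorial := ⟨_, rfl⟩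
  have hW1 : 1 ≤ W := by
    rw [hWdef]
    exact Nat.factorial_pos _
  set n := dg F with hn
  have hnpos : 1 ≤ n := dg_pos F
  set L := Lseq W m K I n C1 G with hL
  set D := Dseq W m K I n C1 G with hD
  set U := Useq W m C1 G with hU
  have hDeq : ∀ j, D j = U j + 10 * n * C1 ^ m * L j + 1 := fun j => rfl
  have hLsucc : ∀ j, L (j + 1) = W ^ m * (2 ^ m * (K * 2 ^ (K * I)) * D j + L j) := fun j => rfl
  have hD1 : ∀ j, 1 ≤ D j := fun j => by rw [hDeq]; omega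
  set Ew : ℝ := C * (Real.log w) ^ k with hEw
  have hlogw : 0 ≤ Real.log (w : ℝ) := Real.log_natCast_nonneg w
  have hEw0 : 0 ≤ Ew := by positivity
  obtain ⟨J, hJ⟩ : ∃ J : ℕ, Ew < J * (δ / 100) := by
    obtain ⟨J, hJ⟩ := exists_nat_gt (Ew / (δ / 100))
    exact ⟨J, by rwa [div_lt_iff₀ hδ100] at hJ⟩
  set κ : ℕ := 2 * K + 1 with hκ
  obtain ⟨RE, hRE⟩ := hEn κ
  set Big : ℝ := ∑ j ∈ Finset.range (J + 1), ((K * 2 ^ K : ℝ) * (Nc * (W ^ j) ^ m)
      + n * (C1 * G') * ((K * 2 ^ K : ℝ) * 2 ^ m * D j + L j)) + K * 2 ^ K + w + 2 ^ I + 100 * 4 ^ n / δ + 1 with hBig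
  -- eventual conditions
  have hev : ∀ᶠ R : ℕ in Filter.atTop, RE ≤ R ∧ 1 ≤ R ∧ Big ≤ Real.log R ∧ (∀ j ∈ Finset.range J, D j ≤ R) ∧
      (∀ j ∈ Finset.range J, ∀ Y : ℕ, 1 ≤ Y → R < 2 ^ m * (D j * Y ^ m) →
        100 * 4 ^ n * Real.log R ≤ δ * (Y : ℝ) ^ n) := by
    refine (Filter.eventually_ge_atTop RE).and ((Filter.eventually_ge_atTop 1).and ((ev_big Big).and (Filter.Eventually.and ?_ ?_)))
    · exact (Finset.eventually_all (Finset.range J)).2 fun j _ => Filter.eventually_ge_atTop (D j)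
    · exact (Finset.eventually_all (Finset.range J)).2 fun j _ => ev_Y m (D j) n hm (hD1 j) hnpos δ hδ
  obtain ⟨R0, hR0⟩ := Filter.eventually_atTop.1 hev
  refine ⟨R0, ?_⟩
  intro R hR A hAbox hRough hcard
  obtain ⟨hRE', hR1, hBigR, hDR, hYR⟩ := hR0 R hR
  by_contra hno
  push Not at hno
  have hRpos : (0 : ℝ) < R := by exact_mod_cast hR1
  -- consequences of Big
  have hterm : ∀ j ≤ J, (K * 2 ^ K : ℝ) * (Nc * (W ^ j) ^ m)
      + n * (C1 * G') * ((K * 2 ^ K : ℝ) * 2 ^ m * D j + L j) ≤ Real.log R ∧ (K * 2 ^ K : ℝ) + w + 2 ^ I + 100 * 4 ^ n / δ + 1 ≤ Real.log R := by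
    intro j hj
    have h1 := Finset.single_le_sum (s := Finset.range (J + 1)) (f := fun j => ((K * 2 ^ K : ℝ) * (Nc * (W ^ j) ^ m)
      + n * (C1 * G') * ((K * 2 ^ K : ℝ) * 2 ^ m * D j + L j))) (fun j _ => by positivity) (Finset.mem_range.2 (by omega : j < J + 1))
    have h2 : (0 : ℝ) ≤ (K * 2 ^ K : ℝ) + w + 2 ^ I + 100 * 4 ^ n / δ + 1 := by positivity
    have h3 : (0 : ℝ) ≤ (K * 2 ^ K : ℝ) * (Nc * (W ^ j) ^ m)
      + n * (C1 * G') * ((K * 2 ^ K : ℝ) * 2 ^ m * D j + L j) := by positivity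
    constructor <;> linarith
  have hconst := (hterm 0 (Nat.zero_le _)).2
  have hlogK : (K * 2 ^ K : ℝ) ≤ Real.log R := by
    have : (0 : ℝ) ≤ w + 2 ^ I + 100 * 4 ^ n / δ + 1 := by positivity
    linarith
  have hlogw' : (w : ℝ) ≤ Real.log R := by
    have : (0 : ℝ) ≤ (K * 2 ^ K : ℝ) + 2 ^ I + 100 * 4 ^ n / δ + 1 := by positivity
    linarith
  have hlogI : (2 : ℝ) ^ I ≤ Real.log R := by
    have : (0 : ℝ) ≤ (K * 2 ^ K : ℝ) + w + 100 * 4 ^ n / δ + 1 := by positivity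
    linarith
  have hlog4 : 100 * 4 ^ n / δ ≤ Real.log R := by
    have : (0 : ℝ) ≤ (K * 2 ^ K : ℝ) + w + 2 ^ I + 1 := by positivity
    linarith
  have hlog1 : (1 : ℝ) ≤ Real.log R := by
    have : (0 : ℝ) ≤ (K * 2 ^ K : ℝ) + w + 2 ^ I + 100 * 4 ^ n / δ := by positivity
    linarith
  have hlogpos : (0 : ℝ) < Real.log R := by linarith
  set ℓ : ℝ := Real.log R with hℓ
  have hℓκ : ∀ x : ℝ, x ≤ ℓ → x ≤ ℓ ^ κ := fun x hx =>
    hx.trans (le_self_pow₀ hlog1 (by omega))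
  -- |A| > 0 and Λ
  have hApos : (0 : ℝ) < A.card := by
    refine lt_of_lt_of_le ?_ hcard
    positivity
  set Λ : ℝ := (R : ℝ) ^ n * A.card / ℓ with hΛ
  have hΛpos : 0 < Λ := by positivity
  -- the scales
  have hYex : ∀ j : ℕ, ∃ Y : ℕ, j < J → 1 ≤ Y ∧ D j * Y ^ m ≤ R ∧ R < D j * (Y + 1) ^ m ∧ R < 2 ^ m * (D j * Y ^ m) := by
    intro j
    by_cases hj : j < J
    · obtain ⟨Y, hY⟩ := exists_Y m (D j) R hm (hD1 j) (hDR j (Finset.mem_range.2 hj))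
      exact ⟨Y, fun _ => hY⟩
    · exact ⟨0, fun h => absurd h hj⟩
  choose Y hY using hYex
  set g : ℕ → 𝓞 F := fun j => c * ((W ^ j : ℕ) : 𝓞 F) ^ m with hg
  set H := grid F (4 * R) with hH
  set ω : T F → ℝ := fun ψ => ‖FA A ψ‖ ^ 2 with hω
  set s : ℕ → T F → ℂ := fun j ψ => (∑ X ∈ box F (Y j), ev ψ (g j * X ^ m)) / ((Y j : ℂ) ^ n) with hs
  set Aj : ℕ → Finset (T F) := fun j => H.filter fun ψ => nT (tw (g j) ψ) ≤ (L j : ℝ) / R with hAj
  have hYpos : ∀ j < J, (0 : ℝ) < (Y j : ℝ) := fun j hj => by exact_mod_cast (hY j hj).1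
  have hYn : ∀ j < J, (0 : ℝ) < (Y j : ℝ) ^ n := fun j hj => pow_pos (hYpos j hj) n
  have hnorms : ∀ j < J, ∀ ψ : T F, ‖s j ψ‖ * (Y j : ℝ) ^ n = ‖∑ x ∈ box F (Y j), ev (tw (g j) ψ) (x ^ m)‖ := by
    intro j hj ψ
    simp only [hs]
    rw [norm_div, norm_pow, Complex.norm_natCast, div_mul_cancel₀ _ (hYn j hj).ne']
    rfl
  -- coordinates of c (W^j X)^m
  have hcoord : ∀ j < J, ∀ X ∈ box F (Y j), InB R (g j * X ^ m) := by
    intro j hj X hX
    have h1 := InB_of_box hX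
    obtain ⟨m', rfl⟩ : ∃ m', m = m' + 1 := ⟨m - 1, by omega⟩
    have h2 := InB_pow hC1 (InB_natCast_mul (W ^ j) h1) m'
    have h3 := hC1 _ _ _ _ hG h2
    have h4 : g j * X ^ (m' + 1) = c * (((W ^ j : ℕ) : 𝓞 F) * X) ^ (m' + 1) := by
      simp only [hg]
      rw [mul_pow]; ring
    rw [h4]
    refine h3.mono ?_
    calc C1 * G * (C1 ^ m' * (W ^ j * Y j) ^ (m' + 1)) = U j * Y j ^ (m' + 1) := by
          simp only [hU, Useq]; rw [mul_pow]; ring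
      _ ≤ D j * Y j ^ (m' + 1) := by
          apply Nat.mul_le_mul_right
          rw [hDeq]; omega
      _ ≤ R := (hY j hj).2.1
  -- Weyl
  have hweyl : ∀ j < J, ∀ (i : ℕ) (ψ : T F), (1 / 2 : ℝ) ^ i ≤ ‖s j ψ‖ →
      ∃ q : ℕ, 1 ≤ q ∧ q ≤ K * 2 ^ (K * i) ∧ nT (q • tw (g j) ψ) ≤ ((K * 2 ^ (K * i) : ℕ) : ℝ) * (2 ^ m * D j) / R := by
    intro j hj i ψ hψ
    have hpos : (0 : ℝ) < (1 / 2 : ℝ) ^ i := by positivity
    have hle : (1 / 2 : ℝ) ^ i ≤ 1 := pow_le_one₀ (by norm_num) (by norm_num)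
    obtain ⟨q, hq1, hq2, hq3⟩ := hWeyl (Y j) (hY j hj).1 (tw (g j) ψ) ((1 / 2 : ℝ) ^ i) hpos hle (by
      rw [← hnorms j hj ψ]
      exact mul_le_mul_of_nonneg_right hψ (hYn j hj).le)
    have h1 : (K : ℝ) * (1 / (1 / 2 : ℝ) ^ i) ^ K = ((K * 2 ^ (K * i) : ℕ) : ℝ) := by
      push_cast
      rw [one_div, ← inv_pow, one_div, inv_inv, ← pow_mul, mul_comm i K]
    rw [h1] at hq2 hq3
    refine ⟨q, hq1, by exact_mod_cast hq2, hq3.trans ?_⟩
    rw [div_le_div_iff₀ (pow_pos (hYpos j hj) m) hRpos, mul_assoc]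
    apply mul_le_mul_of_nonneg_left _ (by positivity)
    have h2 : (R : ℝ) < 2 ^ m * (D j * Y j ^ m) := by exact_mod_cast (hY j hj).2.2.2
    linarith
  -- primes of Nc W^j
  have hprime : ∀ (j : ℕ) (z : ℕ), w ≤ z → ∀ q : ℕ, 1 ≤ q → q ≤ z → ∀ p : ℕ, p.Prime → p ∣ q * (Nc * (W ^ j) ^ m) → p ≤ z := by
    intro j z hwz q hq1 hqz p hp hdvd
    rcases hp.dvd_mul.1 hdvd with h | h
    · exact (Nat.le_of_dvd (by omega) h).trans hqz
    · rcases hp.dvd_mul.1 h with h | h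
      · exact (Nat.le_of_dvd (by omega) h).trans (by omega)
      · have h1 := hp.dvd_of_dvd_pow (hp.dvd_of_dvd_pow h)
        rw [hWdef, hp.dvd_factorial] at h1
        omega
  -- energies of the aligned sets
  have hEA : ∀ j ≤ J, ∑ ψ ∈ Aj j, ω ψ ≤ Ew * Λ := by
    intro j hj
    have ht := (hterm j hj).1
    refine hRE R hRE' A hAbox hRough w (by omega) (hℓκ _ hlogw') (Aj j) (Finset.filter_subset _ _) ?_
    intro ψ hψ
    rw [Finset.mem_filter] at hψ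
    obtain ⟨ψ0, h0, h1⟩ := arc hC1 c c' Nc W m j 1 G' hcc hG' hNc hW1 le_rfl ψ
    refine ⟨ψ0, 1 * (Nc * (W ^ j) ^ m), ?_, ?_, ?_, h0, h1.trans ?_⟩
    · have : 0 < 1 * (Nc * (W ^ j) ^ m) := by positivity
      omega
    · apply hℓκ
      push_cast
      have h2 : (1 : ℝ) ≤ K * 2 ^ K := by
        have hK' : (1 : ℝ) ≤ K := by exact_mod_cast hK1
        have h2' : (1 : ℝ) ≤ 2 ^ K := one_le_pow₀ (by norm_num)
        nlinarith
      have h3 : (0 : ℝ) ≤ (Nc : ℝ) * ((W : ℝ) ^ j) ^ m := by positivity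
      have h4 : (0 : ℝ) ≤ n * (C1 * G') * ((K * 2 ^ K : ℝ) * 2 ^ m * D j + L j) := by positivity
      nlinarith
    · exact hprime j w le_rfl 1 le_rfl (by omega)
    · rw [one_nsmul]
      have h5 : (n : ℝ) * (C1 * G') * nT (tw (g j) ψ) ≤ n * (C1 * G') * (L j / R) :=
        mul_le_mul_of_nonneg_left hψ.2 (by positivity)
      refine h5.trans ?_
      rw [← mul_div_assoc]
      apply div_le_div_of_nonneg_right _ hRpos.le
      apply hℓκ
      have h6 : (0 : ℝ) ≤ (K * 2 ^ K : ℝ) * (Nc * (W ^ j) ^ m) := by positivity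
      have h7 : (0 : ℝ) ≤ (n : ℝ) * (C1 * G') * ((K * 2 ^ K : ℝ) * 2 ^ m * D j) := by positivity
      nlinarith
  -- the scale I2
  obtain ⟨I2, hI2, hI2a, hI2b⟩ := exists_I2 (ℓ ^ 2) (one_le_pow₀ hlog1) I (by
    refine hlogI.trans ?_
    exact le_self_pow₀ hlog1 (by norm_num))
  -- energies of the level sets
  have hEM : ∀ j < J, ∀ i, I ≤ i → i < I2 →
      ∑ ψ ∈ H with (1 / 2 : ℝ) ^ (i + 1) ≤ ‖s j ψ‖, ω ψ ≤ C * (Real.log ((K * 2 ^ (K * (i + 1)) : ℕ) : ℝ)) ^ k * Λ := by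
    intro j hj i hIi hiI2
    have ht := (hterm j hj.le).1
    have hwz : w ≤ K * 2 ^ (K * (i + 1)) := by
      rw [hw]
      apply Nat.mul_le_mul_left
      apply Nat.pow_le_pow_right (by norm_num)
      apply Nat.mul_le_mul_left
      omega
    have hz : ((K * 2 ^ (K * (i + 1)) : ℕ) : ℝ) ≤ (K * 2 ^ K : ℝ) * ℓ ^ (2 * K) := by
      push_cast
      rw [mul_assoc]
      apply mul_le_mul_of_nonneg_left _ (by positivity)
      rw [mul_comm K (i + 1), pow_mul, pow_mul, ← mul_pow]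
      apply pow_le_pow_left₀ (by positivity)
      refine le_trans ?_ hI2b
      exact pow_le_pow_right₀ (by norm_num) (by omega)
    have hκz : ∀ x : ℝ, 0 ≤ x → x ≤ ℓ → x * ℓ ^ (2 * K) ≤ ℓ ^ κ := by
      intro x _ hx
      rw [hκ, pow_succ, mul_comm]
      exact mul_le_mul_of_nonneg_left hx (by positivity)
    refine hRE R hRE' A hAbox hRough (K * 2 ^ (K * (i + 1))) (by omega) (hz.trans (hκz _ (by positivity) hlogK)) _
      (Finset.filter_subset _ _) ?_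
    intro ψ hψ
    rw [Finset.mem_filter] at hψ
    obtain ⟨q, hq1, hq2, hq3⟩ := hweyl j hj (i + 1) ψ hψ.2
    obtain ⟨ψ0, h0, h1⟩ := arc hC1 c c' Nc W m j q G' hcc hG' hNc hW1 hq1 ψ
    have hq2' : (q : ℝ) ≤ ((K * 2 ^ (K * (i + 1)) : ℕ) : ℝ) := by exact_mod_cast hq2
    refine ⟨ψ0, q * (Nc * (W ^ j) ^ m), ?_, ?_, ?_, h0, h1.trans ?_⟩
    · have : 0 < q * (Nc * (W ^ j) ^ m) := by positivity
      omega
    · push_cast
      have h3 : (0 : ℝ) ≤ (Nc : ℝ) * ((W : ℝ) ^ j) ^ m := by positivity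
      calc (q : ℝ) * ((Nc : ℝ) * ((W : ℝ) ^ j) ^ m) ≤ ((K * 2 ^ K : ℝ) * ℓ ^ (2 * K)) * ((Nc : ℝ) * ((W : ℝ) ^ j) ^ m) :=
            mul_le_mul_of_nonneg_right (hq2'.trans hz) h3
        _ = ((K * 2 ^ K : ℝ) * ((Nc : ℝ) * ((W : ℝ) ^ j) ^ m)) * ℓ ^ (2 * K) := by ring
        _ ≤ ℓ ^ κ := by
            apply hκz _ (by positivity)
            have h4 : (0 : ℝ) ≤ n * (C1 * G') * ((K * 2 ^ K : ℝ) * 2 ^ m * D j + L j) := by positivity
            linarith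
    · exact hprime j _ hwz q hq1 hq2
    · have h5 : (n : ℝ) * (C1 * G') * nT (q • tw (g j) ψ)
          ≤ n * (C1 * G') * (((K * 2 ^ (K * (i + 1)) : ℕ) : ℝ) * (2 ^ m * D j) / R) :=
        mul_le_mul_of_nonneg_left hq3 (by positivity)
      refine h5.trans ?_
      rw [← mul_div_assoc]
      apply div_le_div_of_nonneg_right _ hRpos.le
      calc (n : ℝ) * (C1 * G') * (((K * 2 ^ (K * (i + 1)) : ℕ) : ℝ) * (2 ^ m * D j))
          ≤ (n : ℝ) * (C1 * G') * (((K * 2 ^ K : ℝ) * ℓ ^ (2 * K)) * (2 ^ m * D j)) := by gcongr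
        _ = ((n : ℝ) * (C1 * G') * ((K * 2 ^ K : ℝ) * 2 ^ m * D j)) * ℓ ^ (2 * K) := by ring
        _ ≤ ℓ ^ κ := by
            apply hκz _ (by positivity)
            have h6 : (0 : ℝ) ≤ (K * 2 ^ K : ℝ) * (Nc * (W ^ j) ^ m) := by positivity
            have h7 : (0 : ℝ) ≤ (n : ℝ) * (C1 * G') * (L j : ℝ) := by positivity
            linarith
  -- smallness of coordinates
  have hsmall : ∀ j < J, ∀ a ∈ A, ∀ a' ∈ A, ∀ X ∈ box F (Y j), ∀ i,
      |(bas F).repr (a - a' + g j * X ^ m) i| < ((4 * R : ℕ) : ℤ) := by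
    intro j hj a ha a' ha' X hX i
    have h1 := (((hAbox a ha).sub (hAbox a' ha')).add (hcoord j hj X hX)) i
    refine lt_of_le_of_lt h1 ?_
    exact_mod_cast (by omega : R + R + R < 4 * R)
  refine core H ω (fun _ _ => by positivity) s Aj Λ δ Ew J I I2
    (fun i => C * (Real.log ((K * 2 ^ (K * (i + 1)) : ℕ) : ℝ)) ^ k) 0 hΛpos hδ hI2 hJ hEw0 ?_ ?_ (hEA J le_rfl) ?_ ?_ ?_
    hEM (hI0 I hII0 I2) ?_ ?_ ?_ ?_
  · -- nested
    intro j hj ψ hψ
    rw [Finset.mem_filter] at hψ ⊢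
    refine ⟨hψ.1, ?_⟩
    simp only [hg]
    rw [tw_succ]
    refine (nT_nsmul _ _).trans ?_
    rw [hLsucc]
    calc ((W ^ m : ℕ) : ℝ) * nT (tw (c * ((W ^ j : ℕ) : 𝓞 F) ^ m) ψ) ≤ ((W ^ m : ℕ) : ℝ) * (L j / R) :=
          mul_le_mul_of_nonneg_left hψ.2 (by positivity)
      _ = ((W ^ m : ℕ) : ℝ) * L j / R := by ring
      _ ≤ _ := by
          apply div_le_div_of_nonneg_right _ hRpos.le
          push_cast
          apply mul_le_mul_of_nonneg_left _ (by positivity)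
          have : (0 : ℝ) ≤ 2 ^ m * (K * 2 ^ (K * I)) * D j := by positivity
          linarith
  · intro j _
    exact Finset.filter_subset _ _
  · -- positivity
    intro j hj ψ hψ
    rw [Finset.mem_filter] at hψ
    have h1 : ∀ X ∈ box F (Y j), (1 : ℝ) / 2 ≤ (ev ψ (g j * X ^ m)).re := by
      intro X hX
      apply re_ev_ge
      have h2 := InB_of_box hX
      obtain ⟨m', rfl⟩ : ∃ m', m = m' + 1 := ⟨m - 1, by omega⟩
      have h3 := norm_apply_le (tw (g j) ψ) (InB_pow hC1 h2 m')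
      have h4 : tw (g j) ψ (X ^ (m' + 1)) = ψ (g j * X ^ (m' + 1)) := rfl
      rw [h4] at h3
      refine h3.trans ?_
      have h5 : ((10 * n * C1 ^ (m' + 1) * L j * Y j ^ (m' + 1) : ℕ) : ℝ) ≤ R := by
        have : 10 * n * C1 ^ (m' + 1) * L j * Y j ^ (m' + 1) ≤ D j * Y j ^ (m' + 1) := by
          apply Nat.mul_le_mul_right
          rw [hDeq]; omega
        exact_mod_cast this.trans (hY j hj).2.1
      have h6 : C1 ^ m' ≤ C1 ^ (m' + 1) := Nat.pow_le_pow_right hC1pos (by omega)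
      have h6' : ((C1 : ℝ)) ^ m' ≤ (C1 : ℝ) ^ (m' + 1) := by exact_mod_cast h6
      push_cast at h5 ⊢
      calc (n : ℝ) * ((C1 : ℝ) ^ m' * (Y j : ℝ) ^ (m' + 1)) * nT (tw (g j) ψ)
          ≤ (n : ℝ) * ((C1 : ℝ) ^ (m' + 1) * (Y j : ℝ) ^ (m' + 1)) * (L j / R) := by
            refine mul_le_mul ?_ hψ.2 (nT_nonneg _) (by positivity)
            gcongr
        _ = (10 * n * (C1 : ℝ) ^ (m' + 1) * L j * (Y j : ℝ) ^ (m' + 1)) / R * (1 / 10) := by ring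
        _ ≤ 1 * (1 / 10) := by
            apply mul_le_mul_of_nonneg_right _ (by norm_num)
            rw [div_le_one hRpos]
            exact h5
        _ = 1 / 10 := one_mul _
    simp only [hs]
    have h7 : ((∑ X ∈ box F (Y j), ev ψ (g j * X ^ m)) / ((Y j : ℂ) ^ n)).re
        = (∑ X ∈ box F (Y j), (ev ψ (g j * X ^ m)).re) / (Y j : ℝ) ^ n := by
      have h8 : ((Y j : ℂ) ^ n) = (((Y j : ℝ) ^ n : ℝ) : ℂ) := by push_cast; ring
      rw [h8, Complex.div_ofReal_re, Complex.re_sum]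
    rw [h7, le_div_iff₀ (hYn j hj)]
    calc (1 : ℝ) / 2 * (Y j : ℝ) ^ n = ∑ X ∈ box F (Y j), (1 / 2 : ℝ) := by
          rw [Finset.sum_const, card_box, nsmul_eq_mul]; push_cast; ring
      _ ≤ _ := Finset.sum_le_sum h1
  · -- large values are aligned
    intro j hj ψ hψH hψ
    rw [Finset.mem_filter]
    refine ⟨hψH, ?_⟩
    obtain ⟨q, hq1, hq2, hq3⟩ := hweyl j hj I ψ hψ
    have hqW : q ∣ W ^ m := by
      have h1 : q ∣ W := by
        rw [hWdef]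
        exact Nat.dvd_factorial (by omega) (by rw [hw]; exact hq2)
      exact h1.trans (dvd_pow_self W (by omega))
    obtain ⟨t, ht⟩ := hqW
    simp only [hg]
    rw [tw_succ, ht, mul_comm q t, mul_nsmul', hLsucc]
    refine (nT_nsmul _ _).trans ?_
    have ht' : (t : ℝ) ≤ (W : ℝ) ^ m := by
      have : t ≤ W ^ m := by rw [ht]; exact Nat.le_mul_of_pos_left _ (by omega)
      exact_mod_cast this
    calc (t : ℝ) * nT (q • tw (c * ((W ^ j : ℕ) : 𝓞 F) ^ m) ψ)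
        ≤ (W : ℝ) ^ m * (((K * 2 ^ (K * I) : ℕ) : ℝ) * (2 ^ m * D j) / R) :=
          mul_le_mul ht' hq3 (nT_nonneg _) (by positivity)
      _ = ((W : ℝ) ^ m * (2 ^ m * ((K * 2 ^ (K * I) : ℕ) : ℝ) * D j)) / R := by ring
      _ ≤ _ := by
          apply div_le_div_of_nonneg_right _ hRpos.le
          push_cast
          apply mul_le_mul_of_nonneg_left _ (by positivity)
          have : (0 : ℝ) ≤ L j := by positivity
          linarith
  · -- trivial bound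
    intro j hj ψ _
    have h1 : ‖s j ψ‖ * (Y j : ℝ) ^ n ≤ 1 * (Y j : ℝ) ^ n := by
      rw [hnorms j hj ψ, one_mul]
      refine (norm_sum_le _ _).trans ?_
      rw [Finset.sum_congr rfl fun x _ => ev_norm _ _, Finset.sum_const, card_box, nsmul_eq_mul, mul_one]
      push_cast
      exact le_rfl
    exact le_of_mul_le_mul_right h1 (hYn j hj)
  · -- total energy times (1/2)^I2
    have hpars := parseval A (4 * R) (by omega) (by
      intro a ha a' ha' i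
      refine lt_of_le_of_lt (((hAbox a ha).sub (hAbox a' ha')) i) ?_
      exact_mod_cast (by omega : R + R < 4 * R))
    have h1 : ∑ ψ ∈ H, ω ψ = ((4 * R : ℕ) : ℝ) ^ n * A.card := hpars
    rw [h1]
    push_cast
    rw [mul_pow]
    have h2 : (1 / 2 : ℝ) ^ I2 ≤ 1 / ℓ ^ 2 := by
      rw [one_div_pow]
      exact one_div_le_one_div_of_le (by positivity) hI2a
    calc (1 / 2 : ℝ) ^ I2 * (4 ^ n * (R : ℝ) ^ n * A.card) ≤ 1 / ℓ ^ 2 * (4 ^ n * (R : ℝ) ^ n * A.card) :=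
          mul_le_mul_of_nonneg_right h2 (by positivity)
      _ = (4 ^ n / ℓ) * Λ := by
          rw [hΛ]; field_simp
      _ ≤ δ / 100 * Λ := by
          apply mul_le_mul_of_nonneg_right _ hΛpos.le
          rw [div_le_iff₀ hlogpos]
          rw [div_le_iff₀ hδ] at hlog4
          linarith
  · rw [Finset.mem_filter]
    refine ⟨zero_mem_grid (by omega), ?_⟩
    rw [tw_zero, nT_zero]
    positivity
  · -- the value at zero
    have h1 : ω 0 = (A.card : ℝ) ^ 2 := by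
      simp only [hω, FA]
      rw [Finset.sum_congr rfl fun x _ => ev_zero_char x, Finset.sum_const, nsmul_eq_mul, mul_one, Complex.norm_natCast]
    rw [h1, hΛ]
    have h2 : δ * (R : ℝ) ^ n ≤ A.card * ℓ := by
      rwa [div_le_iff₀ hlogpos] at hcard
    calc δ * ((R : ℝ) ^ n * A.card / ℓ) = (δ * (R : ℝ) ^ n) * (A.card / ℓ) := by ring
      _ ≤ (A.card * ℓ) * (A.card / ℓ) := mul_le_mul_of_nonneg_right h2 (by positivity)
      _ = (A.card : ℝ) ^ 2 := by field_simp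
  · -- the counting identity
    intro j hj
    have hid := sum_ident A (g j) m (Y j) (4 * R) (by omega) (hY j hj).1 (by omega) (hsmall j hj) (by
      intro a ha a' ha' X hX heq
      by_contra hX0
      refine hno a ha a' ha' (((W ^ j : ℕ) : 𝓞 F) * X) ?_ ?_
      · apply mul_ne_zero _ hX0
        have : (W ^ j : ℕ) ≠ 0 := by positivity
        exact_mod_cast this
      · rw [heq]
        simp only [hg]
        rw [mul_pow]; ring)
    have h1 : ∑ ψ ∈ H, (ω ψ : ℂ) * s j ψ = (((4 * R : ℕ) : ℝ) ^ n * A.card / (Y j : ℝ) ^ n : ℝ) := by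
      have h2 : ∑ ψ ∈ H, (ω ψ : ℂ) * s j ψ
          = (∑ ψ ∈ H, ((‖FA A ψ‖ ^ 2 : ℝ) : ℂ) * ∑ X ∈ box F (Y j), ev ψ (g j * X ^ m)) / (Y j : ℂ) ^ n := by
        rw [Finset.sum_div]
        refine Finset.sum_congr rfl fun ψ _ => ?_
        simp only [hs, hω]
        rw [mul_div_assoc]
      rw [h2, hid]
      push_cast
      rfl
    rw [h1, Complex.ofReal_re]
    have h3 := hYR j (Finset.mem_range.2 hj) (Y j) (hY j hj).1 (hY j hj).2.2.2
    rw [div_le_iff₀ (hYn j hj)]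
    push_cast
    rw [mul_pow]
    have h4 : δ / 100 * Λ * (Y j : ℝ) ^ n = (δ * (Y j : ℝ) ^ n) * ((R : ℝ) ^ n * A.card / ℓ / 100) := by
      rw [hΛ]; ring
    rw [h4]
    calc (4 : ℝ) ^ n * (R : ℝ) ^ n * A.card = (100 * 4 ^ n * ℓ) * ((R : ℝ) ^ n * A.card / ℓ / 100) := by
          field_simp
      _ ≤ _ := mul_le_mul_of_nonneg_right h3 (by positivity)

end Pool.Agent.SZ.Asm
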