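import Mathlib

/-!
# Module SZ of S14399 (Saerkoezy theorem for rough elements of a number field): common definitions.

`T F` is the group of characters of `𝓞 F` with values in the circle `ℝ / ℤ` (written additively), `nT` is the size of a
character on the integral basis, `ev τ x = exp (2 π i τ x)`, `box F Y` the box `0 ≤ x_i < Y`, `grid F P` the `P ^ n`
characters of `𝓞 F / P`, `FA A τ = ∑ a ∈ A, ev τ a`.  `Weyl`, `Energy` and `ThmB` are the three statements of the module.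
-/

namespace Pool.Agent.SZ

open NumberField

/-- Index type of the integral basis. -/
abbrev Ix (F : Type*) [Field F] [NumberField F] : Type _ := Module.Free.ChooseBasisIndex ℤ (𝓞 F)

/-- The integral basis. -/
noncomputable abbrev bas (F : Type*) [Field F] [NumberField F] : Module.Basis (Ix F) ℤ (𝓞 F) := RingOfIntegers.basis F

/-- The degree, as the number of basis elements. -/
noncomputable abbrev dg (F : Type*) [Field F] [NumberField F] : ℕ := Fintype.card (Ix F)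

/-- The group of characters of the ring of integers. -/
abbrev T (F : Type*) [Field F] [NumberField F] : Type _ := (𝓞 F) →+ UnitAddCircle

section

variable {F : Type*} [Field F] [NumberField F]

/-- The coordinates of `x` are at most `R` in absolute value. -/
def InB (R : ℕ) (x : 𝓞 F) : Prop := ∀ i, |(bas F).repr x i| ≤ (R : ℤ)

/-- The size of a character on the basis (the largest distance of `τ (b_i)` to `0` in `ℝ / ℤ`). -/
noncomputable def nT (τ : T F) : ℝ := ‖fun i => τ (bas F i)‖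

/-- The twist of a character by a ring element: `(g τ) x = τ (g x)`. -/
noncomputable def tw (g : 𝓞 F) (τ : T F) : T F := τ.comp (AddMonoidHom.mulLeft g)

/-- `exp (2 π i τ x)`. -/
noncomputable def ev (τ : T F) (x : 𝓞 F) : ℂ := (AddCircle.toCircle (τ x) : ℂ)

/-- The character with real coordinates `β`. -/
noncomputable def chr (β : Ix F → ℝ) : T F where
  toFun x := ((∑ i, β i * ((bas F).repr x i : ℝ) : ℝ) : UnitAddCircle)
  map_zero' := by simp
  map_add' x y := by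
    rw [← AddCircle.coe_add, ← Finset.sum_add_distrib]
    congr 1
    refine Finset.sum_congr rfl fun i _ => ?_
    rw [map_add, Finsupp.add_apply]
    push_cast
    ring

open Classical in
/-- The box `0 ≤ x_i < Y`. -/
noncomputable def box (F : Type*) [Field F] [NumberField F] (Y : ℕ) : Finset (𝓞 F) :=
  (Fintype.piFinset fun _ : Ix F => Finset.range Y).image fun v => ∑ i, v i • bas F i

open Classical in
/-- The grid of the `P ^ n` characters `h / P`. -/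
noncomputable def grid (F : Type*) [Field F] [NumberField F] (P : ℕ) : Finset (T F) :=
  (Fintype.piFinset fun _ : Ix F => Finset.range P).image fun h => chr fun i => (h i : ℝ) / (P : ℝ)

/-- The exponential sum of a finite set. -/
noncomputable def FA (A : Finset (𝓞 F)) (τ : T F) : ℂ := ∑ a ∈ A, ev τ a

/-- No element of `A` lies in a prime ideal `𝔮` with `N 𝔮 ^ 4 ≤ R ^ n`, unless `b0 ∈ 𝔮`. -/
def Rough (b0 : 𝓞 F) (R : ℕ) (A : Finset (𝓞 F)) : Prop :=
  ∀ a ∈ A, ∀ 𝔮 : Ideal (𝓞 F), 𝔮.IsPrime → 𝔮 ≠ ⊥ → (Ideal.absNorm 𝔮) ^ 4 ≤ R ^ dg F → b0 ∉ 𝔮 → a ∉ 𝔮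

end

/-- WEYL (helper4): inverse theorem for the monomial `x ^ m` on boxes, with polynomial losses. -/
def Weyl (F : Type*) [Field F] [NumberField F] (m : ℕ) : Prop :=
  ∃ K : ℕ, 1 ≤ K ∧ ∀ (Y : ℕ), 1 ≤ Y → ∀ (χ : T F) (s : ℝ), 0 < s → s ≤ 1 →
    s * (Y : ℝ) ^ dg F ≤ ‖∑ x ∈ box F Y, ev χ (x ^ m)‖ →
    ∃ q : ℕ, 1 ≤ q ∧ (q : ℝ) ≤ K * (1 / s) ^ K ∧ nT (q • χ) ≤ K * (1 / s) ^ K / (Y : ℝ) ^ m

/-- ENERGY (helper95): large sieve and Montgomery for fat arcs around torsion points of smooth order. -/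
def Energy (F : Type*) [Field F] [NumberField F] (b0 : 𝓞 F) : Prop :=
  ∃ (C : ℝ) (k z0 : ℕ), 0 < C ∧ ∀ κ : ℕ, ∃ R0 : ℕ, ∀ R : ℕ, R0 ≤ R → ∀ A : Finset (𝓞 F), (∀ a ∈ A, InB R a) →
    Rough b0 R A → ∀ z : ℕ, z0 ≤ z → (z : ℝ) ≤ (Real.log R) ^ κ → ∀ M ⊆ grid F (4 * R),
    (∀ ψ ∈ M, ∃ ψ0 : T F, ∃ q : ℕ, 1 ≤ q ∧ (q : ℝ) ≤ (Real.log R) ^ κ ∧ (∀ p : ℕ, p.Prime → p ∣ q → p ≤ z) ∧
      q • ψ0 = 0 ∧ nT (ψ - ψ0) ≤ (Real.log R) ^ κ / R) →
    ∑ ψ ∈ M, ‖FA A ψ‖ ^ 2 ≤ C * (Real.log z) ^ k * ((R : ℝ) ^ dg F * A.card / Real.log R)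

/-- THEOREM B: a relative Saerkoezy theorem for rough elements. -/
def ThmB (F : Type*) [Field F] [NumberField F] (b0 c : 𝓞 F) (m : ℕ) : Prop :=
  ∀ δ : ℝ, 0 < δ → ∃ R0 : ℕ, ∀ R : ℕ, R0 ≤ R → ∀ A : Finset (𝓞 F), (∀ a ∈ A, InB R a) → Rough b0 R A →
    δ * (R : ℝ) ^ dg F / Real.log R ≤ A.card → ∃ a1 ∈ A, ∃ a2 ∈ A, ∃ Y : 𝓞 F, Y ≠ 0 ∧ a2 - a1 = c * Y ^ m

end Pool.Agent.SZ
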