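import Pool.Agent.Lib.SZ.Defs

/-!
# Module SZ2 (energy for fat arcs), E00: definitions and elementary lemmas.
-/

namespace Pool.Agent.SZ

open NumberField Finset
open scoped Classical

section

variable {F : Type*} [Field F] [NumberField F]

/-! ## The exponential -/

theorem ev_zero_left (x : 𝓞 F) : ev (0 : T F) x = 1 := by simp [ev]

theorem ev_zero_right (τ : T F) : ev τ 0 = 1 := by simp [ev]

theorem ev_add_left (τ σ : T F) (x : 𝓞 F) : ev (τ + σ) x = ev τ x * ev σ x := by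
  simp [ev, AddCircle.toCircle_add]

theorem ev_add_right (τ : T F) (x y : 𝓞 F) : ev τ (x + y) = ev τ x * ev τ y := by
  simp [ev, AddCircle.toCircle_add]

theorem ev_neg_left (τ : T F) (x : 𝓞 F) : ev (-τ) x = (starRingEnd ℂ) (ev τ x) := by
  unfold ev
  rw [AddMonoidHom.neg_apply, AddCircle.toCircle_neg, Circle.coe_inv_eq_conj]

theorem ev_neg_right (τ : T F) (x : 𝓞 F) : ev τ (-x) = (starRingEnd ℂ) (ev τ x) := by
  unfold ev
  rw [map_neg, AddCircle.toCircle_neg, Circle.coe_inv_eq_conj]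

theorem ev_sub_left (τ σ : T F) (x : 𝓞 F) : ev (τ - σ) x = ev τ x * (starRingEnd ℂ) (ev σ x) := by
  rw [sub_eq_add_neg, ev_add_left, ev_neg_left]

theorem ev_sub_right (τ : T F) (x y : 𝓞 F) : ev τ (x - y) = ev τ x * (starRingEnd ℂ) (ev τ y) := by
  rw [sub_eq_add_neg, ev_add_right, ev_neg_right]

theorem norm_ev (τ : T F) (x : 𝓞 F) : ‖ev τ x‖ = 1 := Circle.norm_coe _

/-- Two characters which agree on the basis are equal. -/
theorem T_ext {τ σ : T F} (h : ∀ i, τ (bas F i) = σ (bas F i)) : τ = σ := by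
  ext x
  rw [← (bas F).sum_repr x, map_sum, map_sum]
  refine Finset.sum_congr rfl fun i _ => ?_
  rw [map_zsmul, map_zsmul, h]

theorem nT_nonneg (τ : T F) : 0 ≤ nT τ := norm_nonneg _

theorem nT_apply_le (τ : T F) (i : Ix F) : ‖τ (bas F i)‖ ≤ nT τ := by
  unfold nT
  exact norm_le_pi_norm (fun i => τ (bas F i)) i

theorem nT_le {τ : T F} {r : ℝ} (hr : 0 ≤ r) (h : ∀ i, ‖τ (bas F i)‖ ≤ r) : nT τ ≤ r :=
  (pi_norm_le_iff_of_nonneg hr).2 h

theorem nT_add_le (τ σ : T F) : nT (τ + σ) ≤ nT τ + nT σ := by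
  refine nT_le (add_nonneg (nT_nonneg _) (nT_nonneg _)) fun i => ?_
  exact (norm_add_le _ _).trans (add_le_add (nT_apply_le _ _) (nT_apply_le _ _))

theorem nT_neg (τ : T F) : nT (-τ) = nT τ := by
  unfold nT
  rw [← norm_neg]
  congr 1
  ext i
  simp

theorem nT_sub_comm (τ σ : T F) : nT (τ - σ) = nT (σ - τ) := by
  rw [← nT_neg, neg_sub]

theorem nT_zero : nT (0 : T F) = 0 := by
  unfold nT
  have : (fun i => (0 : T F) (bas F i)) = 0 := by ext i; simp
  rw [this, norm_zero]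

theorem nT_eq_zero {τ : T F} (h : nT τ = 0) : τ = 0 := by
  refine T_ext fun i => ?_
  have h1 := nT_apply_le τ i
  rw [h] at h1
  have h2 : ‖τ (bas F i)‖ = 0 := le_antisymm h1 (norm_nonneg _)
  rw [norm_eq_zero] at h2
  simp [h2]

theorem dg_pos : 1 ≤ dg F := Fintype.card_pos

/-! ## Annihilators and torsion characters -/

/-- `σ` vanishes on the ideal `𝔞`. -/
def Kills (𝔞 : Ideal (𝓞 F)) (σ : T F) : Prop := ∀ g ∈ 𝔞, σ g = 0

/-- The finite set of the characters vanishing on `𝔞` (empty if there are infinitely many of them). -/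
noncomputable def KF (𝔞 : Ideal (𝓞 F)) : Finset (T F) :=
  if h : {σ : T F | Kills 𝔞 σ}.Finite then h.toFinset else ∅

/-- The annihilator of a character. -/
def annI (σ : T F) : Ideal (𝓞 F) where
  carrier := {g | ∀ x, σ (g * x) = 0}
  zero_mem' := by intro x; simp
  add_mem' := by
    intro a b ha hb x
    rw [add_mul, map_add, ha x, hb x, add_zero]
  smul_mem' := by
    intro c g hg x
    rw [smul_eq_mul, mul_comm c g, mul_assoc]
    exact hg _

theorem mem_annI {σ : T F} {g : 𝓞 F} : g ∈ annI σ ↔ ∀ x, σ (g * x) = 0 := Iff.rfl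

/-- The characters with annihilator exactly `𝔞`. -/
noncomputable def TS (𝔞 : Ideal (𝓞 F)) : Finset (T F) := (KF 𝔞).filter fun σ => annI σ = 𝔞

theorem kills_iff {𝔞 : Ideal (𝓞 F)} {σ : T F} : Kills 𝔞 σ ↔ 𝔞 ≤ annI σ := by
  constructor
  · intro h g hg x
    exact h _ (𝔞.mul_mem_right x hg)
  · intro h g hg
    have := h hg 1
    rwa [mul_one] at this

/-! ## Ideals of bounded norm -/

/-- The nonzero ideals of norm at most `Z`. -/
noncomputable def idl (F : Type*) [Field F] [NumberField F] (Z : ℕ) : Finset (Ideal (𝓞 F)) :=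
  ((Ideal.finite_setOfPred_absNorm_le (S := 𝓞 F) Z).toFinset).filter fun I => I ≠ ⊥

/-- The nonzero prime ideals of norm at most `Z`. -/
noncomputable def prI (F : Type*) [Field F] [NumberField F] (Z : ℕ) : Finset (Ideal (𝓞 F)) :=
  (idl F Z).filter fun I => I.IsPrime

/-- The prime ideals of norm at most `Z` above rational primes `> z`. -/
noncomputable def prL (F : Type*) [Field F] [NumberField F] (z Z : ℕ) : Finset (Ideal (𝓞 F)) :=
  (prI F Z).filter fun I => z < (Ideal.absNorm I).minFac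

/-- The prime ideals of norm at most `Z` above rational primes `≤ z`. -/
noncomputable def prS (F : Type*) [Field F] [NumberField F] (z Z : ℕ) : Finset (Ideal (𝓞 F)) :=
  (prI F Z).filter fun I => ¬ z < (Ideal.absNorm I).minFac

/-- The subsets of `Q` with product of the norms at most `Z`. -/
noncomputable def JJ (Q : Finset (Ideal (𝓞 F))) (Z : ℕ) : Finset (Finset (Ideal (𝓞 F))) :=
  Q.powerset.filter fun J => ∏ p ∈ J, Ideal.absNorm p ≤ Z

/-- `h(J) = ∏ 1 / (N 𝔭 - 1)`. -/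
noncomputable def hJ (J : Finset (Ideal (𝓞 F))) : ℝ := ∏ p ∈ J, 1 / ((Ideal.absNorm p : ℝ) - 1)

theorem mem_idl {Z : ℕ} {I : Ideal (𝓞 F)} : I ∈ idl F Z ↔ I ≠ ⊥ ∧ Ideal.absNorm I ≤ Z := by
  unfold idl
  rw [Finset.mem_filter, Set.Finite.mem_toFinset]
  exact and_comm

theorem mem_prI {Z : ℕ} {I : Ideal (𝓞 F)} : I ∈ prI F Z ↔ I.IsPrime ∧ I ≠ ⊥ ∧ Ideal.absNorm I ≤ Z := by
  unfold prI
  rw [Finset.mem_filter, mem_idl, and_comm]

theorem absNorm_pos {I : Ideal (𝓞 F)} (hI : I ≠ ⊥) : 0 < Ideal.absNorm I := by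
  rw [Nat.pos_iff_ne_zero]
  exact fun h => hI (Ideal.absNorm_eq_zero_iff.mp h)

theorem one_lt_absNorm {I : Ideal (𝓞 F)} (h0 : I ≠ ⊥) (hI : I.IsPrime) : 1 < Ideal.absNorm I := by
  have h1 := absNorm_pos h0
  have h2 : Ideal.absNorm I ≠ 1 := fun h => hI.ne_top (Ideal.absNorm_eq_one_iff.mp h)
  omega

end

/-! ## One variable: cells of the circle -/

/-- The cell (in `0, …, D - 1`) of a point of the circle. -/
noncomputable def cell (D : ℕ) (t : UnitAddCircle) : ℕ := ⌊(D : ℝ) * (AddCircle.equivIco (1 : ℝ) 0 t : ℝ)⌋₊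

/-- `1 / max(k, 1) ^ 2`. -/
noncomputable def hh (k : ℕ) : ℝ := 1 / (max (k : ℝ) 1) ^ 2

/-- `e(t)` for `t` in the circle. -/
noncomputable def ec (t : UnitAddCircle) : ℂ := (AddCircle.toCircle t : ℂ)

end Pool.Agent.SZ
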