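import Pool.Agent.Lib.SZ.E00
import Pool.Agent.Lib.H59C.LSA0

/-!
# Module SZ2 (energy for fat arcs), E01: duality
-/

namespace Pool.Agent.SZ

open NumberField Finset
open scoped Classical

section

variable {F : Type*} [Field F] [NumberField F]

/-- DUALITY. (The same statement is proved in `Pool/Agent/Lib/H59C/LSA0.lean`, theorem `lsa_dual`.) -/
theorem e01_dual {ι κ : Type*} (I : Finset ι) (X : Finset κ) (K : ι → κ → ℂ) (B : ℝ) (hB : 0 ≤ B)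
    (h : ∀ c : ι → ℂ, ∑ x ∈ X, ‖∑ i ∈ I, c i * K i x‖ ^ 2 ≤ B * ∑ i ∈ I, ‖c i‖ ^ 2) (a : κ → ℂ) :
    ∑ i ∈ I, ‖∑ x ∈ X, a x * K i x‖ ^ 2 ≤ B * ∑ x ∈ X, ‖a x‖ ^ 2 :=
  Pool.Agent.Lib.H59C.lsa_dual I X K B hB h a

end

end Pool.Agent.SZ
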