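import Pool.Agent.Lib.SZ.E00

/-!
# Module SZ2 (energy for fat arcs), E02: the quadratic form, Schur bound
-/

namespace Pool.Agent.SZ

open NumberField Finset
open scoped Classical

section

variable {F : Type*} [Field F] [NumberField F]

/-- QUADRATIC FORM. Expand the square,
`‖∑ i, c i * ev (y i) (u - v)‖ ^ 2 = ∑ i, ∑ j, c i * conj (c j) * ev (y i - y j) u * conj (ev (y i - y j) v)`,
sum over `u, v`, and take absolute values: `|∑ u, ∑ v, ev θ u * conj (ev θ v)| = ‖∑ u, ev θ u‖ ^ 2`. -/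
theorem e02_quad {ι : Type*} (I : Finset ι) (y : ι → T F) (c : ι → ℂ) (X : Finset (𝓞 F)) :
    ∑ u ∈ X, ∑ v ∈ X, ‖∑ i ∈ I, c i * ev (y i) (u - v)‖ ^ 2 ≤
      ∑ i ∈ I, ∑ j ∈ I, ‖c i‖ * ‖c j‖ * ‖∑ u ∈ X, ev (y i - y j) u‖ ^ 2 := by
  have h1 : ((∑ u ∈ X, ∑ v ∈ X, ‖∑ i ∈ I, c i * ev (y i) (u - v)‖ ^ 2 : ℝ) : ℂ) =
      ∑ i ∈ I, ∑ j ∈ I, (c i * (starRingEnd ℂ) (c j)) *
        ((∑ u ∈ X, ev (y i - y j) u) * (starRingEnd ℂ) (∑ v ∈ X, ev (y i - y j) v)) := by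
    push_cast
    have h2 : ∀ u v : 𝓞 F, ((‖∑ i ∈ I, c i * ev (y i) (u - v)‖ : ℝ) : ℂ) ^ 2 =
        ∑ i ∈ I, ∑ j ∈ I, (c i * (starRingEnd ℂ) (c j)) *
          (ev (y i - y j) u * (starRingEnd ℂ) (ev (y i - y j) v)) := by
      intro u v
      rw [← Complex.mul_conj', map_sum, Finset.sum_mul_sum]
      refine sum_congr rfl fun i _ => sum_congr rfl fun j _ => ?_
      rw [map_mul, ev_sub_right, ev_sub_right, ev_sub_left, ev_sub_left]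
      simp only [map_mul, Complex.conj_conj]
      ring
    simp_rw [h2, map_sum, Finset.sum_mul_sum, Finset.mul_sum]
    rw [Finset.sum_congr rfl fun u _ => Finset.sum_comm, Finset.sum_comm]
    refine sum_congr rfl fun i _ => ?_
    rw [Finset.sum_congr rfl fun u _ => Finset.sum_comm, Finset.sum_comm]
  have h4 : ‖((∑ u ∈ X, ∑ v ∈ X, ‖∑ i ∈ I, c i * ev (y i) (u - v)‖ ^ 2 : ℝ) : ℂ)‖ =
      ∑ u ∈ X, ∑ v ∈ X, ‖∑ i ∈ I, c i * ev (y i) (u - v)‖ ^ 2 := by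
    rw [Complex.norm_real, Real.norm_eq_abs, abs_of_nonneg]
    positivity
  rw [← h4, h1]
  refine (norm_sum_le _ _).trans (sum_le_sum fun i _ => ?_)
  refine (norm_sum_le _ _).trans (sum_le_sum fun j _ => ?_)
  rw [norm_mul, norm_mul, norm_mul, RCLike.norm_conj, RCLike.norm_conj]
  apply le_of_eq
  ring

/-- SCHUR. `‖c i‖ ‖c j‖ ≤ (‖c i‖ ^ 2 + ‖c j‖ ^ 2) / 2` and symmetry. -/
theorem e02_schur {ι : Type*} (I : Finset ι) (c : ι → ℂ) (g : ι → ι → ℝ) (B : ℝ)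
    (hg : ∀ i j, 0 ≤ g i j) (hsymm : ∀ i j, g i j = g j i) (hB : ∀ i ∈ I, ∑ j ∈ I, g i j ≤ B) :
    ∑ i ∈ I, ∑ j ∈ I, ‖c i‖ * ‖c j‖ * g i j ≤ B * ∑ i ∈ I, ‖c i‖ ^ 2 := by
  have h1 : ∑ i ∈ I, ∑ j ∈ I, ‖c i‖ * ‖c j‖ * g i j ≤
      ∑ i ∈ I, ∑ j ∈ I, (1 / 2 * (‖c i‖ ^ 2 * g i j) + 1 / 2 * (‖c j‖ ^ 2 * g i j)) := by
    refine sum_le_sum fun i _ => sum_le_sum fun j _ => ?_
    nlinarith [hg i j, sq_nonneg (‖c i‖ - ‖c j‖), mul_nonneg (sq_nonneg (‖c i‖ - ‖c j‖)) (hg i j)]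
  refine h1.trans ?_
  simp_rw [Finset.sum_add_distrib]
  have h2 : ∑ i ∈ I, ∑ j ∈ I, 1 / 2 * (‖c j‖ ^ 2 * g i j) =
      ∑ i ∈ I, ∑ j ∈ I, 1 / 2 * (‖c i‖ ^ 2 * g i j) := by
    rw [Finset.sum_comm]
    refine sum_congr rfl fun i _ => sum_congr rfl fun j _ => ?_
    rw [hsymm]
  rw [h2, ← two_mul, Finset.mul_sum, Finset.mul_sum]
  refine sum_le_sum fun i hi => ?_
  rw [← Finset.mul_sum, ← Finset.mul_sum]
  have := mul_le_mul_of_nonneg_left (hB i hi) (sq_nonneg ‖c i‖)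
  linarith

end

end Pool.Agent.SZ
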