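import Pool.Agent.Lib.SZ.E00

/-!
# Module SZ2 (energy for fat arcs), E03: extension of the range of summation
-/

namespace Pool.Agent.SZ

open NumberField Finset
open scoped Classical

section

variable {F : Type*} [Field F] [NumberField F]

theorem e03_repr (v : Ix F → ℕ) (k : Ix F) : (bas F).repr (∑ i, v i • bas F i) k = v k := by
  rw [map_sum, Finsupp.finsetSum_apply]
  have h : ∀ i, (bas F).repr (v i • bas F i) k = if i = k then (v i : ℤ) else 0 := by
    intro i
    rw [map_nsmul, Finsupp.smul_apply, Module.Basis.repr_self, Finsupp.single_apply]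
    split_ifs <;> simp
  rw [Finset.sum_congr rfl fun i _ => h i]
  simp

theorem e03_inj : Function.Injective (fun v : Ix F → ℕ => ∑ i, v i • bas F i) := by
  intro v w h
  funext k
  have h1 := congrArg (fun x => (bas F).repr x k) h
  dsimp only at h1
  rw [e03_repr, e03_repr] at h1
  exact_mod_cast h1

theorem e03_mem {Y : ℕ} {u : 𝓞 F} : u ∈ box F Y ↔ ∀ i, 0 ≤ (bas F).repr u i ∧ (bas F).repr u i < Y := by
  unfold box
  rw [Finset.mem_image]
  constructor
  · rintro ⟨v, hv, rfl⟩ i
    rw [e03_repr]
    rw [Fintype.mem_piFinset] at hv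
    have := hv i
    rw [Finset.mem_range] at this
    omega
  · intro h
    refine ⟨fun i => ((bas F).repr u i).toNat, ?_, ?_⟩
    · rw [Fintype.mem_piFinset]
      intro i
      rw [Finset.mem_range]
      have := h i
      omega
    · conv_rhs => rw [← (bas F).sum_repr u]
      refine Finset.sum_congr rfl fun i _ => ?_
      rw [← natCast_zsmul, Int.toNat_of_nonneg (h i).1]

/-- The box `0 ≤ x_i < L` has `L ^ n` elements. Proof: `box F L` is the image of `Fintype.piFinset (fun _ => range L)` under the
map `v ↦ ∑ v_i b_i`, which is injective because `b` is a basis (apply `(bas F).repr`); `Fintype.card_piFinset_const`. -/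
theorem e03_card (L : ℕ) : (box F L).card = L ^ dg F := by
  unfold box
  rw [Finset.card_image_of_injective _ e03_inj, Fintype.card_piFinset]
  simp

/-- EXTENSION. By `e03_card` the left side is
`∑ (x, w) ∈ X × box F L, f x`. Map `(x, w)` to `(u, v)`, `u = ∑ (w_i + max x_i 0) b_i`, `v = ∑ (w_i + max (-x_i) 0) b_i` (`x_i, w_i`
the coordinates, `0 ≤ w_i < L`, `|x_i| ≤ R ≤ L`): the coordinates of `u` and `v` are in `[0, 2L)`, `u - v = x`, and `(u, v)` determines
`x = u - v` and then `w`. So the sum is at most the sum over all pairs `(u, v)`. -/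
theorem e03_ext (f : 𝓞 F → ℝ) (hf : ∀ x, 0 ≤ f x) (R L : ℕ) (hRL : R ≤ L) (X : Finset (𝓞 F))
    (hX : ∀ x ∈ X, InB R x) :
    (L : ℝ) ^ dg F * ∑ x ∈ X, f x ≤ ∑ u ∈ box F (2 * L), ∑ v ∈ box F (2 * L), f (u - v) := by
  obtain ⟨P, hP⟩ : ∃ P : 𝓞 F → 𝓞 F, ∀ x, P x = ∑ i, (max ((bas F).repr x i) 0) • bas F i := ⟨_, fun _ => rfl⟩
  have hPr : ∀ x k, (bas F).repr (P x) k = max ((bas F).repr x k) 0 := by
    intro x k
    rw [hP, map_sum, Finsupp.finsetSum_apply]
    have h : ∀ i, (bas F).repr ((max ((bas F).repr x i) 0) • bas F i) k =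
        if i = k then max ((bas F).repr x i) 0 else 0 := by
      intro i
      rw [map_zsmul, Finsupp.smul_apply, Module.Basis.repr_self, Finsupp.single_apply]
      split_ifs <;> simp
    rw [Finset.sum_congr rfl fun i _ => h i]
    simp
  rw [← Finset.sum_product']
  have h1 : (L : ℝ) ^ dg F * ∑ x ∈ X, f x = ∑ p ∈ X ×ˢ box F L, f p.1 := by
    rw [Finset.sum_product, Finset.mul_sum]
    refine sum_congr rfl fun m _ => ?_
    simp only [Finset.sum_const, nsmul_eq_mul]
    rw [e03_card]
    push_cast
    rfl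
  rw [h1]
  have h2 : ∑ p ∈ X ×ˢ box F L, f p.1 =
      ∑ p ∈ (X ×ˢ box F L).image (fun p : 𝓞 F × 𝓞 F => ((p.2 + P p.1, p.2 + P p.1 - p.1) : 𝓞 F × 𝓞 F)),
        f (p.1 - p.2) := by
    rw [Finset.sum_image]
    · refine sum_congr rfl fun p _ => ?_
      congr 1
      ring
    · intro p _ q _ h
      simp only [Prod.mk.injEq] at h
      obtain ⟨ha, hb⟩ := h
      have h3 : p.1 = q.1 := by
        have : p.2 + P p.1 - (p.2 + P p.1 - p.1) = q.2 + P q.1 - (q.2 + P q.1 - q.1) := by rw [hb, ha]
        simpa using this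
      have h4 : p.2 = q.2 := by
        rw [h3] at ha
        exact add_right_cancel ha
      exact Prod.ext h3 h4
  rw [h2]
  apply Finset.sum_le_sum_of_subset_of_nonneg
  · intro p hp
    rw [Finset.mem_image] at hp
    obtain ⟨⟨x, w⟩, hxw, rfl⟩ := hp
    rw [Finset.mem_product] at hxw
    dsimp only at hxw ⊢
    have hx := hX x hxw.1
    have hw := e03_mem.1 hxw.2
    rw [Finset.mem_product]
    dsimp only
    rw [e03_mem, e03_mem]
    constructor
    · intro i
      rw [map_add, Finsupp.add_apply, hPr]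
      have hxi := hx i
      rw [abs_le] at hxi
      have hwi := hw i
      push_cast
      constructor
      · have := le_max_right ((bas F).repr x i) 0
        omega
      · rcases max_cases ((bas F).repr x i) 0 with ⟨h, _⟩ | ⟨h, _⟩ <;> rw [h] <;> omega
    · intro i
      rw [map_sub, Finsupp.sub_apply, map_add, Finsupp.add_apply, hPr]
      have hxi := hx i
      rw [abs_le] at hxi
      have hwi := hw i
      push_cast
      constructor
      · have := le_max_left ((bas F).repr x i) 0
        omega
      · rcases max_cases ((bas F).repr x i) 0 with ⟨h, _⟩ | ⟨h, _⟩ <;> rw [h] <;> omega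
  · intro p _ _
    exact hf _

end

end Pool.Agent.SZ
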