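import Pool.Agent.Lib.SZ.E00

/-!
# Module SZ2 (energy for fat arcs), E04: product formula for the sum over a box
-/

namespace Pool.Agent.SZ

open NumberField Finset
open scoped Classical

section

variable {F : Type*} [Field F] [NumberField F]

theorem e04_repr (v : Ix F → ℕ) (k : Ix F) : (bas F).repr (∑ i, v i • bas F i) k = v k := by
  rw [map_sum, Finsupp.finsetSum_apply]
  have h : ∀ i, (bas F).repr (v i • bas F i) k = if i = k then (v i : ℤ) else 0 := by
    intro i
    rw [map_nsmul, Finsupp.smul_apply, Module.Basis.repr_self, Finsupp.single_apply]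
    split_ifs <;> simp
  rw [Finset.sum_congr rfl fun i _ => h i]
  simp

theorem e04_inj : Function.Injective (fun v : Ix F → ℕ => ∑ i, v i • bas F i) := by
  intro v w h
  funext k
  have h1 := congrArg (fun x => (bas F).repr x k) h
  dsimp only at h1
  rw [e04_repr, e04_repr] at h1
  exact_mod_cast h1

theorem e04_ec_add (s t : UnitAddCircle) : ec (s + t) = ec s * ec t := by
  unfold ec
  rw [AddCircle.toCircle_add, Circle.coe_mul]

theorem e04_ec_sum {ι : Type*} (s : Finset ι) (g : ι → UnitAddCircle) : ec (∑ i ∈ s, g i) = ∏ i ∈ s, ec (g i) := by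
  induction s using Finset.induction_on with
  | empty => simp [ec]
  | insert a s ha ih => rw [Finset.sum_insert ha, Finset.prod_insert ha, e04_ec_add, ih]

/-- PRODUCT FORMULA. Proof: `box F L` is the injective image of `Fintype.piFinset (fun _ => range L)` under `v ↦ ∑ v_i b_i`
(`Finset.sum_image`; injective because `b` is a basis), `ev τ (∑ v_i • b_i) = ∏ i, ec (v_i • τ (b_i))` (`map_sum`, `map_nsmul`,
`AddCircle.toCircle_add`; induction on finite sets or `toCircle` of a sum), and `Finset.prod_univ_sum`. -/
theorem e04_prod (τ : T F) (L : ℕ) :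
    ∑ u ∈ box F L, ev τ u = ∏ i, ∑ v ∈ Finset.range L, ec (v • τ (bas F i)) := by
  unfold box
  rw [Finset.sum_image fun v _ w _ h => e04_inj h, Finset.prod_univ_sum]
  refine Finset.sum_congr rfl fun v _ => ?_
  have h1 : ev τ (∑ i, v i • bas F i) = ec (τ (∑ i, v i • bas F i)) := rfl
  rw [h1, map_sum, e04_ec_sum]
  refine Finset.prod_congr rfl fun i _ => ?_
  rw [map_nsmul]

end

end Pool.Agent.SZ
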