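import Pool.Agent.Lib.SZ.E00

/-!
# Module SZ2 (energy for fat arcs), E05: cells of the circle
-/

namespace Pool.Agent.SZ

open NumberField Finset
open scoped Classical

section

variable {F : Type*} [Field F] [NumberField F]

/-- Proof: `AddCircle.equivIco 1 0 t` is in `[0, 1)`, so `⌊D x⌋₊ < D`. -/
theorem e05_cell_lt (D : ℕ) (hD : 1 ≤ D) (t : UnitAddCircle) : cell D t < D := by
  unfold cell
  obtain ⟨h0, h1'⟩ := (AddCircle.equivIco (1 : ℝ) 0 t).2
  have h1 : (AddCircle.equivIco (1 : ℝ) 0 t : ℝ) < 1 := by linarith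
  have hD0 : (0 : ℝ) < D := by exact_mod_cast hD
  rw [Nat.floor_lt (by positivity)]
  nlinarith

/-- Proof: let `x, y ∈ [0, 1)` be the representatives of `s, t` (`AddCircle.coe_equivIco` or similar). Same cell gives
`|D x - D y| < 1`, and `‖s - t‖ = ‖((x - y : ℝ) : UnitAddCircle)‖ ≤ |x - y| < 1 / D` (`UnitAddCircle.norm_eq`,
`AddCircle.norm_coe_le`-like lemmas; `round_le`). -/
theorem e05_sep (D : ℕ) (hD : 1 ≤ D) (s t : UnitAddCircle) (h : cell D s = cell D t) :
    ‖s - t‖ < 1 / (D : ℝ) := by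
  unfold cell at h
  obtain ⟨x, hx⟩ : ∃ x : ℝ, x = (AddCircle.equivIco (1 : ℝ) 0 s : ℝ) := ⟨_, rfl⟩
  obtain ⟨y, hy⟩ : ∃ y : ℝ, y = (AddCircle.equivIco (1 : ℝ) 0 t : ℝ) := ⟨_, rfl⟩
  have hx0 : 0 ≤ x := by rw [hx]; exact (AddCircle.equivIco (1 : ℝ) 0 s).2.1
  have hy0 : 0 ≤ y := by rw [hy]; exact (AddCircle.equivIco (1 : ℝ) 0 t).2.1
  have hs : ((x : ℝ) : UnitAddCircle) = s := by rw [hx]; exact (AddCircle.equivIco (1 : ℝ) 0).symm_apply_apply s
  have ht : ((y : ℝ) : UnitAddCircle) = t := by rw [hy]; exact (AddCircle.equivIco (1 : ℝ) 0).symm_apply_apply t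
  rw [← hx, ← hy] at h
  have hD0 : (0 : ℝ) < D := by exact_mod_cast hD
  have h1 : |(D : ℝ) * x - D * y| < 1 := by
    have e1 := Nat.floor_le (a := (D : ℝ) * x) (by positivity)
    have e2 := Nat.lt_floor_add_one ((D : ℝ) * x)
    have e3 := Nat.floor_le (a := (D : ℝ) * y) (by positivity)
    have e4 := Nat.lt_floor_add_one ((D : ℝ) * y)
    rw [h] at e1 e2
    rw [abs_lt]
    constructor <;> linarith
  have h2 : ‖s - t‖ ≤ |x - y| := by
    rw [← hs, ← ht, ← AddCircle.coe_sub, UnitAddCircle.norm_eq]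
    have := round_le (x - y) 0
    simpa using this
  rw [← mul_sub, abs_mul, abs_of_pos hD0] at h1
  rw [lt_div_iff₀ hD0]
  nlinarith

theorem e05_hh_nonneg (k : ℕ) : 0 ≤ hh k := by
  unfold hh
  positivity

/-- Proof: telescoping. -/
theorem e05_sum (D : ℕ) : ∑ k ∈ Finset.range D, hh k ≤ 3 := by
  have key : ∀ n : ℕ, ∑ k ∈ range (n + 2), hh k ≤ 3 - 1 / ((n : ℝ) + 1) := by
    intro n
    induction n with
    | zero =>
      rw [Finset.sum_range_succ, Finset.sum_range_succ]
      simp only [Finset.range_zero, Finset.sum_empty, hh]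
      norm_num
    | succ n ih =>
      rw [Finset.sum_range_succ]
      have h1 : hh (n + 2) ≤ 1 / ((n : ℝ) + 1) - 1 / ((n : ℝ) + 2) := by
        unfold hh
        have e1 : max (((n + 2 : ℕ) : ℝ)) 1 = (n : ℝ) + 2 := by
          rw [max_eq_left]
          · push_cast; ring
          · push_cast
            have : (0 : ℝ) ≤ n := Nat.cast_nonneg n
            linarith
        rw [e1]
        have hn : (0 : ℝ) ≤ n := Nat.cast_nonneg n
        rw [div_sub_div _ _ (by positivity) (by positivity), div_le_div_iff₀ (by positivity)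
          (by positivity)]
        nlinarith
      have e2 : 3 - 1 / (((n + 1 : ℕ) : ℝ) + 1) = 3 - 1 / ((n : ℝ) + 2) := by
        push_cast
        ring_nf
      rw [e2]
      linarith
  have h1 : ∑ k ∈ range D, hh k ≤ ∑ k ∈ range (D + 2), hh k := by
    apply Finset.sum_le_sum_of_subset_of_nonneg
    · intro k hk
      rw [Finset.mem_range] at hk ⊢
      omega
    · intro k _ _
      exact e05_hh_nonneg k
  have h2 := key D
  have h3 : 0 ≤ 1 / ((D : ℝ) + 1) := by positivity
  linarith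

end

end Pool.Agent.SZ
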