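import Pool.Agent.Lib.SZ.E00

/-!
# Module SZ2 (energy for fat arcs), E06: the geometric sum in a cell
-/

namespace Pool.Agent.SZ

open NumberField Finset
open scoped Classical

section

variable {F : Type*} [Field F] [NumberField F]

theorem e06_norm_ec (t : UnitAddCircle) : ‖ec t‖ = 1 := Circle.norm_coe _

theorem e06_ec_coe (x : ℝ) : ec (x : UnitAddCircle) = Complex.exp (Complex.I * ((2 * Real.pi * x : ℝ) : ℂ)) := by
  unfold ec
  rw [AddCircle.toCircle_apply_mk, Circle.coe_exp]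
  congr 1
  push_cast
  ring

theorem e06_ec_add (s t : UnitAddCircle) : ec (s + t) = ec s * ec t := by
  unfold ec
  rw [AddCircle.toCircle_add, Circle.coe_mul]

theorem e06_tele (L : ℕ) (t : UnitAddCircle) :
    (ec t - 1) * ∑ v ∈ Finset.range L, ec (v • t) = ec (L • t) - 1 := by
  induction L with
  | zero => simp [ec]
  | succ n ih =>
    rw [Finset.sum_range_succ, mul_add, ih, succ_nsmul, e06_ec_add]
    ring

theorem e06_four (t : UnitAddCircle) : 4 * ‖t‖ ≤ ‖ec t - 1‖ := by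
  obtain ⟨x, hx⟩ : ∃ x : ℝ, ((x : ℝ) : UnitAddCircle) = t := ⟨_, (AddCircle.equivIco (1 : ℝ) 0).symm_apply_apply t⟩
  obtain ⟨y, hy⟩ : ∃ y : ℝ, y = x - round x := ⟨_, rfl⟩
  have hyt : ((y : ℝ) : UnitAddCircle) = t := by
    rw [hy, AddCircle.coe_sub, hx]
    have : (((round x : ℤ) : ℝ) : UnitAddCircle) = 0 := by
      rw [AddCircle.coe_eq_zero_iff]
      exact ⟨round x, by simp⟩
    rw [this, sub_zero]
  have ht : ‖t‖ = |y| := by
    rw [← hx, UnitAddCircle.norm_eq, hy]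
  have hy2 : |y| ≤ 1 / 2 := by
    rw [hy]
    exact abs_sub_round x
  rw [ht, ← hyt, e06_ec_coe, Complex.norm_exp_I_mul_ofReal_sub_one]
  have h3 : |2 * Real.pi * y / 2| ≤ Real.pi / 2 := by
    have : 2 * Real.pi * y / 2 = Real.pi * y := by ring
    rw [this, abs_mul, abs_of_pos Real.pi_pos]
    nlinarith [Real.pi_pos]
  have h4 := Real.mul_abs_le_abs_sin h3
  have h5 : 2 / Real.pi * |2 * Real.pi * y / 2| = 2 * |y| := by
    have : 2 * Real.pi * y / 2 = Real.pi * y := by ring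
    rw [this, abs_mul, abs_of_pos Real.pi_pos]
    field_simp
  rw [h5] at h4
  rw [norm_mul, Real.norm_eq_abs, Real.norm_eq_abs, abs_of_pos (by norm_num : (0 : ℝ) < 2)]
  linarith

/-- Proof. The norm is at most `L` (triangle inequality, `‖ec t‖ = 1`). Let `x ∈ [0, 1)` be the representative of `t`,
`k = cell D t = ⌊D x⌋`, so `k / D ≤ x < (k + 1) / D` and `‖t‖ = min x (1 - x) ≥ m / D` with `m = min k (D - 1 - k)`. If `m = 0` then
`hh 0 = 1` occurs on the right and we use `L ^ 2`. If `m ≥ 1` then `t ≠ 0` and the geometric sum is `(ec t ^ L - 1) / (ec t - 1)`, with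
`‖ec t - 1‖ = 2 |sin (π x)| ≥ 4 ‖t‖`, so its norm is at most `1 / (2 ‖t‖) ≤ D / (2 m)` and the square is at most
`D ^ 2 / m ^ 2 ≤ L ^ 2 * hh m`, and `m` is `k` or `D - 1 - k`. -/
theorem e06_geo (D L : ℕ) (hD : 1 ≤ D) (hDL : D ≤ L) (t : UnitAddCircle) :
    ‖∑ v ∈ Finset.range L, ec (v • t)‖ ^ 2 ≤ (L : ℝ) ^ 2 * (hh (cell D t) + hh (D - 1 - cell D t)) := by
  obtain ⟨S, hS⟩ : ∃ S : ℂ, S = ∑ v ∈ Finset.range L, ec (v • t) := ⟨_, rfl⟩
  rw [← hS]
  have hD0 : (0 : ℝ) < D := by exact_mod_cast hD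
  have hDL' : (D : ℝ) ≤ L := by exact_mod_cast hDL
  have h1 : ‖S‖ ≤ L := by
    rw [hS]
    refine (norm_sum_le _ _).trans ?_
    simp_rw [e06_norm_ec]
    simp
  have h2 : 4 * ‖t‖ * ‖S‖ ≤ 2 := by
    have h := congrArg norm (e06_tele L t)
    rw [norm_mul, ← hS] at h
    have h' : ‖ec (L • t) - 1‖ ≤ 2 := by
      refine (norm_sub_le _ _).trans ?_
      rw [e06_norm_ec, norm_one]
      norm_num
    calc 4 * ‖t‖ * ‖S‖ ≤ ‖ec t - 1‖ * ‖S‖ := by
          have := e06_four t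
          gcongr
      _ ≤ 2 := by rw [h]; exact h'
  have gen : ∀ j : ℕ, (j : ℝ) / D ≤ ‖t‖ → ‖S‖ ^ 2 ≤ (L : ℝ) ^ 2 * hh j := by
    intro j hj
    rcases Nat.eq_zero_or_pos j with h0 | h0
    · have : hh j = 1 := by
        rw [h0]
        unfold hh
        norm_num
      rw [this, mul_one]
      gcongr
    · have hj1 : (1 : ℝ) ≤ j := by exact_mod_cast h0
      have : hh j = 1 / (j : ℝ) ^ 2 := by
        unfold hh
        rw [max_eq_left hj1]
      rw [this]
      have h3 : (j : ℝ) * ‖S‖ ≤ L := by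
        rw [div_le_iff₀ hD0] at hj
        calc (j : ℝ) * ‖S‖ ≤ ‖t‖ * D * ‖S‖ := by gcongr
          _ = (4 * ‖t‖ * ‖S‖) * D / 4 := by ring
          _ ≤ 2 * D / 4 := by gcongr
          _ ≤ L := by linarith
      rw [mul_one_div, le_div_iff₀ (by positivity), ← mul_pow]
      rw [mul_comm] at h3
      gcongr
  have hh0 : ∀ k, 0 ≤ hh k := fun k => by unfold hh; positivity
  obtain ⟨x, hx⟩ : ∃ x : ℝ, x = (AddCircle.equivIco (1 : ℝ) 0 t : ℝ) := ⟨_, rfl⟩
  obtain ⟨h0, h1'⟩ := (AddCircle.equivIco (1 : ℝ) 0 t).2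
  rw [← hx] at h0 h1'
  have hxt : ((x : ℝ) : UnitAddCircle) = t := by rw [hx]; exact (AddCircle.equivIco (1 : ℝ) 0).symm_apply_apply t
  obtain ⟨k, hk⟩ : ∃ k : ℕ, k = cell D t := ⟨_, rfl⟩
  have hk' : k = ⌊(D : ℝ) * x⌋₊ := by rw [hk, hx]; rfl
  rw [← hk]
  have e1 : (k : ℝ) ≤ D * x := by
    rw [hk']
    exact Nat.floor_le (by positivity)
  have e2 : (D : ℝ) * x < k + 1 := by
    rw [hk']
    exact Nat.lt_floor_add_one _
  have hkD : k < D := by
    have : (k : ℝ) < D := by nlinarith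
    exact_mod_cast this
  have key : ∀ j : ℕ, j ≤ k → j ≤ D - 1 - k → (j : ℝ) / D ≤ ‖t‖ := by
    intro j hj1 hj2
    rw [← hxt, UnitAddCircle.norm_eq, div_le_iff₀ hD0]
    have f1 : (j : ℝ) ≤ k := by exact_mod_cast hj1
    have f2 : (j : ℝ) + k + 1 ≤ D := by
      have : j + k + 1 ≤ D := by omega
      exact_mod_cast this
    rcases le_or_gt (round x) 0 with h | h
    · have h' : ((round x : ℤ) : ℝ) ≤ 0 := by exact_mod_cast h
      have h'' : x ≤ |x - round x| := le_trans (by linarith) (le_abs_self _)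
      nlinarith
    · have h' : (1 : ℝ) ≤ ((round x : ℤ) : ℝ) := by exact_mod_cast h
      have h'' : 1 - x ≤ |x - round x| := le_trans (by linarith) (neg_le_abs _)
      nlinarith
  rcases le_total k (D - 1 - k) with h | h
  · have := gen k (key k le_rfl h)
    have := mul_nonneg (sq_nonneg (L : ℝ)) (hh0 (D - 1 - k))
    rw [mul_add]
    linarith
  · have := gen (D - 1 - k) (key _ h le_rfl)
    have := mul_nonneg (sq_nonneg (L : ℝ)) (hh0 k)
    rw [mul_add]
    linarith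

end

end Pool.Agent.SZ
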