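import Pool.Agent.Lib.SZ.E00
import Pool.Agent.Lib.SZ.E04
import Pool.Agent.Lib.SZ.E05
import Pool.Agent.Lib.SZ.E06

/-!
# Module SZ2 (energy for fat arcs), E07: row sums
-/

namespace Pool.Agent.SZ

open NumberField Finset
open scoped Classical

section

variable {F : Type*} [Field F] [NumberField F]

/-- ROW SUMS. Proof. For `j ∈ I` let `κ j` be the tuple of the cells `cell D ((y i - y j) (b_k))`. The map `κ` is injective on `I`: if
`κ j = κ l` then by `e05_sep` all `‖(y i - y j) (b_k) - (y i - y l) (b_k)‖ < 1 / D`, so `nT (y l - y j) < 1 / D` (the index type is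
finite and nonempty: `dg_pos`, the norm of a tuple is a maximum, `pi_norm_lt_iff`), so `j = l` by `hsep`. By `e04_prod` and `e06_geo`
`‖∑ u ∈ box F L, ev (y i - y j) u‖ ^ 2 ≤ ∏ k, L ^ 2 * (hh (κ j k) + hh (D - 1 - κ j k))`. Sum over `j`: at most
`∑ κ ∈ Fintype.piFinset (range D), ∏ k, … = ∏ k, ∑ m ∈ range D, L ^ 2 * (hh m + hh (D - 1 - m)) ≤ (6 L ^ 2) ^ n` (`Finset.prod_univ_sum`,
`Finset.sum_range_reflect`, `e05_sum`). Model: `LSA_row` in `Pool/Agent/Lib/H59C/LSA.lean`. -/
theorem e07_row {ι : Type*} (I : Finset ι) (y : ι → T F) (D L : ℕ) (hD : 1 ≤ D) (hDL : D ≤ L)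
    (hsep : ∀ i ∈ I, ∀ j ∈ I, i ≠ j → 1 / (D : ℝ) ≤ nT (y i - y j)) (i : ι) (hi : i ∈ I) :
    ∑ j ∈ I, ‖∑ u ∈ box F L, ev (y i - y j) u‖ ^ 2 ≤ (6 * (L : ℝ) ^ 2) ^ dg F := by
  have hD0 : (0 : ℝ) < D := by exact_mod_cast hD
  have h1 : ∀ j ∈ I, ‖∑ u ∈ box F L, ev (y i - y j) u‖ ^ 2 ≤
      ∏ k, ((L : ℝ) ^ 2 * (hh (cell D ((y i - y j) (bas F k))) + hh (D - 1 - cell D ((y i - y j) (bas F k))))) := by
    intro j _
    rw [e04_prod, norm_prod, ← Finset.prod_pow]
    exact Finset.prod_le_prod (fun k _ => by positivity) fun k _ => e06_geo D L hD hDL _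
  have hinj : Set.InjOn (fun j => fun k => cell D ((y i - y j) (bas F k))) (I : Set ι) := by
    intro j hj l hl h
    by_contra hne
    have h2 := hsep j hj l hl hne
    have h3 : nT (y j - y l) < 1 / (D : ℝ) := by
      unfold nT
      rw [pi_norm_lt_iff (by positivity)]
      intro k
      have h4 := congrFun h k
      have h5 := e05_sep D hD _ _ h4
      have h6 : (y i - y j) (bas F k) - (y i - y l) (bas F k) = -((y j - y l) (bas F k)) := by
        simp only [AddMonoidHom.sub_apply]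
        abel
      rw [h6, norm_neg] at h5
      exact h5
    linarith
  obtain ⟨G, hG⟩ : ∃ G : ℕ → ℝ, ∀ m, G m = (L : ℝ) ^ 2 * (hh m + hh (D - 1 - m)) := ⟨_, fun _ => rfl⟩
  have hG0 : ∀ m, 0 ≤ G m := fun m => by
    rw [hG]
    have := e05_hh_nonneg m
    have := e05_hh_nonneg (D - 1 - m)
    positivity
  simp_rw [← hG] at h1
  calc ∑ j ∈ I, ‖∑ u ∈ box F L, ev (y i - y j) u‖ ^ 2
      ≤ ∑ j ∈ I, ∏ k, G (cell D ((y i - y j) (bas F k))) := Finset.sum_le_sum h1
    _ = ∑ c ∈ I.image (fun j => fun k => cell D ((y i - y j) (bas F k))), ∏ k, G (c k) := by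
        rw [Finset.sum_image hinj]
    _ ≤ ∑ c ∈ Fintype.piFinset (fun _ : Ix F => Finset.range D), ∏ k, G (c k) := by
        apply Finset.sum_le_sum_of_subset_of_nonneg
        · intro c hc
          rw [Finset.mem_image] at hc
          obtain ⟨j, _, rfl⟩ := hc
          rw [Fintype.mem_piFinset]
          intro k
          rw [Finset.mem_range]
          exact e05_cell_lt D hD _
        · intro c _ _
          exact Finset.prod_nonneg fun k _ => hG0 _
    _ = ∏ _k : Ix F, ∑ m ∈ Finset.range D, G m := by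
        rw [Finset.prod_univ_sum]
    _ ≤ ∏ _k : Ix F, (6 * (L : ℝ) ^ 2) := by
        refine Finset.prod_le_prod (fun k _ => Finset.sum_nonneg fun m _ => hG0 m) fun k _ => ?_
        simp_rw [hG]
        rw [← Finset.mul_sum, Finset.sum_add_distrib, Finset.sum_range_reflect hh D]
        have := e05_sum D
        nlinarith [sq_nonneg (L : ℝ)]
    _ = (6 * (L : ℝ) ^ 2) ^ dg F := by
        rw [Finset.prod_const, Finset.card_univ]

end

end Pool.Agent.SZ
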