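import Pool.Agent.Lib.SZ.E00
import Pool.Agent.Lib.SZ.E01
import Pool.Agent.Lib.SZ.E02
import Pool.Agent.Lib.SZ.E03
import Pool.Agent.Lib.SZ.E07

/-!
# Module SZ2 (energy for fat arcs), E08: the large sieve
-/

namespace Pool.Agent.SZ

open NumberField Finset
open scoped Classical

section

variable {F : Type*} [Field F] [NumberField F]

/-- LARGE SIEVE for `1 / (4 R)`-separated characters. Proof (model: `ls_add` in `Pool/Agent/Lib/H59C/LSA.lean`). By duality (`e01_dual`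
with `K i a = ev (y i) a`, `B = (96 R) ^ n`, coefficients `1`) it suffices that `∑ a ∈ A, ‖∑ i, c i * ev (y i) a‖ ^ 2 ≤ B ∑ ‖c i‖ ^ 2`
for all `c`. By `e03_ext` with `L = 4 R`, `f x = ‖∑ i, c i * ev (y i) x‖ ^ 2`, then `e02_quad` with `X = box F (8 R)`, then `e02_schur`
with `g i j = ‖∑ u ∈ box F (8 R), ev (y i - y j) u‖ ^ 2` (symmetric: `ev (-θ) u = conj (ev θ u)`) and `e07_row` with `D = 4 R`,
`L = 8 R`: `(4 R) ^ n * ∑ a ∈ A, ‖…‖ ^ 2 ≤ (6 (8 R) ^ 2) ^ n * ∑ ‖c i‖ ^ 2 = (4 R) ^ n (96 R) ^ n ∑ ‖c i‖ ^ 2`. Divide. -/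
theorem e08_ls {ι : Type*} (I : Finset ι) (y : ι → T F) (R : ℕ) (hR : 1 ≤ R)
    (hsep : ∀ i ∈ I, ∀ j ∈ I, i ≠ j → 1 / (4 * (R : ℝ)) ≤ nT (y i - y j)) (A : Finset (𝓞 F))
    (hA : ∀ a ∈ A, InB R a) :
    ∑ i ∈ I, ‖FA A (y i)‖ ^ 2 ≤ (96 * (R : ℝ)) ^ dg F * A.card := by
  have hR' : (0 : ℝ) < R := by exact_mod_cast hR
  have hkey : ∀ c : ι → ℂ, ∑ x ∈ A, ‖∑ i ∈ I, c i * ev (y i) x‖ ^ 2 ≤ (96 * (R : ℝ)) ^ dg F * ∑ i ∈ I, ‖c i‖ ^ 2 := by
    intro c
    have h1 := e03_ext (F := F) (fun x => ‖∑ i ∈ I, c i * ev (y i) x‖ ^ 2) (fun _ => by positivity) R (4 * R) (by omega) A hA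
    have h2 := e02_quad I y c (box F (2 * (4 * R)))
    have h3 := e02_schur I c (fun i j => ‖∑ u ∈ box F (2 * (4 * R)), ev (y i - y j) u‖ ^ 2)
      ((6 * ((2 * (4 * R) : ℕ) : ℝ) ^ 2) ^ dg F) (fun _ _ => by positivity) (fun i j => by
        have h4 : ∑ u ∈ box F (2 * (4 * R)), ev (y i - y j) u
            = (starRingEnd ℂ) (∑ u ∈ box F (2 * (4 * R)), ev (y j - y i) u) := by
          rw [map_sum]
          refine Finset.sum_congr rfl fun u _ => ?_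
          rw [← ev_neg_left, neg_sub]
        rw [h4, RCLike.norm_conj]) (fun i hi => by
        refine e07_row I y (4 * R) (2 * (4 * R)) (by omega) (by omega) ?_ i hi
        intro i hi j hj hij
        have := hsep i hi j hj hij
        push_cast
        exact this)
    have h5 := (h1.trans h2).trans h3
    have h6 : (0 : ℝ) < ((4 * R : ℕ) : ℝ) ^ dg F := by positivity
    have h7 : (6 * ((2 * (4 * R) : ℕ) : ℝ) ^ 2) ^ dg F = ((4 * R : ℕ) : ℝ) ^ dg F * (96 * (R : ℝ)) ^ dg F := by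
      rw [← mul_pow]
      congr 1
      push_cast
      ring
    rw [h7, mul_assoc] at h5
    exact le_of_mul_le_mul_left h5 h6
  have h8 := e01_dual I A (fun i a => ev (y i) a) ((96 * (R : ℝ)) ^ dg F) (by positivity) hkey (fun _ => 1)
  simp only [one_mul, norm_one, one_pow, Finset.sum_const, nsmul_eq_mul, mul_one] at h8
  exact h8

end

end Pool.Agent.SZ
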