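import Pool.Agent.Lib.SZ.E00

/-!
# Module SZ2 (energy for fat arcs), E09: finiteness of the torsion characters
-/

namespace Pool.Agent.SZ

open NumberField Finset
open scoped Classical

section

variable {F : Type*} [Field F] [NumberField F]

/-- Proof. `m = Ideal.absNorm 𝔞` is a nonzero integer in `𝔞` (`Ideal.absNorm_mem`), so `m • σ (b_i) = σ (m b_i) = 0` for all `i`: every
`σ (b_i)` is one of the finitely many points of the circle of order dividing `m` (`AddCircle.finite_torsion`), and `σ` is determined by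
the tuple `(σ (b_i))` (`T_ext`): `Set.Finite.of_injOn` or `Set.Finite.subset` of a preimage. -/
theorem e09_finite {𝔞 : Ideal (𝓞 F)} (h : 𝔞 ≠ ⊥) : {σ : T F | Kills 𝔞 σ}.Finite := by
  obtain ⟨m, hm⟩ : ∃ m : ℕ, m = Ideal.absNorm 𝔞 := ⟨_, rfl⟩
  have hm0 : 0 < m := by
    rw [hm]
    exact absNorm_pos h
  have hmem : (m : 𝓞 F) ∈ 𝔞 := by
    rw [hm]
    exact Ideal.absNorm_mem 𝔞
  have hfin : {u : UnitAddCircle | m • u = 0}.Finite := by
    have : Fact ((0 : ℝ) < 1) := ⟨one_pos⟩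
    exact AddCircle.finite_torsion (1 : ℝ) hm0
  have hfin2 : (Set.pi Set.univ fun _ : Ix F => {u : UnitAddCircle | m • u = 0}).Finite :=
    Set.Finite.pi fun _ => hfin
  refine Set.Finite.of_injOn (f := fun σ : T F => fun i => σ (bas F i)) ?_ ?_ hfin2
  · intro σ hσ i _
    have h1 : σ ((m : 𝓞 F) * bas F i) = 0 := hσ _ (𝔞.mul_mem_right _ hmem)
    rw [← nsmul_eq_mul, map_nsmul] at h1
    exact h1
  · intro σ _ τ _ hστ
    exact T_ext fun i => congrFun hστ i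

theorem e09_mem {𝔞 : Ideal (𝓞 F)} (h : 𝔞 ≠ ⊥) {σ : T F} : σ ∈ KF 𝔞 ↔ Kills 𝔞 σ := by
  unfold KF
  rw [dif_pos (e09_finite h), Set.Finite.mem_toFinset]
  rfl

theorem e09_memTS {𝔞 : Ideal (𝓞 F)} (h : 𝔞 ≠ ⊥) {σ : T F} : σ ∈ TS 𝔞 ↔ annI σ = 𝔞 := by
  unfold TS
  rw [Finset.mem_filter, e09_mem h]
  constructor
  · exact fun h => h.2
  · intro h1
    exact ⟨kills_iff.2 h1.ge, h1⟩

theorem e09_annI_top {σ : T F} : annI σ = ⊤ ↔ σ = 0 := by
  constructor
  · intro h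
    have h1 : (1 : 𝓞 F) ∈ annI σ := by rw [h]; trivial
    ext x
    have := h1 x
    rw [one_mul] at this
    simpa using this
  · rintro rfl
    rw [eq_top_iff]
    intro g _ x
    simp

/-- Proof: `annI σ = 𝔭` for `σ` in `TS 𝔭`; if `Kills 𝔭 σ` then `𝔭 ≤ annI σ`, and `𝔭` is maximal (`Ideal.IsPrime.isMaximal`), so
`annI σ = 𝔭` or `annI σ = ⊤`, and `annI σ = ⊤` iff `σ = 0` (apply it to `1 * x`). -/
theorem e09_prime {𝔭 : Ideal (𝓞 F)} (hp : 𝔭.IsPrime) (h0 : 𝔭 ≠ ⊥) : TS 𝔭 = (KF 𝔭).erase 0 := by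
  ext σ
  rw [e09_memTS h0, Finset.mem_erase, e09_mem h0, kills_iff]
  constructor
  · intro h
    refine ⟨?_, h.ge⟩
    intro h1
    rw [← e09_annI_top, h] at h1
    exact hp.ne_top h1
  · rintro ⟨h1, h2⟩
    have hmax : 𝔭.IsMaximal := hp.isMaximal h0
    rcases h2.eq_or_lt with h3 | h3
    · exact h3.symm
    · exact absurd (e09_annI_top.1 (hmax.1.2 _ h3)) h1

/-- Proof: `annI σ = ⊤` iff `σ = 0`. -/
theorem e09_top : TS (⊤ : Ideal (𝓞 F)) = {0} := by
  ext σ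
  rw [e09_memTS top_ne_bot, Finset.mem_singleton, e09_annI_top]

end

end Pool.Agent.SZ
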