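import Pool.Agent.Lib.SZ.E00
import Pool.Agent.Lib.SZ.E09

/-!
# Module SZ2 (energy for fat arcs), E10: orthogonality
-/

namespace Pool.Agent.SZ

open NumberField Finset
open scoped Classical

section

variable {F : Type*} [Field F] [NumberField F]

/-- The additive circle and the unit circle, as an equivalence. -/
noncomputable def e10_circ : UnitAddCircle ≃ Circle := (AddCircle.homeomorphCircle (T := (1 : ℝ)) one_ne_zero).toEquiv

theorem e10_circ_apply (t : UnitAddCircle) : e10_circ t = AddCircle.toCircle t := AddCircle.homeomorphCircle_apply one_ne_zero t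

/-- The character of `𝓞 F` defined by a character of the quotient. -/
noncomputable def e10_of (𝔞 : Ideal (𝓞 F)) (ψ : AddChar (𝓞 F ⧸ 𝔞) Circle) : T F where
  toFun x := e10_circ.symm (ψ (Ideal.Quotient.mk 𝔞 x))
  map_zero' := by
    rw [Equiv.symm_apply_eq, e10_circ_apply, map_zero, AddCircle.toCircle_zero, AddChar.map_zero_eq_one]
  map_add' x y := by
    rw [Equiv.symm_apply_eq, e10_circ_apply, AddCircle.toCircle_add, ← e10_circ_apply, ← e10_circ_apply, Equiv.apply_symm_apply,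
      Equiv.apply_symm_apply, map_add, AddChar.map_add_eq_mul]

theorem e10_of_ev (𝔞 : Ideal (𝓞 F)) (ψ : AddChar (𝓞 F ⧸ 𝔞) Circle) (x : 𝓞 F) :
    ev (e10_of 𝔞 ψ) x = (ψ (Ideal.Quotient.mk 𝔞 x) : ℂ) := by
  unfold ev
  congr 1
  rw [← e10_circ_apply]
  exact Equiv.apply_symm_apply _ _

/-- ORTHOGONALITY of the characters of `𝓞 F / 𝔞`. Proof. `G = 𝓞 F ⧸ 𝔞` is a finite group with `Ideal.absNorm 𝔞` elements
(`Submodule.cardQuot`, `Ideal.absNorm_apply`). The characters `σ ∈ KF 𝔞` (`e09_mem`) correspond bijectively to the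
`AddChar G ℂ` (or `AddChar G Circle`, `AddChar.circleEquivComplex`): `σ ↦ (class of x ↦ ev σ x)`; conversely a character `χ` of `G` gives
`x ↦ toCircle⁻¹ (χ (class of x))`, where `AddCircle.toCircle : UnitAddCircle → Circle` is bijective and additive to multiplicative
(`AddCircle.homeomorphCircle`, `AddCircle.injective_toCircle`, `AddCircle.toCircle_add`). Then use `AddChar.sum_apply_eq_ite`
(`Mathlib/Analysis/Fourier/FiniteAbelian/PontryaginDuality.lean`): `∑ ψ : AddChar G ℂ, ψ a = if a = 0 then card G else 0`, with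
`a` = class of `x`, zero iff `x ∈ 𝔞` (`Ideal.Quotient.eq_zero_iff_mem`); `Finset.sum_bij`. -/
theorem e10_orth {𝔞 : Ideal (𝓞 F)} (h : 𝔞 ≠ ⊥) (x : 𝓞 F) :
    ∑ σ ∈ KF 𝔞, ev σ x = if x ∈ 𝔞 then ((Ideal.absNorm 𝔞 : ℕ) : ℂ) else 0 := by
  haveI : Finite (𝓞 F ⧸ 𝔞) := Ideal.finiteQuotientOfFreeOfNeBot 𝔞 h
  letI := Fintype.ofFinite (𝓞 F ⧸ 𝔞)
  have key : ∑ ψ : AddChar (𝓞 F ⧸ 𝔞) ℂ, ψ (Ideal.Quotient.mk 𝔞 x) = ∑ σ ∈ KF 𝔞, ev σ x := by
    refine Finset.sum_bij (fun ψ _ => e10_of 𝔞 (AddChar.circleEquivComplex.symm ψ)) ?_ ?_ ?_ ?_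
    · intro ψ _
      rw [e09_mem h]
      intro g hg
      change e10_circ.symm _ = 0
      rw [Equiv.symm_apply_eq, e10_circ_apply, AddCircle.toCircle_zero, Ideal.Quotient.eq_zero_iff_mem.2 hg, AddChar.map_zero_eq_one]
    · intro ψ _ ψ' _ hψ
      refine AddChar.circleEquivComplex.symm.injective ?_
      ext y
      obtain ⟨y, rfl⟩ := Ideal.Quotient.mk_surjective y
      have h1 := congrArg (fun τ => ev τ y) hψ
      simp only [e10_of_ev] at h1
      exact h1
    · intro σ hσ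
      rw [e09_mem h] at hσ
      let φ : (𝓞 F ⧸ 𝔞) →+ UnitAddCircle := QuotientAddGroup.lift (Submodule.toAddSubgroup 𝔞) σ (fun g hg => hσ g hg)
      let χ : AddChar (𝓞 F ⧸ 𝔞) Circle :=
        { toFun := fun y => AddCircle.toCircle (φ y)
          map_zero_eq_one' := by rw [map_zero, AddCircle.toCircle_zero]
          map_add_eq_mul' := fun a b => by rw [map_add, AddCircle.toCircle_add] }
      refine ⟨AddChar.circleEquivComplex χ, Finset.mem_univ _, ?_⟩
      rw [AddEquiv.symm_apply_apply]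
      ext y
      change e10_circ.symm _ = _
      rw [Equiv.symm_apply_eq, e10_circ_apply]
      rfl
    · intro ψ _
      rw [e10_of_ev]
      have := AddEquiv.apply_symm_apply AddChar.circleEquivComplex ψ
      conv_lhs => rw [← this]
      rfl
  rw [← key, AddChar.sum_apply_eq_ite]
  by_cases hx : x ∈ 𝔞
  · rw [if_pos hx, if_pos (Ideal.Quotient.eq_zero_iff_mem.2 hx), Ideal.absNorm_apply, Submodule.cardQuot_apply, Nat.card_eq_fintype_card]
  · rw [if_neg hx, if_neg (fun h => hx (Ideal.Quotient.eq_zero_iff_mem.1 h))]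

end

end Pool.Agent.SZ
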