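import Pool.Agent.Lib.SZ.E00
import Pool.Agent.Lib.SZ.E09
import Pool.Agent.Lib.SZ.E10

/-!
# Module SZ2 (energy for fat arcs), E12: Montgomery inequality for a prime ideal
-/

namespace Pool.Agent.SZ

open NumberField Finset
open scoped Classical

section

variable {F : Type*} [Field F] [NumberField F]

/-- MONTGOMERY for one prime. Proof. `TS 𝔭 = (KF 𝔭).erase 0` (`e09_prime`). Expanding and using `e10_orth` (with `ev_add_left`,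
`ev_sub_right`): `∑ σ ∈ KF 𝔭, ‖FA A (ψ + σ)‖ ^ 2 = ∑ a, ∑ a', ev ψ a * conj (ev ψ a') * ∑ σ, ev σ (a - a') =
N * ∑ a, ∑ a', [a - a' ∈ 𝔭] ev ψ a conj (ev ψ a') = N * ∑ c, ‖F_c‖ ^ 2`, `N = absNorm 𝔭`, where `c` runs over the classes of
`𝓞 F ⧸ 𝔭` and `F_c = ∑ a ∈ A, class of a = c, ev ψ a`. The class `0` is empty (`hA`), so by Cauchy-Schwarz
(`Finset.inner_mul_le_norm_mul_norm` or `sq_sum_le_card_mul_sum_sq`; there are `N - 1` other classes)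
`‖FA A ψ‖ ^ 2 ≤ (N - 1) ∑ c, ‖F_c‖ ^ 2`. Hence `∑ σ ∈ KF 𝔭, ‖FA A (ψ + σ)‖ ^ 2 ≥ N / (N - 1) * ‖FA A ψ‖ ^ 2`; subtract the term `σ = 0`:
`N / (N - 1) - 1 = 1 / (N - 1)` (`N ≥ 2`: `one_lt_absNorm`). -/
theorem e12_mont {𝔭 : Ideal (𝓞 F)} (hp : 𝔭.IsPrime) (h0 : 𝔭 ≠ ⊥) (A : Finset (𝓞 F)) (hA : ∀ a ∈ A, a ∉ 𝔭)
    (ψ : T F) :
    1 / ((Ideal.absNorm 𝔭 : ℝ) - 1) * ‖FA A ψ‖ ^ 2 ≤ ∑ σ ∈ TS 𝔭, ‖FA A (ψ + σ)‖ ^ 2 := by
  have : Finite (𝓞 F ⧸ 𝔭) := Ideal.finiteQuotientOfFreeOfNeBot 𝔭 h0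
  have hft : Fintype (𝓞 F ⧸ 𝔭) := Fintype.ofFinite _
  have hcardN : Fintype.card (𝓞 F ⧸ 𝔭) = Ideal.absNorm 𝔭 := by
    rw [Ideal.absNorm_apply, Submodule.cardQuot_apply, Nat.card_eq_fintype_card]
  obtain ⟨N, hN⟩ : ∃ N : ℕ, N = Ideal.absNorm 𝔭 := ⟨_, rfl⟩
  have hN2 : 2 ≤ N := by
    rw [hN]
    exact one_lt_absNorm h0 hp
  obtain ⟨q, hq⟩ : ∃ q : 𝓞 F → 𝓞 F ⧸ 𝔭, q = fun a => Ideal.Quotient.mk 𝔭 a := ⟨_, rfl⟩
  have hqe : ∀ a a' : 𝓞 F, q a = q a' ↔ a - a' ∈ 𝔭 := by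
    intro a a'
    rw [hq]
    exact Ideal.Quotient.mk_eq_mk_iff_sub_mem _ _
  obtain ⟨C, hC⟩ : ∃ C : Finset (𝓞 F ⧸ 𝔭), C = A.image q := ⟨_, rfl⟩
  have hCcard : C.card ≤ N - 1 := by
    have h1 : C ⊆ (Finset.univ : Finset (𝓞 F ⧸ 𝔭)).erase 0 := by
      intro c hc
      rw [hC, Finset.mem_image] at hc
      obtain ⟨a, ha, rfl⟩ := hc
      rw [Finset.mem_erase]
      refine ⟨?_, Finset.mem_univ _⟩
      intro h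
      apply hA a ha
      rw [hq] at h
      exact (Ideal.Quotient.eq_zero_iff_mem).1 h
    refine (Finset.card_le_card h1).trans ?_
    rw [Finset.card_erase_of_mem (Finset.mem_univ _), Finset.card_univ, hcardN, hN]
  obtain ⟨Fc, hFc⟩ : ∃ Fc : 𝓞 F ⧸ 𝔭 → ℂ, Fc = fun c => ∑ a ∈ A with q a = c, ev ψ a := ⟨_, rfl⟩
  have hmaps : ∀ a ∈ A, q a ∈ C := by
    intro a ha
    rw [hC]
    exact Finset.mem_image_of_mem _ ha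
  have hsum : FA A ψ = ∑ c ∈ C, Fc c := by
    rw [hFc]
    unfold FA
    exact (Finset.sum_fiberwise_of_maps_to hmaps _).symm
  have hCS : ‖FA A ψ‖ ^ 2 ≤ ((N : ℝ) - 1) * ∑ c ∈ C, ‖Fc c‖ ^ 2 := by
    rw [hsum]
    calc ‖∑ c ∈ C, Fc c‖ ^ 2 ≤ (∑ c ∈ C, ‖Fc c‖) ^ 2 := by
          gcongr
          exact norm_sum_le _ _
      _ ≤ C.card * ∑ c ∈ C, ‖Fc c‖ ^ 2 := sq_sum_le_card_mul_sum_sq
      _ ≤ ((N : ℝ) - 1) * ∑ c ∈ C, ‖Fc c‖ ^ 2 := by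
          apply mul_le_mul_of_nonneg_right _ (Finset.sum_nonneg fun _ _ => by positivity)
          have : (C.card : ℝ) ≤ ((N - 1 : ℕ) : ℝ) := by exact_mod_cast hCcard
          rwa [Nat.cast_sub (by omega), Nat.cast_one] at this
  -- the expansion over classes
  have hnorm : ∀ z : ℂ, ((‖z‖ ^ 2 : ℝ) : ℂ) = z * (starRingEnd ℂ) z := by
    intro z
    rw [Complex.mul_conj, Complex.normSq_eq_norm_sq]
  have hclass : ((∑ c ∈ C, ‖Fc c‖ ^ 2 : ℝ) : ℂ) = ∑ a ∈ A, ∑ a' ∈ A, if a - a' ∈ 𝔭 then ev ψ (a - a') else 0 := by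
    rw [Complex.ofReal_sum]
    have h1 : ∀ c ∈ C, ((‖Fc c‖ ^ 2 : ℝ) : ℂ) = ∑ a ∈ A with q a = c, ∑ a' ∈ A, if a - a' ∈ 𝔭 then ev ψ (a - a') else 0 := by
      intro c _
      rw [hnorm, hFc]
      simp only
      rw [map_sum, Finset.sum_mul_sum]
      refine Finset.sum_congr rfl fun a ha => ?_
      rw [Finset.mem_filter] at ha
      rw [Finset.sum_filter]
      refine Finset.sum_congr rfl fun a' _ => ?_
      have h2 : (q a' = c) ↔ (a - a' ∈ 𝔭) := by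
        rw [← hqe, ha.2]
        exact eq_comm
      by_cases h3 : q a' = c
      · rw [if_pos h3, if_pos (h2.1 h3), ev_sub_right]
      · rw [if_neg h3, if_neg (fun h => h3 (h2.2 h))]
    rw [Finset.sum_congr rfl h1]
    exact Finset.sum_fiberwise_of_maps_to hmaps _
  have htot : ∑ σ ∈ KF 𝔭, ‖FA A (ψ + σ)‖ ^ 2 = (N : ℝ) * ∑ c ∈ C, ‖Fc c‖ ^ 2 := by
    have h1 : ((∑ σ ∈ KF 𝔭, ‖FA A (ψ + σ)‖ ^ 2 : ℝ) : ℂ) = (((N : ℝ) * ∑ c ∈ C, ‖Fc c‖ ^ 2 : ℝ) : ℂ) := by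
      rw [Complex.ofReal_mul, hclass, Complex.ofReal_sum]
      have h2 : ∀ σ ∈ KF 𝔭, ((‖FA A (ψ + σ)‖ ^ 2 : ℝ) : ℂ) = ∑ a ∈ A, ∑ a' ∈ A, ev ψ (a - a') * ev σ (a - a') := by
        intro σ _
        rw [hnorm]
        unfold FA
        rw [map_sum, Finset.sum_mul_sum]
        refine Finset.sum_congr rfl fun a _ => Finset.sum_congr rfl fun a' _ => ?_
        rw [← ev_sub_right, ev_add_left]
      rw [Finset.sum_congr rfl h2, Finset.sum_comm, Finset.mul_sum]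
      refine Finset.sum_congr rfl fun a _ => ?_
      rw [Finset.sum_comm, Finset.mul_sum]
      refine Finset.sum_congr rfl fun a' _ => ?_
      rw [← Finset.mul_sum, e10_orth h0]
      split_ifs
      · rw [hN, mul_comm]
        simp
      · simp
    exact_mod_cast h1
  have hmem0 : (0 : T F) ∈ KF 𝔭 := by
    rw [e09_mem h0]
    intro g _
    simp
  have hsplit : ∑ σ ∈ TS 𝔭, ‖FA A (ψ + σ)‖ ^ 2 + ‖FA A ψ‖ ^ 2 = ∑ σ ∈ KF 𝔭, ‖FA A (ψ + σ)‖ ^ 2 := by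
    rw [e09_prime hp h0]
    have := Finset.sum_erase_add (KF 𝔭) (fun σ => ‖FA A (ψ + σ)‖ ^ 2) hmem0
    rwa [add_zero] at this
  have hN1 : (0 : ℝ) < (N : ℝ) - 1 := by
    have : (2 : ℝ) ≤ N := by exact_mod_cast hN2
    linarith
  rw [← hN]
  rw [htot] at hsplit
  have h5 : ‖FA A ψ‖ ^ 2 / ((N : ℝ) - 1) ≤ ∑ c ∈ C, ‖Fc c‖ ^ 2 := by
    rw [div_le_iff₀ hN1]
    linarith
  have h6 : (N : ℝ) * (‖FA A ψ‖ ^ 2 / ((N : ℝ) - 1)) ≤ (N : ℝ) * ∑ c ∈ C, ‖Fc c‖ ^ 2 := by gcongr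
  have h7 : (N : ℝ) * (‖FA A ψ‖ ^ 2 / ((N : ℝ) - 1)) = 1 / ((N : ℝ) - 1) * ‖FA A ψ‖ ^ 2 + ‖FA A ψ‖ ^ 2 := by
    field_simp
    ring
  linarith

end

end Pool.Agent.SZ
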