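import Pool.Agent.Lib.SZ.E00
import Pool.Agent.Lib.SZ.E09

/-!
# Module SZ2 (energy for fat arcs), E13: torsion of a product of coprime ideals
-/

namespace Pool.Agent.SZ

open NumberField Finset
open scoped Classical

section

variable {F : Type*} [Field F] [NumberField F]

theorem e13_zero {𝔞 𝔟 : Ideal (𝓞 F)} (hab : 𝔞 ⊔ 𝔟 = ⊤) {θ : T F} (ha : Kills 𝔞 θ) (hb : Kills 𝔟 θ) : θ = 0 := by
  have h1 : (1 : 𝓞 F) ∈ 𝔞 ⊔ 𝔟 := by rw [hab]; trivial
  obtain ⟨a, ha1, b, hb1, hab1⟩ := Submodule.mem_sup.1 h1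
  ext x
  have : x = a * x + b * x := by rw [← add_mul, hab1, one_mul]
  rw [this, map_add, ha _ (𝔞.mul_mem_right x ha1), hb _ (𝔟.mul_mem_right x hb1)]
  simp

theorem e13_ann {𝔞 𝔟 : Ideal (𝓞 F)} (hab : 𝔞 ⊔ 𝔟 = ⊤) {σ τ : T F} (hσ : annI σ = 𝔞) (hτ : annI τ = 𝔟) :
    annI (σ + τ) = 𝔞 * 𝔟 := by
  rw [Ideal.mul_eq_inf_of_isCoprime (Ideal.isCoprime_iff_sup_eq.2 hab)]
  apply le_antisymm
  · intro g hg
    rw [mem_annI] at hg
    set θ : T F := tw g σ with hθ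
    have h1 : Kills 𝔞 θ := by
      intro a ha
      rw [← hσ, mem_annI] at ha
      have := ha g
      rw [hθ]
      change σ (g * a) = 0
      rw [mul_comm]
      exact this
    have h2 : Kills 𝔟 θ := by
      intro b hb
      rw [← hτ, mem_annI] at hb
      have h3 := hb g
      have h4 := hg b
      rw [AddMonoidHom.add_apply, mul_comm g b, h3, add_zero] at h4
      rw [hθ]
      change σ (g * b) = 0
      rw [mul_comm]
      exact h4
    have h3 := e13_zero hab h1 h2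
    have h4 : ∀ x, σ (g * x) = 0 := fun x => by
      have := DFunLike.congr_fun h3 x
      exact this
    refine ⟨?_, ?_⟩
    · change g ∈ 𝔞
      rw [← hσ]
      exact h4
    · change g ∈ 𝔟
      rw [← hτ]
      intro x
      have h5 := hg x
      rw [AddMonoidHom.add_apply, h4 x, zero_add] at h5
      exact h5
  · rintro g ⟨h1, h2⟩
    have h1' : g ∈ annI σ := by rw [hσ]; exact h1
    have h2' : g ∈ annI τ := by rw [hτ]; exact h2
    intro x
    rw [AddMonoidHom.add_apply, h1' x, h2' x, add_zero]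

/-- COPRIME IDEALS. -/
theorem e13_mul {𝔞 𝔟 : Ideal (𝓞 F)} (ha : 𝔞 ≠ ⊥) (hb : 𝔟 ≠ ⊥) (hab : 𝔞 ⊔ 𝔟 = ⊤) (g : T F → ℝ)
    (hg : ∀ σ, 0 ≤ g σ) :
    ∑ σ ∈ TS 𝔞, ∑ τ ∈ TS 𝔟, g (σ + τ) ≤ ∑ ρ ∈ TS (𝔞 * 𝔟), g ρ := by
  have hne : 𝔞 * 𝔟 ≠ ⊥ := by
    have : 𝔞 * 𝔟 ≠ 0 := mul_ne_zero ha hb
    exact this
  rw [← Finset.sum_product']
  rw [← Finset.sum_image (s := TS 𝔞 ×ˢ TS 𝔟) (g := fun p => p.1 + p.2) (f := g)]
  · apply Finset.sum_le_sum_of_subset_of_nonneg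
    · intro ρ hρ
      rw [Finset.mem_image] at hρ
      obtain ⟨⟨σ, τ⟩, h1, rfl⟩ := hρ
      rw [Finset.mem_product, e09_memTS ha, e09_memTS hb] at h1
      rw [e09_memTS hne]
      exact e13_ann hab h1.1 h1.2
    · intro ρ _ _
      exact hg ρ
  · rintro ⟨σ, τ⟩ h1 ⟨σ', τ'⟩ h2 h3
    rw [Finset.mem_coe, Finset.mem_product, e09_memTS ha, e09_memTS hb] at h1 h2
    dsimp only at h1 h2 h3
    have h4 : σ - σ' = τ' - τ := by
      rw [sub_eq_sub_iff_add_eq_add]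
      rw [h3, add_comm]
    have k1 : Kills 𝔞 (σ - σ') := by
      intro a ha1
      have e1 := kills_iff.2 h1.1.ge a ha1
      have e2 := kills_iff.2 h2.1.ge a ha1
      rw [AddMonoidHom.sub_apply, e1, e2, sub_zero]
    have k2 : Kills 𝔟 (σ - σ') := by
      rw [h4]
      intro b hb1
      have e1 := kills_iff.2 h1.2.ge b hb1
      have e2 := kills_iff.2 h2.2.ge b hb1
      rw [AddMonoidHom.sub_apply, e1, e2, sub_zero]
    have h5 := e13_zero hab k1 k2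
    have h6 : σ = σ' := sub_eq_zero.1 h5
    have h7 : τ' - τ = 0 := by rw [← h4]; exact h5
    have h8 : τ' = τ := sub_eq_zero.1 h7
    rw [h6, h8]

end

end Pool.Agent.SZ
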