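import Pool.Agent.Lib.SZ.E00
import Pool.Agent.Lib.SZ.E09
import Pool.Agent.Lib.SZ.E12
import Pool.Agent.Lib.SZ.E13

/-!
# Module SZ2 (energy for fat arcs), E14: Montgomery inequality
-/

namespace Pool.Agent.SZ

open NumberField Finset
open scoped Classical

section

variable {F : Type*} [Field F] [NumberField F]

theorem e14_coprime {J : Finset (Ideal (𝓞 F))} (hJ0 : ∀ p ∈ J, p.IsPrime ∧ p ≠ ⊥) {p : Ideal (𝓞 F)}
    (hp : p.IsPrime) (h0 : p ≠ ⊥) (hpJ : p ∉ J) : p ⊔ (∏ q ∈ J, q) = ⊤ := by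
  have hmax : p.IsMaximal := hp.isMaximal h0
  have h1 : ¬ (∏ q ∈ J, q) ≤ p := by
    intro hle
    rw [hp.prod_le] at hle
    obtain ⟨q, hq, hqp⟩ := hle
    have hqmax : q.IsMaximal := (hJ0 q hq).1.isMaximal (hJ0 q hq).2
    have h2 := hqmax.eq_of_le hp.ne_top hqp
    rw [h2] at hq
    exact hpJ hq
  refine hmax.out.2 _ ?_
  exact lt_of_le_of_ne le_sup_left fun h => h1 (by rw [h]; exact le_sup_right)

/-- MONTGOMERY for a product of different primes. -/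
theorem e14_mont (J : Finset (Ideal (𝓞 F))) (hJ0 : ∀ p ∈ J, p.IsPrime ∧ p ≠ ⊥) (A : Finset (𝓞 F))
    (hA : ∀ p ∈ J, ∀ a ∈ A, a ∉ p) (ψ : T F) :
    hJ J * ‖FA A ψ‖ ^ 2 ≤ ∑ σ ∈ TS (∏ p ∈ J, p), ‖FA A (ψ + σ)‖ ^ 2 := by
  induction J using Finset.induction_on generalizing ψ with
  | empty =>
    rw [Finset.prod_empty, Ideal.one_eq_top, e09_top, Finset.sum_singleton]
    simp [hJ]
  | insert p J hpJ ih =>
    have hJ1 : ∀ q ∈ J, q.IsPrime ∧ q ≠ ⊥ := fun q hq => hJ0 q (Finset.mem_insert_of_mem hq)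
    have hA1 : ∀ q ∈ J, ∀ a ∈ A, a ∉ q := fun q hq => hA q (Finset.mem_insert_of_mem hq)
    obtain ⟨hp, h0⟩ := hJ0 p (Finset.mem_insert_self _ _)
    have hAp : ∀ a ∈ A, a ∉ p := hA p (Finset.mem_insert_self _ _)
    have hr0 : (∏ q ∈ J, q) ≠ ⊥ := by
      have : (∏ q ∈ J, q) ≠ 0 := Finset.prod_ne_zero_iff.2 fun q hq => (hJ1 q hq).2
      exact this
    rw [Finset.prod_insert hpJ]
    have h1 := e13_mul h0 hr0 (e14_coprime hJ1 hp h0 hpJ) (fun ρ => ‖FA A (ψ + ρ)‖ ^ 2)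
      (fun ρ => by positivity)
    refine le_trans ?_ h1
    have hJnn : 0 ≤ hJ J := by
      unfold hJ
      refine Finset.prod_nonneg fun q hq => ?_
      have h4 := one_lt_absNorm (hJ1 q hq).2 (hJ1 q hq).1
      have h5 : (1 : ℝ) < Ideal.absNorm q := by exact_mod_cast h4
      have : 0 < (Ideal.absNorm q : ℝ) - 1 := by linarith
      positivity
    calc hJ (insert p J) * ‖FA A ψ‖ ^ 2
        = hJ J * (1 / ((Ideal.absNorm p : ℝ) - 1) * ‖FA A ψ‖ ^ 2) := by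
          unfold hJ
          rw [Finset.prod_insert hpJ]
          ring
      _ ≤ hJ J * ∑ σ ∈ TS p, ‖FA A (ψ + σ)‖ ^ 2 :=
          mul_le_mul_of_nonneg_left (e12_mont hp h0 A hAp ψ) hJnn
      _ = ∑ σ ∈ TS p, hJ J * ‖FA A (ψ + σ)‖ ^ 2 := by rw [Finset.mul_sum]
      _ ≤ ∑ σ ∈ TS p, ∑ τ ∈ TS (∏ q ∈ J, q), ‖FA A (ψ + σ + τ)‖ ^ 2 :=
          Finset.sum_le_sum fun σ _ => ih hJ1 hA1 (ψ + σ)
      _ = _ := by
          refine Finset.sum_congr rfl fun σ _ => Finset.sum_congr rfl fun τ _ => ?_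
          rw [add_assoc]

end

end Pool.Agent.SZ
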