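import Pool.Agent.Lib.SZ.E00

/-!
# Module SZ2 (energy for fat arcs), E15: unique factorization
-/

namespace Pool.Agent.SZ

open NumberField Finset
open scoped Classical

section

variable {F : Type*} [Field F] [NumberField F]

theorem e15_sub {J J' : Finset (Ideal (𝓞 F))} (h : ∀ p ∈ J, p.IsPrime ∧ p ≠ ⊥)
    (h' : ∀ p ∈ J', p.IsPrime ∧ p ≠ ⊥) (hJJ : ∏ p ∈ J, p = ∏ p ∈ J', p) : J ⊆ J' := by
  intro p hp
  have h1 : ∏ q ∈ J', q ≤ p := by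
    rw [← hJJ]
    exact Ideal.dvd_iff_le.1 (Finset.dvd_prod_of_mem _ hp)
  rw [(h p hp).1.prod_le] at h1
  obtain ⟨q, hq, hqp⟩ := h1
  have hqmax : q.IsMaximal := (h' q hq).1.isMaximal (h' q hq).2
  rw [← hqmax.eq_of_le (h p hp).1.ne_top hqp]
  exact hq

/-- Unique factorization. -/
theorem e15_inj {J J' : Finset (Ideal (𝓞 F))} (h : ∀ p ∈ J, p.IsPrime ∧ p ≠ ⊥)
    (h' : ∀ p ∈ J', p.IsPrime ∧ p ≠ ⊥) (hJJ : ∏ p ∈ J, p = ∏ p ∈ J', p) : J = J' :=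
  Finset.Subset.antisymm (e15_sub h h' hJJ) (e15_sub h' h hJJ.symm)

/-- Facts about the sets `J` used for the rough ideals. -/
theorem e15_JJ {z Z : ℕ} {J : Finset (Ideal (𝓞 F))} (hJ : J ∈ JJ (prL F z Z) Z) :
    (∀ p ∈ J, p.IsPrime ∧ p ≠ ⊥) ∧ (∏ p ∈ J, p) ≠ ⊥ ∧ Ideal.absNorm (∏ p ∈ J, p) ≤ Z ∧
      ∀ ℓ : ℕ, ℓ.Prime → ℓ ∣ Ideal.absNorm (∏ p ∈ J, p) → z < ℓ := by
  unfold JJ at hJ
  rw [Finset.mem_filter, Finset.mem_powerset] at hJ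
  have h1 : ∀ p ∈ J, (p.IsPrime ∧ p ≠ ⊥) ∧ z < (Ideal.absNorm p).minFac := by
    intro p hp
    have h2 := hJ.1 hp
    unfold prL at h2
    rw [Finset.mem_filter, mem_prI] at h2
    exact ⟨⟨h2.1.1, h2.1.2.1⟩, h2.2⟩
  refine ⟨fun p hp => (h1 p hp).1, ?_, ?_, ?_⟩
  · have : (∏ q ∈ J, q) ≠ 0 := Finset.prod_ne_zero_iff.2 fun q hq => (h1 q hq).1.2
    exact this
  · rw [map_prod]
    exact hJ.2
  · intro ℓ hℓ hd
    rw [map_prod, hℓ.prime.dvd_finsetProd_iff] at hd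
    obtain ⟨p, hp, hd⟩ := hd
    exact lt_of_lt_of_le (h1 p hp).2 (Nat.minFac_le_of_dvd hℓ.two_le hd)

end

end Pool.Agent.SZ
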