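import Pool.Agent.Lib.SZ.E00

/-!
# Module SZ2 (energy for fat arcs), E16: small elements of ideals
-/

namespace Pool.Agent.SZ

open NumberField Finset
open scoped Classical

section

variable {F : Type*} [Field F] [NumberField F]

/-- PIGEONHOLE. Proof: the box `0 ≤ x_i ≤ B`, i.e. `Fintype.piFinset (fun _ => range (B + 1))`, has `(B + 1) ^ n` elements, more than the
`Ideal.absNorm 𝔠` elements of `𝓞 F ⧸ 𝔠` (finite because `𝔠 ≠ ⊥`: `Ideal.finiteQuotientOfFreeOfNeBot`; `Ideal.absNorm_apply`,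
`Submodule.cardQuot_apply`, `Nat.card`), so two different tuples `v, w` give elements `∑ v_i b_i`, `∑ w_i b_i` congruent modulo `𝔠`
(`Fintype.exists_ne_map_eq_of_card_lt` or `Finset.exists_ne_map_eq_of_card_lt_of_maps_to`). `g` = their difference. -/
theorem e16_exists {𝔠 : Ideal (𝓞 F)} (h : 𝔠 ≠ ⊥) (B : ℕ) (hB : Ideal.absNorm 𝔠 < (B + 1) ^ dg F) :
    ∃ g ∈ 𝔠, g ≠ 0 ∧ InB B g := by
  have : Finite (𝓞 F ⧸ 𝔠) := Ideal.finiteQuotientOfFreeOfNeBot 𝔠 h
  have : Fintype (𝓞 F ⧸ 𝔠) := Fintype.ofFinite _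
  have hcard : Fintype.card (𝓞 F ⧸ 𝔠) < Fintype.card (Ix F → Fin (B + 1)) := by
    rw [Fintype.card_fun, Fintype.card_fin]
    refine lt_of_le_of_lt (le_of_eq ?_) hB
    rw [Ideal.absNorm_apply, Submodule.cardQuot_apply, Nat.card_eq_fintype_card]
  obtain ⟨v, w, hvw, heq⟩ := Fintype.exists_ne_map_eq_of_card_lt
    (fun v : Ix F → Fin (B + 1) => (Ideal.Quotient.mk 𝔠 (∑ i, ((v i : ℕ) : ℤ) • bas F i) : 𝓞 F ⧸ 𝔠)) hcard
  have hrep : ∀ u : Ix F → Fin (B + 1), ∀ i, (bas F).repr (∑ j, ((u j : ℕ) : ℤ) • bas F j) i = ((u i : ℕ) : ℤ) := by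
    intro u i
    rw [Module.Basis.repr_sum_self]
  refine ⟨∑ i, ((v i : ℕ) : ℤ) • bas F i - ∑ i, ((w i : ℕ) : ℤ) • bas F i, ?_, ?_, ?_⟩
  · exact (Ideal.Quotient.mk_eq_mk_iff_sub_mem _ _).1 heq
  · intro h0
    apply hvw
    funext i
    have h1 := hrep v i
    rw [sub_eq_zero.1 h0, hrep w i] at h1
    apply Fin.ext
    exact_mod_cast h1.symm
  · intro i
    rw [map_sub, Finsupp.sub_apply, hrep, hrep]
    have h1 := (v i).2
    have h2 := (w i).2
    rw [abs_le]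
    constructor <;> omega

/-- STRUCTURE CONSTANTS. Proof: `x b_i = ∑ k, x_k (b_k b_i)`, so the `l`-th coordinate is `∑ k, x_k * (bas F).repr (b_k b_i) l`,
at most `B * ∑ k, |(bas F).repr (b_k b_i) l|`. Take `C = 1 + ∑ k, ∑ i, ∑ l, |(bas F).repr (b_k b_i) l|` (`Int.natAbs`). -/
theorem e16_struct : ∃ C : ℕ, 1 ≤ C ∧ ∀ (B : ℕ) (x : 𝓞 F), InB B x → ∀ i, InB (C * B) (x * bas F i) := by
  let D : ℕ := ∑ k, ∑ i, ∑ l, ((bas F).repr (bas F k * bas F i) l).natAbs
  refine ⟨D + 1, by omega, ?_⟩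
  intro B x hx i l
  have h1 : x * bas F i = ∑ k, (bas F).repr x k • (bas F k * bas F i) := by
    conv_lhs => rw [← (bas F).sum_repr x]
    rw [Finset.sum_mul]
    refine Finset.sum_congr rfl fun k _ => ?_
    rw [smul_mul_assoc]
  have h2 : (bas F).repr (x * bas F i) l = ∑ k, (bas F).repr x k * (bas F).repr (bas F k * bas F i) l := by
    rw [h1]
    simp only [map_sum, Finsupp.coe_finsetSum, Finset.sum_apply, map_zsmul, Finsupp.smul_apply, smul_eq_mul]
  rw [h2]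
  refine (Finset.abs_sum_le_sum_abs _ _).trans ?_
  have h3 : ∀ k ∈ (Finset.univ : Finset (Ix F)), |(bas F).repr x k * (bas F).repr (bas F k * bas F i) l|
      ≤ (B : ℤ) * ∑ i, ∑ l, |(bas F).repr (bas F k * bas F i) l| := by
    intro k _
    rw [abs_mul]
    refine mul_le_mul (hx k) ?_ (abs_nonneg _) (by positivity)
    refine le_trans ?_ (Finset.single_le_sum (f := fun i => ∑ l, |(bas F).repr (bas F k * bas F i) l|)
      (fun _ _ => Finset.sum_nonneg fun _ _ => abs_nonneg _) (Finset.mem_univ i))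
    exact Finset.single_le_sum (f := fun l => |(bas F).repr (bas F k * bas F i) l|) (fun _ _ => abs_nonneg _)
      (Finset.mem_univ l)
  refine (Finset.sum_le_sum h3).trans ?_
  have h4 : ∑ k, (B : ℤ) * ∑ i, ∑ l, |(bas F).repr (bas F k * bas F i) l| = B * D := by
    rw [← Finset.mul_sum]
    simp only [D]
    push_cast
    rfl
  rw [h4]
  push_cast
  have : (0 : ℤ) ≤ B := by positivity
  linarith

end

end Pool.Agent.SZ
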