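import Pool.Agent.Lib.SZ.E00
import Pool.Agent.Lib.SZ.E16

/-!
# Module SZ2 (energy for fat arcs), E18: separation of torsion characters
-/

namespace Pool.Agent.SZ

open NumberField Finset
open scoped Classical

section

variable {F : Type*} [Field F] [NumberField F]

/-- A small real representative of a point of the circle. -/
theorem e18_rep (u : UnitAddCircle) : ∃ t : ℝ, (t : UnitAddCircle) = u ∧ |t| = ‖u‖ := by
  induction u using QuotientAddGroup.induction_on with
  | H y =>
    refine ⟨y - round y, ?_, ?_⟩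
    · rw [AddCircle.coe_sub]
      have : ((round y : ℝ) : UnitAddCircle) = 0 := by
        rw [AddCircle.coe_eq_zero_iff]
        exact ⟨round y, by simp⟩
      rw [this, sub_zero]
    · exact (UnitAddCircle.norm_eq (x := y)).symm

/-- The real linear form with coefficients `t`. -/
noncomputable def e18_lin (t : Ix F → ℝ) : (𝓞 F) →+ ℝ where
  toFun x := ∑ i, t i * ((bas F).repr x i : ℝ)
  map_zero' := by simp
  map_add' x y := by
    rw [← Finset.sum_add_distrib]
    refine Finset.sum_congr rfl fun i _ => ?_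
    rw [map_add, Finsupp.add_apply]
    push_cast
    ring

theorem e18_lin_apply (t : Ix F → ℝ) (x : 𝓞 F) : e18_lin t x = ∑ i, t i * ((bas F).repr x i : ℝ) := rfl

theorem e18_coe (τ : T F) (t : Ix F → ℝ) (ht : ∀ i, (t i : UnitAddCircle) = τ (bas F i)) (x : 𝓞 F) :
    ((e18_lin t x : ℝ) : UnitAddCircle) = τ x := by
  have h1 : τ x = ∑ i, (bas F).repr x i • τ (bas F i) := by
    conv_lhs => rw [← (bas F).sum_repr x, map_sum]
    exact Finset.sum_congr rfl fun i _ => map_zsmul _ _ _
  rw [h1, e18_lin_apply]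
  have h2 : ((∑ i, t i * ((bas F).repr x i : ℝ) : ℝ) : UnitAddCircle) = ∑ i, ((t i * ((bas F).repr x i : ℝ) : ℝ) : UnitAddCircle) :=
    map_sum (QuotientAddGroup.mk' (AddSubgroup.zmultiples (1 : ℝ))) _ _
  rw [h2]
  refine Finset.sum_congr rfl fun i _ => ?_
  rw [← ht i, ← AddCircle.coe_zsmul, zsmul_eq_mul, mul_comm]

/-- FACT 1. Proof. `C = n C'` with `C'` from `e16_struct`, `n = dg F`. For every `i` let `t_i ∈ ℝ` be a representative of `τ (b_i)` with
`|t_i| = ‖τ (b_i)‖ ≤ nT τ` (`AddCircle` norm: subtract `round`; `UnitAddCircle.norm_eq`). The real linear form `L x = ∑ t_i x_i` on `𝓞 F`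
(`x_i` the coordinates) satisfies `L x ≡ τ x mod 1`. For all `i`: `L (g b_i)` is congruent to `τ (g b_i) = 0` mod `1`, so it is an integer,
and `|L (g b_i)| ≤ n * nT τ * C' * B < 1`, so `L (g b_i) = 0`; by linearity `L (g x) = 0` for all `x`. Since `g ≠ 0` there is an integer
`m ≠ 0` divisible by `g` in `𝓞 F` (`m = Algebra.norm ℤ g`, `Algebra.norm` divisibility, or `Ideal.absNorm_mem` for the ideal
`Ideal.span {g}`), so `m L x = L (m x) = 0`, so `L = 0` and `τ (b_i) = 0` for all `i`; `T_ext`. -/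
theorem e18_fact : ∃ C : ℕ, 1 ≤ C ∧ ∀ (B : ℕ) (τ : T F) (g : 𝓞 F), g ≠ 0 → InB B g → (∀ x, τ (g * x) = 0) →
    nT τ * ((C : ℝ) * B) < 1 → τ = 0 := by
  obtain ⟨C, hC, hst⟩ := e16_struct (F := F)
  refine ⟨dg F * C, Nat.one_le_iff_ne_zero.2 (Nat.mul_ne_zero (by have := dg_pos (F := F); omega) (by omega)), ?_⟩
  intro B τ g hg hB hτ hlt
  choose t ht ht' using fun i => e18_rep (τ (bas F i))
  have hsmall : ∀ i, |e18_lin t (g * bas F i)| < 1 := by
    intro i
    have h1 : ∀ k, |t k * ((bas F).repr (g * bas F i) k : ℝ)| ≤ nT τ * (C * B : ℕ) := by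
      intro k
      rw [abs_mul]
      refine mul_le_mul ?_ ?_ (abs_nonneg _) (nT_nonneg _)
      · rw [ht' k]
        exact nT_apply_le τ k
      · have := hst B g hB i k
        exact_mod_cast this
    calc |e18_lin t (g * bas F i)| ≤ ∑ k, |t k * ((bas F).repr (g * bas F i) k : ℝ)| := Finset.abs_sum_le_sum_abs _ _
      _ ≤ ∑ _k : Ix F, nT τ * (C * B : ℕ) := Finset.sum_le_sum fun k _ => h1 k
      _ = nT τ * (((dg F * C : ℕ) : ℝ) * B) := by
          rw [Finset.sum_const, Finset.card_univ, nsmul_eq_mul]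
          push_cast
          ring
      _ < 1 := hlt
  have hzero : ∀ i, e18_lin t (g * bas F i) = 0 := by
    intro i
    have h1 : ((e18_lin t (g * bas F i) : ℝ) : UnitAddCircle) = 0 := by
      rw [e18_coe τ t ht, hτ]
    rw [AddCircle.coe_eq_zero_iff] at h1
    obtain ⟨m, hm⟩ := h1
    rw [zsmul_eq_mul, mul_one] at hm
    have h2 := hsmall i
    rw [← hm] at h2 ⊢
    have h3 : |m| < 1 := by exact_mod_cast h2
    have h4 : m = 0 := Int.abs_lt_one_iff.1 h3
    rw [h4, Int.cast_zero]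
  have hall : ∀ x, e18_lin t (g * x) = 0 := by
    intro x
    have h1 : g * x = ∑ i, (bas F).repr x i • (g * bas F i) := by
      conv_lhs => rw [← (bas F).sum_repr x, Finset.mul_sum]
      exact Finset.sum_congr rfl fun i _ => mul_smul_comm _ _ _
    rw [h1, map_sum]
    refine Finset.sum_eq_zero fun i _ => ?_
    rw [map_zsmul, hzero, smul_zero]
  have hspan : (Ideal.span {g} : Ideal (𝓞 F)) ≠ ⊥ := by
    rw [Ne, Ideal.span_singleton_eq_bot]
    exact hg
  have hm := Ideal.absNorm_mem (Ideal.span {g} : Ideal (𝓞 F))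
  obtain ⟨y, hy⟩ := Ideal.mem_span_singleton'.1 hm
  have hm0 : Ideal.absNorm (Ideal.span {g} : Ideal (𝓞 F)) ≠ 0 := (absNorm_pos hspan).ne'
  have hL : ∀ x, e18_lin t x = 0 := by
    intro x
    have h1 := hall (y * x)
    rw [← mul_assoc, mul_comm g y, hy, ← nsmul_eq_mul, map_nsmul, nsmul_eq_mul, mul_eq_zero] at h1
    rcases h1 with h1 | h1
    · exact absurd (Nat.cast_eq_zero.1 h1) hm0
    · exact h1
  ext x
  rw [← e18_coe τ t ht, hL]
  rfl

end

end Pool.Agent.SZ
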