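import Pool.Agent.Lib.SZ.E00
import Pool.Agent.Lib.SZ.E16
import Pool.Agent.Lib.SZ.E18

/-!
# Module SZ2 (energy for fat arcs), E19: separation: smooth plus rough torsion
-/

namespace Pool.Agent.SZ

open NumberField Finset
open scoped Classical

section

variable {F : Type*} [Field F] [NumberField F]

theorem e19_sep : ∃ C : ℕ, 1 ≤ C ∧ ∀ (q q' Z : ℕ), 1 ≤ q → 1 ≤ q' → 1 ≤ Z → ∀ 𝔯 𝔯' : Ideal (𝓞 F), 𝔯 ≠ ⊥ → 𝔯' ≠ ⊥ →
    Ideal.absNorm 𝔯 ≤ Z → Ideal.absNorm 𝔯' ≤ Z → ∀ ψ0 ψ0' σ σ' : T F, q • ψ0 = 0 → q' • ψ0' = 0 → Kills 𝔯 σ →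
    Kills 𝔯' σ' → nT ((ψ0 + σ) - (ψ0' + σ')) * ((C : ℝ) * ((q : ℝ) * q' * (Z : ℝ) ^ 2)) < 1 → ψ0 + σ = ψ0' + σ' := by
  obtain ⟨C, hC, h⟩ := e18_fact (F := F)
  refine ⟨C, hC, ?_⟩
  intro q q' Z hq hq' hZ 𝔯 𝔯' h𝔯 h𝔯' hn hn' ψ0 ψ0' σ σ' hψ0 hψ0' hσ hσ' hlt
  have hne : 𝔯 * 𝔯' ≠ ⊥ := by
    have : 𝔯 * 𝔯' ≠ 0 := mul_ne_zero h𝔯 h𝔯'
    exact this
  have hnorm : Ideal.absNorm (𝔯 * 𝔯') < (Z ^ 2 + 1) ^ dg F := by
    rw [map_mul]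
    calc Ideal.absNorm 𝔯 * Ideal.absNorm 𝔯' ≤ Z * Z := Nat.mul_le_mul hn hn'
      _ < Z ^ 2 + 1 := by nlinarith
      _ = (Z ^ 2 + 1) ^ 1 := (pow_one _).symm
      _ ≤ (Z ^ 2 + 1) ^ dg F := Nat.pow_le_pow_right (by omega) dg_pos
  obtain ⟨g0, hg0, hg00, hgB⟩ := e16_exists hne (Z ^ 2) hnorm
  have hle : 𝔯 * 𝔯' ≤ 𝔯 := Ideal.mul_le_left
  have hle' : 𝔯 * 𝔯' ≤ 𝔯' := Ideal.mul_le_right
  have hr : g0 ∈ 𝔯 := hle hg0
  have hr' : g0 ∈ 𝔯' := hle' hg0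
  set g : 𝓞 F := ((q * q' : ℕ) : 𝓞 F) * g0 with hg
  have hgne : g ≠ 0 := by
    refine mul_ne_zero ?_ hg00
    have : q * q' ≠ 0 := Nat.mul_ne_zero (by omega) (by omega)
    exact_mod_cast this
  have hgI : InB (q * q' * Z ^ 2) g := by
    intro i
    have h1 : (bas F).repr g i = ((q * q' : ℕ) : ℤ) * (bas F).repr g0 i := by
      have h2 : g = ((q * q' : ℕ) : ℤ) • g0 := by
        rw [hg, zsmul_eq_mul]
        push_cast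
        ring
      rw [h2, map_zsmul, Finsupp.smul_apply, smul_eq_mul]
    rw [h1, abs_mul, Nat.abs_cast]
    have h3 := hgB i
    push_cast
    push_cast at h3
    exact mul_le_mul_of_nonneg_left h3 (by positivity)
  have hkill : ∀ x, ((ψ0 + σ) - (ψ0' + σ')) (g * x) = 0 := by
    intro x
    have e1 : ψ0 (g * x) = 0 := by
      have h2 : g * x = q • (((q' : ℕ) : 𝓞 F) * g0 * x) := by
        rw [hg, nsmul_eq_mul]
        push_cast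
        ring
      rw [h2, map_nsmul, ← AddMonoidHom.nsmul_apply, hψ0]
      rfl
    have e2 : ψ0' (g * x) = 0 := by
      have h2 : g * x = q' • (((q : ℕ) : 𝓞 F) * g0 * x) := by
        rw [hg, nsmul_eq_mul]
        push_cast
        ring
      rw [h2, map_nsmul, ← AddMonoidHom.nsmul_apply, hψ0']
      rfl
    have e3 : σ (g * x) = 0 := hσ _ (𝔯.mul_mem_right x (𝔯.mul_mem_left _ hr))
    have e4 : σ' (g * x) = 0 := hσ' _ (𝔯'.mul_mem_right x (𝔯'.mul_mem_left _ hr'))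
    rw [AddMonoidHom.sub_apply, AddMonoidHom.add_apply, AddMonoidHom.add_apply, e1, e2, e3, e4]
    simp
  have h5 := h (q * q' * Z ^ 2) _ g hgne hgI hkill (by
    push_cast
    exact hlt)
  exact sub_eq_zero.1 h5

theorem e19_norm_kills {𝔯 : Ideal (𝓞 F)} {σ : T F} (hσ : Kills 𝔯 σ) : Ideal.absNorm 𝔯 • σ = 0 := by
  ext x
  rw [AddMonoidHom.nsmul_apply, ← map_nsmul, nsmul_eq_mul, hσ _ (𝔯.mul_mem_right x (Ideal.absNorm_mem 𝔯))]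
  rfl

theorem e19_coprime {q q' : ℕ} {𝔯 𝔯' : Ideal (𝓞 F)} {ψ0 ψ0' σ σ' : T F} (hq : q • ψ0 = 0) (hq' : q' • ψ0' = 0)
    (hσ : Kills 𝔯 σ) (hσ' : Kills 𝔯' σ') (hc : Nat.Coprime (q * q') (Ideal.absNorm 𝔯 * Ideal.absNorm 𝔯'))
    (h : ψ0 + σ = ψ0' + σ') : σ = σ' := by
  have h1 : σ - σ' = ψ0' - ψ0 := by
    rw [sub_eq_sub_iff_add_eq_add, add_comm, h]
  have h2 : (q * q') • (σ - σ') = 0 := by
    have e3 : (q * q') • ψ0' = 0 := by rw [mul_smul, hq', smul_zero]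
    have e4 : (q * q') • ψ0 = 0 := by rw [mul_comm, mul_smul, hq, smul_zero]
    rw [h1, smul_sub, e3, e4, sub_zero]
  have h3 : (Ideal.absNorm 𝔯 * Ideal.absNorm 𝔯') • (σ - σ') = 0 := by
    have e1 := e19_norm_kills hσ
    have e2 := e19_norm_kills hσ'
    rw [smul_sub]
    have e3 : (Ideal.absNorm 𝔯 * Ideal.absNorm 𝔯') • σ = 0 := by
      rw [mul_comm, mul_smul, e1, smul_zero]
    have e4 : (Ideal.absNorm 𝔯 * Ideal.absNorm 𝔯') • σ' = 0 := by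
      rw [mul_smul, e2, smul_zero]
    rw [e3, e4, sub_zero]
  have h4 : addOrderOf (σ - σ') ∣ q * q' := addOrderOf_dvd_iff_nsmul_eq_zero.2 h2
  have h5 : addOrderOf (σ - σ') ∣ Ideal.absNorm 𝔯 * Ideal.absNorm 𝔯' := addOrderOf_dvd_iff_nsmul_eq_zero.2 h3
  have h6 : addOrderOf (σ - σ') = 1 := Nat.eq_one_of_dvd_coprimes hc h4 h5
  rw [AddMonoid.addOrderOf_eq_one_iff] at h6
  exact sub_eq_zero.1 h6

end

end Pool.Agent.SZ
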