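import Pool.Agent.Lib.SZ.E00

/-!
# Module SZ2 (energy for fat arcs), E21: grid points
-/

namespace Pool.Agent.SZ

open NumberField Finset
open scoped Classical

section

variable {F : Type*} [Field F] [NumberField F]

theorem e21_chr (β : Ix F → ℝ) (i : Ix F) : chr β (bas F i) = ((β i : ℝ) : UnitAddCircle) := by
  change ((∑ j, β j * ((bas F).repr (bas F i) j : ℝ) : ℝ) : UnitAddCircle) = _
  congr 1
  rw [Finset.sum_eq_single i]
  · simp
  · intro j _ hj
    rw [Module.Basis.repr_self, Finsupp.single_apply, if_neg (Ne.symm hj)]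
    simp
  · intro h
    exact absurd (Finset.mem_univ _) h

theorem e21_int (P : ℕ) (hP : 1 ≤ P) (a b : ℕ) (ha : a < P) (hb : b < P)
    (h : ‖(((a : ℝ) / P - (b : ℝ) / P : ℝ) : UnitAddCircle)‖ < 1 / (P : ℝ)) : a = b := by
  rw [UnitAddCircle.norm_eq] at h
  set k : ℤ := round ((a : ℝ) / P - (b : ℝ) / P) with hk
  have hP0 : (0 : ℝ) < P := by exact_mod_cast hP
  have h1 : (a : ℝ) / P - (b : ℝ) / P - k = (((a : ℤ) - b - k * P : ℤ) : ℝ) / P := by
    push_cast
    field_simp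
  rw [h1, abs_div, abs_of_pos hP0, div_lt_div_iff_of_pos_right hP0, ← Int.cast_abs] at h
  have h2 : |(a : ℤ) - b - k * P| < 1 := by exact_mod_cast h
  have h3 : (a : ℤ) - b - k * P = 0 := Int.abs_lt_one_iff.1 h2
  have h4 : (a : ℤ) - b = k * P := by linarith
  have h5 : (P : ℤ) ∣ (a : ℤ) - b := ⟨k, by rw [h4, mul_comm]⟩
  have h6 : (a : ℤ) - b = 0 := by
    apply Int.eq_zero_of_abs_lt_dvd h5
    rw [abs_lt]
    constructor <;> omega
  omega

/-- Different points of the grid are `1 / P`-separated. -/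
theorem e21_grid (P : ℕ) (hP : 1 ≤ P) {ψ ψ' : T F} (h : ψ ∈ grid F P) (h' : ψ' ∈ grid F P)
    (hd : nT (ψ - ψ') < 1 / (P : ℝ)) : ψ = ψ' := by
  unfold grid at h h'
  rw [Finset.mem_image] at h h'
  obtain ⟨a, ha, rfl⟩ := h
  obtain ⟨b, hb, rfl⟩ := h'
  rw [Fintype.mem_piFinset] at ha hb
  have hab : a = b := by
    ext i
    apply e21_int P hP _ _ (Finset.mem_range.1 (ha i)) (Finset.mem_range.1 (hb i))
    have h1 := nT_apply_le (chr (fun i => (a i : ℝ) / (P : ℝ)) - chr (fun i => (b i : ℝ) / (P : ℝ)) : T F) i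
    rw [AddMonoidHom.sub_apply, e21_chr, e21_chr, ← AddCircle.coe_sub] at h1
    exact lt_of_le_of_lt h1 hd
  rw [hab]

end

end Pool.Agent.SZ
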