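import Pool.Agent.Lib.SZ.E00
import Pool.Agent.Lib.SZ.E19
import Pool.Agent.Lib.SZ.E21

/-!
# Module SZ2 (energy for fat arcs), E22: the separated family
-/

namespace Pool.Agent.SZ

open NumberField Finset
open scoped Classical

section

variable {F : Type*} [Field F] [NumberField F]

/-- The growth condition. -/
theorem e22_growth (C κ : ℕ) (hC : 1 ≤ C) : ∃ R0 : ℕ, 1 ≤ R0 ∧ ∀ R : ℕ, R0 ≤ R →
    1 ≤ Real.log R ∧ 3 * (C : ℝ) * Real.log R ^ (3 * κ) < Real.sqrt R := by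
  have h1 := (Real.isLittleO_pow_log_id_atTop (n := 6 * κ)).bound (c := 1 / (18 * (C : ℝ) ^ 2)) (by positivity)
  have h2 : ∀ᶠ x : ℝ in Filter.atTop, 1 ≤ Real.log x := Real.tendsto_log_atTop.eventually_ge_atTop 1
  have h3 := tendsto_natCast_atTop_atTop (R := ℝ) |>.eventually (h1.and h2)
  obtain ⟨R0, hR0⟩ := Filter.eventually_atTop.1 h3
  refine ⟨max R0 1, le_max_right _ _, fun R hR => ?_⟩
  obtain ⟨h4, h5⟩ := hR0 R (le_trans (le_max_left _ _) hR)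
  refine ⟨h5, ?_⟩
  have hR1 : (1 : ℝ) ≤ R := by exact_mod_cast le_trans (le_max_right _ _) hR
  have hCR : (1 : ℝ) ≤ C := by exact_mod_cast hC
  have hL : 0 ≤ Real.log R := by linarith
  rw [Real.norm_of_nonneg (pow_nonneg hL _), id, Real.norm_of_nonneg (by linarith)] at h4
  refine Real.lt_sqrt_of_sq_lt ?_
  have e : (3 * (C : ℝ) * Real.log R ^ (3 * κ)) ^ 2 = 9 * (C : ℝ) ^ 2 * Real.log R ^ (6 * κ) := by
    rw [mul_pow, ← pow_mul, mul_pow]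
    ring_nf
  rw [e]
  calc 9 * (C : ℝ) ^ 2 * Real.log R ^ (6 * κ) ≤ 9 * (C : ℝ) ^ 2 * (1 / (18 * (C : ℝ) ^ 2) * R) :=
        mul_le_mul_of_nonneg_left h4 (by positivity)
    _ = R / 2 := by field_simp; norm_num
    _ < R := by linarith

/-- SEPARATION. Proof. Let `C` be the constant of `e19_sep`. `θ = (ψ0 + σ) - (ψ0' + σ')` equals
`((ψ + σ) - (ψ' + σ')) - (ψ - ψ0) + (ψ' - ψ0')`, so `nT θ ≤ 1 / (4 R) + 2 (log R) ^ κ / R ≤ 3 (log R) ^ κ / R` (`nT_add_le`, `nT_neg`;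
`log R ≥ 1`). Also `q q' Z ^ 2 ≤ (log R) ^ (2 κ) R ^ (1/2)` (`Z ^ 4 ≤ R` gives `Z ^ 2 ≤ sqrt R`). So `nT θ * (C * (q q' Z ^ 2)) ≤
3 C (log R) ^ (3 κ) / sqrt R < 1` for `R ≥ R0` (`isLittleO_log_rpow_atTop` or `Real.isLittleO_pow_log_id_atTop`). By `e19_sep`
`ψ0 + σ = ψ0' + σ'`; the prime factors of `q q'` are `≤ z`, those of `absNorm 𝔯 * absNorm 𝔯'` are `> z`, so they are coprime and
`σ = σ'` by `e19_coprime`. Then `nT (ψ - ψ') < 1 / (4 R)` and `e21_grid` with `P = 4 R` gives `ψ = ψ'`. -/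
theorem e22_family (κ : ℕ) : ∃ R0 : ℕ, 1 ≤ R0 ∧ ∀ R : ℕ, R0 ≤ R → ∀ Z : ℕ, 1 ≤ Z → Z ^ 4 ≤ R → ∀ z : ℕ,
    ∀ ψ ∈ grid F (4 * R), ∀ ψ' ∈ grid F (4 * R), ∀ (ψ0 ψ0' : T F) (q q' : ℕ),
    1 ≤ q → (q : ℝ) ≤ (Real.log R) ^ κ → (∀ p : ℕ, p.Prime → p ∣ q → p ≤ z) → q • ψ0 = 0 →
    nT (ψ - ψ0) ≤ (Real.log R) ^ κ / R →
    1 ≤ q' → (q' : ℝ) ≤ (Real.log R) ^ κ → (∀ p : ℕ, p.Prime → p ∣ q' → p ≤ z) → q' • ψ0' = 0 →
    nT (ψ' - ψ0') ≤ (Real.log R) ^ κ / R →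
    ∀ 𝔯 𝔯' : Ideal (𝓞 F), 𝔯 ≠ ⊥ → 𝔯' ≠ ⊥ → Ideal.absNorm 𝔯 ≤ Z → Ideal.absNorm 𝔯' ≤ Z →
    (∀ p : ℕ, p.Prime → p ∣ Ideal.absNorm 𝔯 → z < p) → (∀ p : ℕ, p.Prime → p ∣ Ideal.absNorm 𝔯' → z < p) →
    ∀ σ σ' : T F, Kills 𝔯 σ → Kills 𝔯' σ' → nT ((ψ + σ) - (ψ' + σ')) < 1 / (4 * (R : ℝ)) → ψ = ψ' ∧ σ = σ' := by
  obtain ⟨C, hC, hsep⟩ := e19_sep (F := F)
  obtain ⟨R0, hR01, hR0⟩ := e22_growth C κ hC
  refine ⟨R0, hR01, ?_⟩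
  intro R hR Z hZ hZR z ψ hψ ψ' hψ' ψ0 ψ0' q q' hq hqL hqz hq0 hψ0 hq' hqL' hqz' hq0' hψ0' 𝔯 𝔯' h𝔯 h𝔯' hN hN' hp hp' σ σ' hσ hσ' hd
  obtain ⟨hlog, hgrow⟩ := hR0 R hR
  have hR1 : (1 : ℝ) ≤ R := by exact_mod_cast le_trans hR01 hR
  have hRpos : (0 : ℝ) < R := by linarith
  obtain ⟨ℓ, hℓ⟩ : ∃ ℓ : ℝ, ℓ = Real.log R ^ κ := ⟨_, rfl⟩
  have hℓ1 : 1 ≤ ℓ := by
    rw [hℓ]
    exact one_le_pow₀ hlog
  rw [← hℓ] at hqL hψ0 hqL' hψ0'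
  have hℓ3 : Real.log R ^ (3 * κ) = ℓ ^ 3 := by
    rw [hℓ, ← pow_mul, mul_comm κ 3]
  rw [hℓ3] at hgrow
  have hθ : nT ((ψ0 + σ) - (ψ0' + σ')) ≤ 3 * ℓ / R := by
    have e : (ψ0 + σ) - (ψ0' + σ') = ((ψ + σ) - (ψ' + σ')) + (-(ψ - ψ0) + (ψ' - ψ0')) := by abel
    rw [e]
    refine (nT_add_le _ _).trans ?_
    have h1 := nT_add_le (-(ψ - ψ0)) (ψ' - ψ0')
    rw [nT_neg] at h1
    have h2 : 1 / (4 * (R : ℝ)) ≤ ℓ / R := by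
      rw [div_le_div_iff₀ (by positivity) hRpos]
      nlinarith
    have h3 : 3 * ℓ / R = ℓ / R + (ℓ / R + ℓ / R) := by ring
    rw [h3]
    linarith
  have hZ2 : (Z : ℝ) ^ 2 ≤ Real.sqrt R := by
    refine Real.le_sqrt_of_sq_le ?_
    rw [← pow_mul]
    exact_mod_cast hZR
  have hsqrt : 0 < Real.sqrt R := Real.sqrt_pos.2 hRpos
  have hprod : (C : ℝ) * ((q : ℝ) * q' * (Z : ℝ) ^ 2) ≤ C * (ℓ * ℓ * Real.sqrt R) := by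
    refine mul_le_mul_of_nonneg_left ?_ (Nat.cast_nonneg _)
    refine mul_le_mul (mul_le_mul hqL hqL' (Nat.cast_nonneg _) (by linarith)) hZ2 (by positivity) (by positivity)
  have hlt : nT ((ψ0 + σ) - (ψ0' + σ')) * ((C : ℝ) * ((q : ℝ) * q' * (Z : ℝ) ^ 2)) < 1 := by
    calc nT ((ψ0 + σ) - (ψ0' + σ')) * ((C : ℝ) * ((q : ℝ) * q' * (Z : ℝ) ^ 2)) ≤ 3 * ℓ / R * (C * (ℓ * ℓ * Real.sqrt R)) :=
          mul_le_mul hθ hprod (by positivity) (by positivity)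
      _ = 3 * C * ℓ ^ 3 * Real.sqrt R / R := by ring
      _ < Real.sqrt R * Real.sqrt R / R := by
          refine div_lt_div_of_pos_right ?_ hRpos
          exact mul_lt_mul_of_pos_right hgrow hsqrt
      _ = 1 := by
          rw [Real.mul_self_sqrt hRpos.le, div_self hRpos.ne']
  have heq := hsep q q' Z hq hq' hZ 𝔯 𝔯' h𝔯 h𝔯' hN hN' ψ0 ψ0' σ σ' hq0 hq0' hσ hσ' hlt
  have hcop : Nat.Coprime (q * q') (Ideal.absNorm 𝔯 * Ideal.absNorm 𝔯') := by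
    refine Nat.Coprime.mul_left ?_ ?_ <;> refine Nat.Coprime.mul_right ?_ ?_ <;> refine Nat.coprime_of_dvd fun p hpp h1 h2 => ?_
    · exact absurd (hqz p hpp h1) (not_le.2 (hp p hpp h2))
    · exact absurd (hqz p hpp h1) (not_le.2 (hp' p hpp h2))
    · exact absurd (hqz' p hpp h1) (not_le.2 (hp p hpp h2))
    · exact absurd (hqz' p hpp h1) (not_le.2 (hp' p hpp h2))
  have hσσ := e19_coprime hq0 hq0' hσ hσ' hcop heq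
  refine ⟨?_, hσσ⟩
  have e : (ψ + σ) - (ψ' + σ') = ψ - ψ' := by rw [hσσ]; abel
  rw [e] at hd
  refine e21_grid (4 * R) (by have := le_trans hR01 hR; omega) hψ hψ' ?_
  push_cast
  exact hd

end

end Pool.Agent.SZ
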