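import Pool.Agent.Lib.SZ.E00

/-!
# Module SZ2 (energy for fat arcs), E23: counting ideals
-/

namespace Pool.Agent.SZ

open NumberField Finset
open scoped Classical

section

variable {F : Type*} [Field F] [NumberField F]

/-- Proof. `NumberField.Ideal.tendsto_norm_le_div_atTop F` (`Mathlib/NumberTheory/NumberField/Ideal/Asymptotics.lean`): the number of
ideals of norm `≤ s` divided by `s` tends to a positive constant `ρ` (positivity: `NumberField.dedekindZeta_residue_pos` or by hand:
regulator, class number, discriminant are positive); `idl F x` misses only the ideal `⊥`, so for `x ≥ x0` it has at least `ρ x / 2`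
elements; for `1 ≤ x < x0` it contains `⊤`, so at least `1 ≥ x / x0`. `c = min (ρ / 2) (1 / x0)`. -/
theorem e23_count : ∃ c : ℝ, 0 < c ∧ ∀ x : ℕ, 1 ≤ x → c * x ≤ ((idl F x).card : ℝ) := by
  have h1 := NumberField.Ideal.tendsto_norm_le_div_atTop₀ F
  have hcard : ∀ x : ℕ, Nat.card {I : nonZeroDivisors (Ideal (𝓞 F)) // (Ideal.absNorm (I : Ideal (𝓞 F)) : ℝ) ≤ (x : ℝ)}
      = (idl F x).card := by
    intro x
    rw [← Nat.card_eq_finsetCard]
    refine Nat.card_congr ⟨fun I => ⟨(I.1 : Ideal (𝓞 F)), ?_⟩, fun I => ⟨⟨I.1, ?_⟩, ?_⟩, ?_, ?_⟩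
    · rw [mem_idl]
      exact ⟨nonZeroDivisors.ne_zero I.1.2, by exact_mod_cast I.2⟩
    · exact mem_nonZeroDivisors_of_ne_zero (mem_idl.1 I.2).1
    · exact_mod_cast (mem_idl.1 I.2).2
    · intro I
      rfl
    · intro I
      rfl
  have h2 : Filter.Tendsto (fun x : ℕ => ((idl F x).card : ℝ) / x) Filter.atTop
      (nhds (dedekindZeta_residue F)) := by
    have h3 := h1.comp tendsto_natCast_atTop_atTop
    rw [dedekindZeta_residue_def]
    refine h3.congr fun x => ?_
    simp only [Function.comp_apply]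
    rw [hcard x]
  have hρ := dedekindZeta_residue_pos F
  have h4 := (tendsto_order.1 h2).1 (dedekindZeta_residue F / 2) (by linarith)
  obtain ⟨x0, hx0⟩ := Filter.eventually_atTop.1 h4
  refine ⟨min (dedekindZeta_residue F / 2) (1 / ((x0 : ℝ) + 1)), lt_min (by linarith) (by positivity), ?_⟩
  intro x hx
  have hxpos : (0 : ℝ) < x := by exact_mod_cast hx
  rcases le_or_gt x0 x with h | h
  · have h5 := hx0 x h
    rw [lt_div_iff₀ hxpos] at h5
    refine le_trans ?_ h5.le
    exact mul_le_mul_of_nonneg_right (min_le_left _ _) hxpos.le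
  · have h6 : (⊤ : Ideal (𝓞 F)) ∈ idl F x := by
      rw [mem_idl]
      refine ⟨top_ne_bot, ?_⟩
      rw [Ideal.absNorm_top]
      exact hx
    have h7 : 1 ≤ (idl F x).card := Finset.card_pos.2 ⟨_, h6⟩
    have h8 : (1 : ℝ) ≤ (idl F x).card := by exact_mod_cast h7
    refine le_trans ?_ h8
    have h9 : (x : ℝ) ≤ (x0 : ℝ) + 1 := by
      have : (x : ℝ) < x0 := by exact_mod_cast h
      linarith
    calc min (dedekindZeta_residue F / 2) (1 / ((x0 : ℝ) + 1)) * x ≤ (1 / ((x0 : ℝ) + 1)) * x :=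
          mul_le_mul_of_nonneg_right (min_le_right _ _) hxpos.le
      _ ≤ (1 / ((x0 : ℝ) + 1)) * ((x0 : ℝ) + 1) := by gcongr
      _ = 1 := by
          have : (x0 : ℝ) + 1 ≠ 0 := by positivity
          field_simp

end

end Pool.Agent.SZ
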