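import Pool.Agent.Lib.SZ.E00
import Pool.Agent.Lib.SZ.E23

/-!
# Module SZ2 (energy for fat arcs), E24: sum of 1 / N over ideals
-/

namespace Pool.Agent.SZ

open NumberField Finset
open scoped Classical

section

variable {F : Type*} [Field F] [NumberField F]

/-- Proof (Abel summation). Let `S m = (idl F m).card ≥ c m` (`e23_count`). By induction on `Z`:
`∑ I ∈ idl F Z, 1 / N I = S Z / Z + ∑ m ∈ Ico 1 Z, S m (1 / m - 1 / (m + 1))` (the ideals in `idl F (Z + 1)` not in `idl F Z` have norm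
`Z + 1`; `idl F 0 = ∅`). So it is `≥ ∑ m ∈ Ico 1 Z, c m / (m (m + 1)) = c ∑ m ∈ Ico 1 Z, 1 / (m + 1)` plus `c` (from `S Z / Z ≥ c`), i.e.
`≥ c ∑ m ∈ Icc 1 Z, 1 / m ≥ c log Z` (`log_add_one_le_harmonic` or `Real.log_le_sub_one_of_pos`, induction). -/
theorem e24_sum : ∃ c : ℝ, 0 < c ∧ ∀ Z : ℕ, 1 ≤ Z →
    c * Real.log Z ≤ ∑ I ∈ idl F Z, 1 / (Ideal.absNorm I : ℝ) := by
  obtain ⟨c, hc, hcount⟩ := e23_count (F := F)
  refine ⟨c, hc, ?_⟩
  -- the stronger inequality by induction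
  have hkey : ∀ Z : ℕ, 1 ≤ Z → c * ((harmonic Z : ℝ) - 1) + ((idl F Z).card : ℝ) / Z ≤ ∑ I ∈ idl F Z, 1 / (Ideal.absNorm I : ℝ) := by
    intro Z hZ
    induction Z, hZ using Nat.le_induction with
    | base =>
      have h1 : ∀ I ∈ idl F 1, 1 / (Ideal.absNorm I : ℝ) = 1 := by
        intro I hI
        rw [mem_idl] at hI
        have h2 := absNorm_pos hI.1
        have h3 : Ideal.absNorm I = 1 := by omega
        rw [h3]
        norm_num
      rw [Finset.sum_congr rfl h1]
      simp [harmonic]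
    | succ Z hZ ih =>
      have hZpos : (0 : ℝ) < Z := by exact_mod_cast hZ
      have hsub : idl F Z ⊆ idl F (Z + 1) := by
        intro I hI
        rw [mem_idl] at hI ⊢
        exact ⟨hI.1, by omega⟩
      rw [← Finset.sum_sdiff hsub]
      have h1 : ∀ I ∈ idl F (Z + 1) \ idl F Z, 1 / (Ideal.absNorm I : ℝ) = 1 / ((Z + 1 : ℕ) : ℝ) := by
        intro I hI
        rw [Finset.mem_sdiff, mem_idl, mem_idl] at hI
        have h3 : Ideal.absNorm I = Z + 1 := by
          have h4 : ¬ Ideal.absNorm I ≤ Z := fun h => hI.2 ⟨hI.1.1, h⟩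
          omega
        rw [h3]
      rw [Finset.sum_congr rfl h1, Finset.sum_const, nsmul_eq_mul]
      have h5 : (((idl F (Z + 1) \ idl F Z).card : ℕ) : ℝ) = (idl F (Z + 1)).card - (idl F Z).card := by
        rw [Finset.card_sdiff_of_subset hsub, Nat.cast_sub (Finset.card_le_card hsub)]
      rw [h5, harmonic_succ]
      have h6 := hcount Z hZ
      push_cast
      have h7 : c / ((Z : ℝ) + 1) ≤ ((idl F Z).card : ℝ) / Z - ((idl F Z).card : ℝ) / (Z + 1) := by
        rw [div_sub_div _ _ hZpos.ne' (by positivity), div_le_div_iff₀ (by positivity) (by positivity)]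
        nlinarith
      have h8 : c * ((harmonic Z : ℝ) + ((Z : ℝ) + 1)⁻¹ - 1) = c * ((harmonic Z : ℝ) - 1) + c / ((Z : ℝ) + 1) := by
        ring
      have h9 : (((idl F (Z + 1)).card : ℝ) - (idl F Z).card) * (1 / ((Z : ℝ) + 1))
          = ((idl F (Z + 1)).card : ℝ) / (Z + 1) - ((idl F Z).card : ℝ) / (Z + 1) := by
        ring
      rw [h8, h9]
      linarith
  intro Z hZ
  have h := hkey Z hZ
  have hZpos : (0 : ℝ) < Z := by exact_mod_cast hZ
  have h1 : c ≤ ((idl F Z).card : ℝ) / Z := by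
    rw [le_div_iff₀ hZpos]
    exact hcount Z hZ
  have h2 : Real.log Z ≤ (harmonic Z : ℝ) := by
    refine le_trans ?_ (log_add_one_le_harmonic Z)
    apply Real.log_le_log hZpos
    push_cast
    linarith
  have h3 : c * Real.log Z ≤ c * (harmonic Z : ℝ) := mul_le_mul_of_nonneg_left h2 hc.le
  nlinarith

end

end Pool.Agent.SZ
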