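import Pool.Agent.Lib.SZ.E00

/-!
# Module SZ2 (energy for fat arcs), E25: reduction to squarefree ideals
-/

namespace Pool.Agent.SZ

open NumberField Finset
open scoped Classical

section

variable {F : Type*} [Field F] [NumberField F]

open UniqueFactorizationMonoid in
/-- The prime ideals dividing `I`. -/
theorem e25_nf {I p : Ideal (𝓞 F)} (hp : p ∈ normalizedFactors I) : p.IsPrime ∧ p ≠ ⊥ ∧ p ∣ I := by
  have h1 := prime_of_normalized_factor p hp
  exact ⟨Ideal.isPrime_of_prime h1, h1.ne_zero, dvd_of_mem_normalizedFactors hp⟩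

theorem e25_norm_le {I J : Ideal (𝓞 F)} (hI : I ≠ ⊥) (h : J ∣ I) : Ideal.absNorm J ≤ Ideal.absNorm I :=
  Nat.le_of_dvd (absNorm_pos hI) (Ideal.absNorm_dvd_absNorm_of_le (Ideal.dvd_iff_le.1 h))

open UniqueFactorizationMonoid in
theorem e25_prod {I : Ideal (𝓞 F)} (hI : I ≠ ⊥) :
    I = ∏ p ∈ (normalizedFactors I).toFinset, p ^ (normalizedFactors I).count p := by
  rw [← Finset.prod_multiset_count]
  exact (Ideal.prod_normalizedFactors_eq_self hI).symm

open UniqueFactorizationMonoid in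
theorem e25_maps (Z : ℕ) {I : Ideal (𝓞 F)} (hI : I ∈ idl F Z) : (normalizedFactors I).toFinset ∈ JJ (prI F Z) Z := by
  obtain ⟨h0, hZ⟩ := mem_idl.1 hI
  unfold JJ
  rw [Finset.mem_filter, Finset.mem_powerset]
  constructor
  · intro p hp
    obtain ⟨h1, h2, h3⟩ := e25_nf (Multiset.mem_toFinset.1 hp)
    exact mem_prI.2 ⟨h1, h2, (e25_norm_le h0 h3).trans hZ⟩
  · have h1 : (∏ p ∈ (normalizedFactors I).toFinset, p) ∣ I := by
      have h2 := Multiset.toFinset_prod_dvd_prod (normalizedFactors I)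
      rw [Ideal.prod_normalizedFactors_eq_self h0] at h2
      exact h2
    have h3 := (e25_norm_le h0 h1).trans hZ
    rw [map_prod] at h3
    exact h3

theorem e25_geo (Z : ℕ) {q : ℕ} (hq : 2 ≤ q) : ∑ e ∈ Finset.Icc 1 Z, (1 / (q : ℝ)) ^ e ≤ 1 / ((q : ℝ) - 1) := by
  have hqR : (2 : ℝ) ≤ q := by exact_mod_cast hq
  obtain ⟨x, hx⟩ : ∃ x : ℝ, x = 1 / (q : ℝ) := ⟨_, rfl⟩
  have hx0 : 0 < x := by rw [hx]; positivity
  have hx1 : x < 1 := by
    rw [hx, div_lt_one (by linarith)]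
    linarith
  have h1 : ∑ e ∈ Finset.Icc 1 Z, x ^ e = x * ∑ e ∈ Finset.range Z, x ^ e := by
    rw [Finset.mul_sum, Finset.range_eq_Ico, Finset.sum_Ico_eq_sum_range, ← Finset.Ico_add_one_right_eq_Icc, Finset.sum_Ico_eq_sum_range]
    simp only [Nat.sub_zero, Nat.add_sub_cancel]
    refine Finset.sum_congr rfl fun e _ => ?_
    rw [zero_add, pow_add, pow_one]
  rw [← hx, h1, geom_sum_eq hx1.ne]
  have h2 : 1 / ((q : ℝ) - 1) = x / (1 - x) := by
    rw [hx]
    field_simp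
  rw [h2, mul_div_assoc', ← neg_div_neg_eq, neg_sub]
  refine div_le_div_of_nonneg_right ?_ (by linarith)
  have : 0 < x ^ Z := by positivity
  nlinarith

/-- RADICAL. Proof. For a finite set `Q` of nonzero prime ideals prove by induction on `Q` (or directly) that
`∑ I, 1 / N I ≤ ∑ J ∈ JJ Q Z, hJ J`, the sum over the ideals `I ∈ idl F Z` all of whose prime factors are in `Q`. Direct proof: for
`I ∈ idl F Z` let `J(I) = (normalizedFactors I).toFinset` (the prime ideals dividing `I`): they are in `prI F Z` (their norms divide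
`N I`), and `∏ p ∈ J(I), N p ≤ N I ≤ Z`, so `J(I) ∈ JJ (prI F Z) Z`. For fixed `J` the ideals with `J(I) = J` are `∏ p ∈ J, p ^ e_p` with
`1 ≤ e_p ≤ E` (`E = Z`, because `2 ^ e_p ≤ N I ≤ Z`), determined by `e`, so
`∑ I, J(I) = J, 1 / N I ≤ ∑ e ∈ J.pi (Icc 1 E), ∏ p, (1 / N p) ^ e_p = ∏ p ∈ J, ∑ e ∈ Icc 1 E, (1 / N p) ^ e ≤ ∏ p ∈ J, 1 / (N p - 1)`
(`Finset.prod_sum`, geometric sum). Sum over `J`: `Finset.sum_fiberwise_of_maps_to`. (Alternative: multiply out
`∏ p ∈ prI F Z, (1 + ∑ e ∈ Icc 1 E, N p ^ (-e))`.) -/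
theorem e25_rad (Z : ℕ) : ∑ I ∈ idl F Z, 1 / (Ideal.absNorm I : ℝ) ≤ ∑ J ∈ JJ (prI F Z) Z, hJ J := by
  rw [← Finset.sum_fiberwise_of_maps_to (fun I hI => e25_maps Z hI)]
  refine Finset.sum_le_sum fun J hJ' => ?_
  have hJp : ∀ p ∈ J, p.IsPrime ∧ p ≠ ⊥ := by
    intro p hp
    have h1 := (Finset.mem_powerset.1 (Finset.mem_filter.1 hJ').1) hp
    exact ⟨(mem_prI.1 h1).1, (mem_prI.1 h1).2.1⟩
  have hval : ∀ I ∈ (idl F Z).filter (fun I => (UniqueFactorizationMonoid.normalizedFactors I).toFinset = J),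
      1 / (Ideal.absNorm I : ℝ) = ∏ x ∈ J.attach, (1 / (Ideal.absNorm x.1 : ℝ)) ^ (UniqueFactorizationMonoid.normalizedFactors I).count x.1 := by
    intro I hI
    obtain ⟨h1, h2⟩ := Finset.mem_filter.1 hI
    have h3 := e25_prod (mem_idl.1 h1).1
    rw [h2] at h3
    conv_lhs => rw [h3]
    rw [map_prod, Finset.prod_attach J (fun x => (1 / (Ideal.absNorm x : ℝ)) ^ (UniqueFactorizationMonoid.normalizedFactors I).count x),
      Nat.cast_prod, one_div, ← Finset.prod_inv_distrib]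
    refine Finset.prod_congr rfl fun p _ => ?_
    rw [map_pow, Nat.cast_pow, one_div, inv_pow]
  rw [Finset.sum_congr rfl hval]
  have hinj : ∀ I ∈ (idl F Z).filter (fun I => (UniqueFactorizationMonoid.normalizedFactors I).toFinset = J),
      ∀ I' ∈ (idl F Z).filter (fun I => (UniqueFactorizationMonoid.normalizedFactors I).toFinset = J),
      (fun (p : Ideal (𝓞 F)) (_ : p ∈ J) => (UniqueFactorizationMonoid.normalizedFactors I).count p) =
        (fun (p : Ideal (𝓞 F)) (_ : p ∈ J) => (UniqueFactorizationMonoid.normalizedFactors I').count p) → I = I' := by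
    intro I hI I' hI' h
    obtain ⟨h1, h2⟩ := Finset.mem_filter.1 hI
    obtain ⟨h1', h2'⟩ := Finset.mem_filter.1 hI'
    rw [e25_prod (mem_idl.1 h1).1, e25_prod (mem_idl.1 h1').1, h2, h2']
    exact Finset.prod_congr rfl fun p hp => by rw [congrFun (congrFun h p) hp]
  have hgeo : ∏ p ∈ J, ∑ e ∈ Finset.Icc 1 Z, (1 / (Ideal.absNorm p : ℝ)) ^ e ≤ hJ J := by
    unfold hJ
    refine Finset.prod_le_prod (fun p _ => by positivity) fun p hp => ?_
    obtain ⟨h1, h2⟩ := hJp p hp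
    exact e25_geo Z (one_lt_absNorm h2 h1)
  refine le_trans ?_ hgeo
  rw [Finset.prod_sum, ← Finset.sum_image (f := fun e : (p : Ideal (𝓞 F)) → p ∈ J → ℕ =>
    ∏ x ∈ J.attach, (1 / (Ideal.absNorm x.1 : ℝ)) ^ e x.1 x.2) (g := fun I (p : Ideal (𝓞 F)) (_ : p ∈ J) =>
    (UniqueFactorizationMonoid.normalizedFactors I).count p) (fun I hI I' hI' h => hinj I hI I' hI' h)]
  refine Finset.sum_le_sum_of_subset_of_nonneg ?_ (fun e _ _ => by positivity)
  intro e he
  obtain ⟨I, hI, rfl⟩ := Finset.mem_image.1 he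
  obtain ⟨h1, h2⟩ := Finset.mem_filter.1 hI
  obtain ⟨h0, hZ⟩ := mem_idl.1 h1
  rw [Finset.mem_pi]
  intro p hp
  rw [← h2] at hp
  have hp' := Multiset.mem_toFinset.1 hp
  obtain ⟨h3, h4, h5⟩ := e25_nf hp'
  rw [Finset.mem_Icc]
  refine ⟨Multiset.one_le_count_iff_mem.2 hp', ?_⟩
  have h6 : p ^ (UniqueFactorizationMonoid.normalizedFactors I).count p ∣ I := by
    conv_rhs => rw [e25_prod h0]
    exact Finset.dvd_prod_of_mem (fun p => p ^ (UniqueFactorizationMonoid.normalizedFactors I).count p) hp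
  have h7 := (e25_norm_le h0 h6).trans hZ
  rw [map_pow] at h7
  have h8 : 2 ≤ Ideal.absNorm p := one_lt_absNorm h4 h3
  exact ((Nat.lt_two_pow_self).le.trans (Nat.pow_le_pow_left h8 _)).trans h7

end

end Pool.Agent.SZ
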