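import Pool.Agent.Lib.SZ.E00

/-!
# Module SZ2 (energy for fat arcs), E26: small and large primes
-/

namespace Pool.Agent.SZ

open NumberField Finset
open scoped Classical

section

variable {F : Type*} [Field F] [NumberField F]

/-- SPLITTING. Proof. `J ↦ (J ∩ prS, J ∩ prL)` is injective from `JJ (prI F Z) Z` to `(prS F z Z).powerset × JJ (prL F z Z) Z`
(`prI` is the disjoint union of `prS` and `prL`; the product over `J ∩ prL` is at most the product over `J`, all norms are `≥ 1`), with
`hJ J = hJ (J ∩ prS) * hJ (J ∩ prL)` and all `hJ ≥ 0` (norms of primes are `≥ 2`: `one_lt_absNorm`). And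
`∑ J ∈ (prS F z Z).powerset, hJ J = ∏ p ∈ prS F z Z, (1 + 1 / (N p - 1))` (`Finset.prod_one_add`, or `Finset.prod_add_one`). -/
theorem e26_split (z Z : ℕ) : ∑ J ∈ JJ (prI F Z) Z, hJ J ≤
    (∏ p ∈ prS F z Z, (1 + 1 / ((Ideal.absNorm p : ℝ) - 1))) * ∑ J ∈ JJ (prL F z Z) Z, hJ J := by
  have hpos : ∀ p ∈ prI F Z, (0 : ℝ) ≤ 1 / ((Ideal.absNorm p : ℝ) - 1) := by
    intro p hp
    rw [mem_prI] at hp
    have h1 := one_lt_absNorm hp.2.1 hp.1
    have h2 : (1 : ℝ) < Ideal.absNorm p := by exact_mod_cast h1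
    have h3 : (0 : ℝ) < (Ideal.absNorm p : ℝ) - 1 := by linarith
    positivity
  have hJpos : ∀ J ⊆ prI F Z, 0 ≤ hJ J := by
    intro J hJ1
    unfold hJ
    exact Finset.prod_nonneg fun p hp => hpos p (hJ1 hp)
  have hS : prS F z Z ⊆ prI F Z := Finset.filter_subset _ _
  have hL : prL F z Z ⊆ prI F Z := Finset.filter_subset _ _
  have h1 : ∏ p ∈ prS F z Z, (1 + 1 / ((Ideal.absNorm p : ℝ) - 1)) = ∑ J ∈ (prS F z Z).powerset, hJ J := by
    rw [Finset.prod_one_add]
    rfl
  rw [h1, Finset.sum_mul_sum, ← Finset.sum_product']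
  obtain ⟨φ, hφ⟩ : ∃ φ : Finset (Ideal (𝓞 F)) → Finset (Ideal (𝓞 F)) × Finset (Ideal (𝓞 F)),
      φ = fun J => (J.filter fun I => ¬ z < (Ideal.absNorm I).minFac, J.filter fun I => z < (Ideal.absNorm I).minFac) :=
    ⟨_, rfl⟩
  have hinj : Set.InjOn φ (JJ (prI F Z) Z) := by
    intro J _ J' _ h
    rw [hφ] at h
    simp only [Prod.mk.injEq] at h
    rw [← Finset.filter_union_filter_not_eq (fun I => z < (Ideal.absNorm I).minFac) J,
      ← Finset.filter_union_filter_not_eq (fun I => z < (Ideal.absNorm I).minFac) J', h.1, h.2]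
  have hval : ∀ J ∈ JJ (prI F Z) Z, hJ J = (fun x : Finset (Ideal (𝓞 F)) × Finset (Ideal (𝓞 F)) => hJ x.1 * hJ x.2) (φ J) := by
    intro J _
    rw [hφ]
    simp only
    unfold hJ
    rw [mul_comm]
    exact (Finset.prod_filter_mul_prod_filter_not J _ _).symm
  rw [Finset.sum_congr rfl hval,
    ← Finset.sum_image (f := fun x : Finset (Ideal (𝓞 F)) × Finset (Ideal (𝓞 F)) => hJ x.1 * hJ x.2) hinj]
  refine Finset.sum_le_sum_of_subset_of_nonneg ?_ ?_
  · intro x hx
    rw [Finset.mem_image] at hx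
    obtain ⟨J, hJm, rfl⟩ := hx
    unfold JJ at hJm
    rw [Finset.mem_filter, Finset.mem_powerset] at hJm
    rw [hφ, Finset.mem_product]
    constructor
    · simp only
      rw [Finset.mem_powerset]
      intro I hI
      rw [Finset.mem_filter] at hI
      unfold prS
      rw [Finset.mem_filter]
      exact ⟨hJm.1 hI.1, hI.2⟩
    · simp only
      unfold JJ
      rw [Finset.mem_filter, Finset.mem_powerset]
      constructor
      · intro I hI
        rw [Finset.mem_filter] at hI
        unfold prL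
        rw [Finset.mem_filter]
        exact ⟨hJm.1 hI.1, hI.2⟩
      · refine le_trans ?_ hJm.2
        refine Finset.prod_le_prod_of_subset_of_one_le' (Finset.filter_subset _ _) ?_
        intro I hI _
        have h2 := mem_prI.1 (hJm.1 hI)
        exact absNorm_pos h2.2.1
  · intro x hx _
    rw [Finset.mem_product, Finset.mem_powerset] at hx
    unfold JJ at hx
    rw [Finset.mem_filter, Finset.mem_powerset] at hx
    exact mul_nonneg (hJpos _ (hx.1.trans hS)) (hJpos _ (hx.2.1.trans hL))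

end

end Pool.Agent.SZ
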