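import Pool.Agent.Lib.SZ.E00
import Pool.Agent.Lib.SZ.E27
import Pool.Agent.Lib.Helper57.Mertens

/-!
# Module SZ2 (energy for fat arcs), E27B: the product over the small primes, bound
-/

namespace Pool.Agent.SZ

open NumberField Finset
open scoped Classical

section

variable {F : Type*} [Field F] [NumberField F]

/-- Proof. For `p ∈ prS F z Z` put `ℓ = minFac (N p)`, a prime number `≤ z` with `N p ≥ ℓ`, so
`1 + 1 / (N p - 1) = (1 - 1 / N p)⁻¹ ≤ (1 - 1 / ℓ)⁻¹`. Group by `ℓ` (`Finset.prod_fiberwise_of_maps_to`, target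
`Sieve.primesUpTo z`): every fibre has at most `n = dg F` elements (`e27_card`) and `(1 - 1 / ℓ)⁻¹ ≥ 1`, so the product is at most
`(∏ ℓ ∈ primesUpTo z, (1 - 1 / ℓ)⁻¹) ^ n ≤ (500 log z) ^ n` by `Pool.Agent.Lib.Helper57.prod_one_sub_inv_inv_le`
(`Pool/Agent/Lib/Helper57/Mertens.lean`). -/
theorem e27_small (z Z : ℕ) (hz : 2 ≤ z) :
    ∏ p ∈ prS F z Z, (1 + 1 / ((Ideal.absNorm p : ℝ) - 1)) ≤ (500 * Real.log z) ^ dg F := by
  have hmemS : ∀ p ∈ prS F z Z, (p.IsPrime ∧ p ≠ ⊥) ∧ (Ideal.absNorm p).minFac ≤ z := by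
    intro p hp
    unfold prS at hp
    rw [Finset.mem_filter, mem_prI, not_lt] at hp
    exact ⟨⟨hp.1.1, hp.1.2.1⟩, hp.2⟩
  have hprime : ∀ p ∈ prS F z Z, (Ideal.absNorm p).minFac.Prime := by
    intro p hp
    apply Nat.minFac_prime
    have := one_lt_absNorm (hmemS p hp).1.2 (hmemS p hp).1.1
    omega
  have hmaps : ∀ p ∈ prS F z Z, (Ideal.absNorm p).minFac ∈ Pool.Agent.Lib.Sieve.primesUpTo z := by
    intro p hp
    rw [Pool.Agent.Lib.Sieve.mem_primesUpTo]
    exact ⟨hprime p hp, (hmemS p hp).2⟩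
  rw [← Finset.prod_fiberwise_of_maps_to hmaps]
  have hfac : ∀ ℓ ∈ Pool.Agent.Lib.Sieve.primesUpTo z, (1 : ℝ) ≤ (1 - 1 / (ℓ : ℝ))⁻¹ := by
    intro ℓ hl
    have hl2 : (2 : ℝ) ≤ ℓ := by exact_mod_cast (Pool.Agent.Lib.Sieve.mem_primesUpTo.1 hl).1.two_le
    have h1 : (1 : ℝ) / ℓ ≤ 1 / 2 := one_div_le_one_div_of_le (by norm_num) hl2
    have h2 : (0 : ℝ) < 1 / ℓ := by positivity
    exact (one_le_inv₀ (by linarith)).2 (by linarith)
  have hstep : ∀ ℓ ∈ Pool.Agent.Lib.Sieve.primesUpTo z,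
      ∏ p ∈ prS F z Z with (Ideal.absNorm p).minFac = ℓ, (1 + 1 / ((Ideal.absNorm p : ℝ) - 1))
        ≤ ((1 - 1 / (ℓ : ℝ))⁻¹) ^ dg F := by
    intro ℓ hl
    have hl2 : (2 : ℝ) ≤ ℓ := by exact_mod_cast (Pool.Agent.Lib.Sieve.mem_primesUpTo.1 hl).1.two_le
    have h1 : (1 : ℝ) / ℓ ≤ 1 / 2 := one_div_le_one_div_of_le (by norm_num) hl2
    calc ∏ p ∈ prS F z Z with (Ideal.absNorm p).minFac = ℓ, (1 + 1 / ((Ideal.absNorm p : ℝ) - 1))
        ≤ ∏ p ∈ prS F z Z with (Ideal.absNorm p).minFac = ℓ, (1 - 1 / (ℓ : ℝ))⁻¹ := by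
          refine Finset.prod_le_prod ?_ ?_
          · intro p hp
            rw [Finset.mem_filter] at hp
            have h2 := one_lt_absNorm (hmemS p hp.1).1.2 (hmemS p hp.1).1.1
            have h3 : (1 : ℝ) < Ideal.absNorm p := by exact_mod_cast h2
            have h4 : (0 : ℝ) < (Ideal.absNorm p : ℝ) - 1 := by linarith
            positivity
          · intro p hp
            rw [Finset.mem_filter] at hp
            have h2 := one_lt_absNorm (hmemS p hp.1).1.2 (hmemS p hp.1).1.1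
            have h3 : (1 : ℝ) < Ideal.absNorm p := by exact_mod_cast h2
            have h4 : (0 : ℝ) < (Ideal.absNorm p : ℝ) - 1 := by linarith
            have h5 : ℓ ≤ Ideal.absNorm p := by
              rw [← hp.2]
              exact Nat.minFac_le (by omega)
            have h6 : (ℓ : ℝ) ≤ Ideal.absNorm p := by exact_mod_cast h5
            have h7 : (1 : ℝ) / ((Ideal.absNorm p : ℝ) - 1) ≤ 1 / ((ℓ : ℝ) - 1) :=
              one_div_le_one_div_of_le (by linarith) (by linarith)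
            have h8 : (1 - 1 / (ℓ : ℝ))⁻¹ = 1 + 1 / ((ℓ : ℝ) - 1) := by
              have h9 : (ℓ : ℝ) - 1 ≠ 0 := by linarith
              have h10 : (ℓ : ℝ) ≠ 0 := by linarith
              field_simp
              ring
            rw [h8]
            linarith
      _ = ((1 - 1 / (ℓ : ℝ))⁻¹) ^ (((prS F z Z).filter fun p => (Ideal.absNorm p).minFac = ℓ).card) := by
          rw [Finset.prod_const]
      _ ≤ ((1 - 1 / (ℓ : ℝ))⁻¹) ^ dg F := by
          apply pow_le_pow_right₀ (hfac ℓ hl)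
          apply e27_card _ _ ℓ
          · intro p hp
            rw [Finset.mem_filter] at hp
            exact hp.2
          · intro p hp
            rw [Finset.mem_filter] at hp
            exact (hmemS p hp.1).1
  refine (Finset.prod_le_prod ?_ hstep).trans ?_
  · intro ℓ _
    refine Finset.prod_nonneg fun p hp => ?_
    rw [Finset.mem_filter] at hp
    have h2 := one_lt_absNorm (hmemS p hp.1).1.2 (hmemS p hp.1).1.1
    have h3 : (1 : ℝ) < Ideal.absNorm p := by exact_mod_cast h2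
    have h4 : (0 : ℝ) < (Ideal.absNorm p : ℝ) - 1 := by linarith
    positivity
  · rw [Finset.prod_pow]
    apply pow_le_pow_left₀
    · exact Finset.prod_nonneg fun ℓ hl => zero_le_one.trans (hfac ℓ hl)
    · exact Pool.Agent.Lib.Helper57.prod_one_sub_inv_inv_le z hz

end

end Pool.Agent.SZ
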