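import Pool.Agent.Lib.SZ.E00
import Pool.Agent.Lib.SZ.E24
import Pool.Agent.Lib.SZ.E25
import Pool.Agent.Lib.SZ.E26
import Pool.Agent.Lib.SZ.E27B

/-!
# Module SZ2 (energy for fat arcs), E28: the Selberg sum; primes dividing b0
-/

namespace Pool.Agent.SZ

open NumberField Finset
open scoped Classical

section

variable {F : Type*} [Field F] [NumberField F]

theorem e28_hJ_nonneg {z Z : ℕ} {J : Finset (Ideal (𝓞 F))} (hJ1 : J ∈ JJ (prL F z Z) Z) : 0 ≤ hJ J := by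
  unfold hJ
  refine Finset.prod_nonneg fun p hp => ?_
  have h2 : J ⊆ prL F z Z := by
    unfold JJ at hJ1
    rw [Finset.mem_filter, Finset.mem_powerset] at hJ1
    exact hJ1.1
  have h3 := h2 hp
  unfold prL at h3
  rw [Finset.mem_filter, mem_prI] at h3
  have h4 := one_lt_absNorm h3.1.2.1 h3.1.1
  have h5 : (1 : ℝ) < Ideal.absNorm p := by exact_mod_cast h4
  have : 0 < (Ideal.absNorm p : ℝ) - 1 := by linarith
  positivity

/-- Proof: `e24_sum`, `e25_rad`, `e26_split`, `e27_small` and `∑ J, hJ J ≥ 0`. -/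
theorem e28_selberg : ∃ c : ℝ, 0 < c ∧ ∀ z Z : ℕ, 2 ≤ z → 1 ≤ Z →
    c * Real.log Z ≤ (500 * Real.log z) ^ dg F * ∑ J ∈ JJ (prL F z Z) Z, hJ J := by
  obtain ⟨c, hc, h⟩ := e24_sum (F := F)
  refine ⟨c, hc, ?_⟩
  intro z Z hz hZ
  refine (h Z hZ).trans ((e25_rad Z).trans ((e26_split z Z).trans ?_))
  exact mul_le_mul_of_nonneg_right (e27_small z Z hz) (Finset.sum_nonneg fun J hJ1 => e28_hJ_nonneg hJ1)

/-- Proof. `z0 = max 2 (absNorm (span {b0}))`. If `b0 ∈ p` then `p ∣ span {b0}`, so `N p ∣ absNorm (span {b0}) ≠ 0`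
(`Ideal.absNorm_dvd_absNorm_of_le`), so `z < minFac (N p) ≤ N p ≤ absNorm (span {b0}) ≤ z0 ≤ z`, a contradiction. -/
theorem e28_rough (b0 : 𝓞 F) (hb0 : b0 ≠ 0) : ∃ z0 : ℕ, 2 ≤ z0 ∧ ∀ z : ℕ, z0 ≤ z → ∀ Z : ℕ, ∀ p ∈ prL F z Z,
    b0 ∉ p := by
  refine ⟨max 2 (Ideal.absNorm (Ideal.span {b0})), le_max_left _ _, ?_⟩
  intro z hz Z p hp hb
  unfold prL at hp
  rw [Finset.mem_filter, mem_prI] at hp
  have h1 : Ideal.span {b0} ≤ p := by
    rw [Ideal.span_singleton_le_iff_mem]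
    exact hb
  have h2 : Ideal.absNorm p ∣ Ideal.absNorm (Ideal.span {b0}) := Ideal.absNorm_dvd_absNorm_of_le h1
  have h3 : Ideal.absNorm (Ideal.span {b0}) ≠ 0 := by
    intro h0
    rw [Ideal.absNorm_eq_zero_iff, Ideal.span_singleton_eq_bot] at h0
    exact hb0 h0
  have h4 := Nat.le_of_dvd (Nat.pos_of_ne_zero h3) h2
  have h5 : (Ideal.absNorm p).minFac ≤ Ideal.absNorm p := Nat.minFac_le (absNorm_pos hp.1.2.1)
  have h6 := hp.2
  have h7 : Ideal.absNorm (Ideal.span {b0}) ≤ z := (le_max_right _ _).trans hz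
  omega

end

end Pool.Agent.SZ
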