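import Pool.Agent.Lib.SZ.E00
import Pool.Agent.Lib.SZ.E08
import Pool.Agent.Lib.SZ.E14
import Pool.Agent.Lib.SZ.E15
import Pool.Agent.Lib.SZ.E22
import Pool.Agent.Lib.SZ.E28

/-!
# Module SZ2 (energy for fat arcs), E31: the main inequality
-/

namespace Pool.Agent.SZ

open NumberField Finset
open scoped Classical

section

variable {F : Type*} [Field F] [NumberField F]

/-- The sum of the Montgomery inequalities over `𝒥`. -/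
theorem e31_sum (A : Finset (𝓞 F)) (z Z : ℕ) (hA : ∀ p ∈ prL F z Z, ∀ a ∈ A, a ∉ p) (ψ : T F) :
    (∑ J ∈ JJ (prL F z Z) Z, hJ J) * ‖FA A ψ‖ ^ 2 ≤
      ∑ σ ∈ (JJ (prL F z Z) Z).biUnion (fun J => TS (∏ p ∈ J, p)), ‖FA A (ψ + σ)‖ ^ 2 := by
  rw [Finset.sum_biUnion, Finset.sum_mul]
  · refine Finset.sum_le_sum fun J hJ1 => ?_
    obtain ⟨h1, -, -, -⟩ := e15_JJ hJ1
    refine e14_mont J h1 A ?_ ψ
    intro p hp a ha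
    have h2 : J ⊆ prL F z Z := by
      unfold JJ at hJ1
      rw [Finset.mem_filter, Finset.mem_powerset] at hJ1
      exact hJ1.1
    exact hA p (h2 hp) a ha
  · intro J hJ1 J' hJ2 hne
    have hJ1' := Finset.mem_coe.1 hJ1
    have hJ2' := Finset.mem_coe.1 hJ2
    obtain ⟨h1, h1', -, -⟩ := e15_JJ hJ1'
    obtain ⟨h2, h2', -, -⟩ := e15_JJ hJ2'
    rw [Function.onFun, Finset.disjoint_left]
    intro σ hσ hσ'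
    rw [e09_memTS h1'] at hσ
    rw [e09_memTS h2'] at hσ'
    exact hne (e15_inj h1 h2 (hσ.symm.trans hσ'))

/-- MAIN INEQUALITY. See the outline in the steps below. -/
theorem e31_main (b0 : 𝓞 F) (hb0 : b0 ≠ 0) : ∃ z0 : ℕ, 2 ≤ z0 ∧ ∀ κ : ℕ, ∃ R0 : ℕ, ∀ R : ℕ, R0 ≤ R →
    ∀ A : Finset (𝓞 F), (∀ a ∈ A, InB R a) → Rough b0 R A → ∀ z : ℕ, z0 ≤ z → ∀ M ⊆ grid F (4 * R),
    (∀ ψ ∈ M, ∃ ψ0 : T F, ∃ q : ℕ, 1 ≤ q ∧ (q : ℝ) ≤ (Real.log R) ^ κ ∧ (∀ p : ℕ, p.Prime → p ∣ q → p ≤ z) ∧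
      q • ψ0 = 0 ∧ nT (ψ - ψ0) ≤ (Real.log R) ^ κ / R) →
    ∀ Z : ℕ, 1 ≤ Z → Z ^ 4 ≤ R →
    (∑ J ∈ JJ (prL F z Z) Z, hJ J) * ∑ ψ ∈ M, ‖FA A ψ‖ ^ 2 ≤ (96 * (R : ℝ)) ^ dg F * A.card := by
  obtain ⟨z0, hz0, hrb⟩ := e28_rough b0 hb0
  refine ⟨z0, hz0, ?_⟩
  intro κ
  obtain ⟨R0, hR01, hfam⟩ := e22_family (F := F) κ
  refine ⟨R0, ?_⟩
  intro R hR A hA hrough z hz M hM hpts Z hZ1 hZ4
  have hR1 : 1 ≤ R := hR01.trans hR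
  have hAp : ∀ p ∈ prL F z Z, ∀ a ∈ A, a ∉ p := by
    intro p hp a ha
    have h1 : p ∈ prI F Z := by
      unfold prL at hp
      exact (Finset.mem_filter.1 hp).1
    rw [mem_prI] at h1
    refine hrough a ha p h1.1 h1.2.1 ?_ (hrb z hz Z p hp)
    calc (Ideal.absNorm p) ^ 4 ≤ Z ^ 4 := Nat.pow_le_pow_left h1.2.2 4
      _ ≤ R := hZ4
      _ = R ^ 1 := (pow_one R).symm
      _ ≤ R ^ dg F := Nat.pow_le_pow_right hR1 dg_pos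
  set Sg : Finset (T F) := (JJ (prL F z Z) Z).biUnion (fun J => TS (∏ p ∈ J, p)) with hSg
  have h2 : (∑ J ∈ JJ (prL F z Z) Z, hJ J) * ∑ ψ ∈ M, ‖FA A ψ‖ ^ 2 ≤
      ∑ i ∈ M ×ˢ Sg, ‖FA A (i.1 + i.2)‖ ^ 2 := by
    rw [Finset.sum_product, Finset.mul_sum]
    exact Finset.sum_le_sum fun ψ _ => e31_sum A z Z hAp ψ
  refine h2.trans ?_
  refine e08_ls (M ×ˢ Sg) (fun i => i.1 + i.2) R hR1 ?_ A hA
  rintro ⟨ψ, σ⟩ hi ⟨ψ', σ'⟩ hj hne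
  rw [Finset.mem_product] at hi hj
  obtain ⟨hψ, hσ⟩ := hi
  obtain ⟨hψ', hσ'⟩ := hj
  dsimp only at hψ hσ hψ' hσ'
  rw [hSg, Finset.mem_biUnion] at hσ hσ'
  obtain ⟨J, hJ1, hσJ⟩ := hσ
  obtain ⟨J', hJ2, hσJ'⟩ := hσ'
  obtain ⟨-, a1, a2, a3⟩ := e15_JJ hJ1
  obtain ⟨-, b1, b2, b3⟩ := e15_JJ hJ2
  rw [e09_memTS a1] at hσJ
  rw [e09_memTS b1] at hσJ'
  obtain ⟨ψ0, q, c1, c2, c3, c4, c5⟩ := hpts ψ hψ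
  obtain ⟨ψ0', q', d1, d2, d3, d4, d5⟩ := hpts ψ' hψ'
  by_contra hlt
  rw [not_le] at hlt
  have h3 := hfam R hR Z hZ1 hZ4 z ψ (hM hψ) ψ' (hM hψ') ψ0 ψ0' q q' c1 c2 c3 c4 c5 d1 d2 d3 d4 d5
    (∏ p ∈ J, p) (∏ p ∈ J', p) a1 b1 a2 b2 a3 b3 σ σ' (kills_iff.2 hσJ.ge) (kills_iff.2 hσJ'.ge) hlt
  exact hne (Prod.ext h3.1 h3.2)

end

end Pool.Agent.SZ
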