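import Pool.Agent.Lib.SZ.E00
import Pool.Agent.Lib.SZ.E28
import Pool.Agent.Lib.SZ.E31

/-!
# Module SZ2 (energy for fat arcs), E32: the energy theorem
-/

namespace Pool.Agent.SZ

open NumberField Finset
open scoped Classical

section

variable {F : Type*} [Field F] [NumberField F]

/-- The largest `Z` with `Z ^ 4 ≤ R`. -/
theorem e32_root (R : ℕ) (hR : 256 ≤ R) : ∃ Z : ℕ, 1 ≤ Z ∧ Z ^ 4 ≤ R ∧ Real.log R / 8 ≤ Real.log Z := by
  refine ⟨Nat.sqrt (Nat.sqrt R), ?_, ?_, ?_⟩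
  · rw [Nat.succ_le_iff, Nat.sqrt_pos, Nat.sqrt_pos]
    omega
  · have h1 := Nat.sqrt_le' (Nat.sqrt R)
    have h2 := Nat.sqrt_le' R
    calc Nat.sqrt (Nat.sqrt R) ^ 4 = (Nat.sqrt (Nat.sqrt R) ^ 2) ^ 2 := by ring
      _ ≤ (Nat.sqrt R) ^ 2 := Nat.pow_le_pow_left h1 2
      _ ≤ R := h2
  · set Z := Nat.sqrt (Nat.sqrt R) with hZ
    have hZ1 : 1 ≤ Z := by
      rw [Nat.succ_le_iff, hZ, Nat.sqrt_pos, Nat.sqrt_pos]
      omega
    have h1 : Nat.sqrt R < (Z + 1) ^ 2 := Nat.lt_succ_sqrt' _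
    have h2 : R < (Nat.sqrt R + 1) ^ 2 := Nat.lt_succ_sqrt' _
    have h3 : R ≤ 16 * Z ^ 4 := by
      have h4 : Nat.sqrt R + 1 ≤ (Z + 1) ^ 2 := h1
      have h5 : (Z + 1) ^ 2 ≤ 4 * Z ^ 2 := by nlinarith
      calc R ≤ (Nat.sqrt R + 1) ^ 2 := h2.le
        _ ≤ (4 * Z ^ 2) ^ 2 := Nat.pow_le_pow_left (h4.trans h5) 2
        _ = 16 * Z ^ 4 := by ring
    have hZ0 : (0 : ℝ) < Z := by exact_mod_cast hZ1
    have hR0 : (0 : ℝ) < R := by
      have : 0 < R := by omega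
      exact_mod_cast this
    have h6 : Real.log R ≤ Real.log 16 + 4 * Real.log Z := by
      have h7 : (R : ℝ) ≤ 16 * (Z : ℝ) ^ 4 := by exact_mod_cast h3
      have h8 := Real.log_le_log hR0 h7
      rw [Real.log_mul (by norm_num) (by positivity), Real.log_pow] at h8
      push_cast at h8
      exact h8
    have h9 : 2 * Real.log 16 ≤ Real.log R := by
      have h10 : ((16 : ℝ)) ^ 2 ≤ R := by
        have : (256 : ℝ) ≤ R := by exact_mod_cast hR
        linarith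
      have h11 := Real.log_le_log (by norm_num) h10
      rw [Real.log_pow] at h11
      push_cast at h11
      exact h11
    linarith

/-- ENERGY. Proof. `c` from `e28_selberg`, `z0` from `e31_main`, `k = n = dg F`, `C = 8 / c * 48000 ^ n`. For `R ≥ max R0 256` let `Z` be the
largest integer with `Z ^ 4 ≤ R`: `log Z ≥ log R / 8`. Then
`c * (log R / 8) * S ≤ c * log Z * S ≤ (500 log z) ^ n * (∑ hJ J) * S ≤ (500 log z) ^ n (96 R) ^ n |A|` with `S = ∑ ψ ∈ M, ‖FA A ψ‖ ^ 2`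
(`e28_selberg`, `e31_main`), i.e. `S ≤ 8 / c * 48000 ^ n * (log z) ^ n * (R ^ n |A| / log R)`. -/
theorem e32_energy (b0 : 𝓞 F) (hb0 : b0 ≠ 0) : Energy F b0 := by
  obtain ⟨c, hc, hsel⟩ := e28_selberg (F := F)
  obtain ⟨z0, hz0, hmain⟩ := e31_main b0 hb0
  refine ⟨8 / c * 48000 ^ dg F, dg F, z0, by positivity, ?_⟩
  intro κ
  obtain ⟨R0, hR0⟩ := hmain κ
  refine ⟨max R0 256, ?_⟩
  intro R hR A hA hrough z hz _ M hM hpts
  obtain ⟨Z, hZ1, hZ4, hlog⟩ := e32_root R (le_trans (le_max_right _ _) hR)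
  have h1 := hR0 R (le_trans (le_max_left _ _) hR) A hA hrough z hz M hM hpts Z hZ1 hZ4
  have h2 := hsel z Z (hz0.trans hz) hZ1
  set S := ∑ ψ ∈ M, ‖FA A ψ‖ ^ 2 with hS
  set G := ∑ J ∈ JJ (prL F z Z) Z, hJ J with hG
  have hS0 : 0 ≤ S := Finset.sum_nonneg fun _ _ => by positivity
  have hR256 : (256 : ℝ) ≤ R := by exact_mod_cast le_trans (le_max_right _ _) hR
  have hlR : 0 < Real.log R := Real.log_pos (by linarith)
  have hz2 : (2 : ℝ) ≤ z := by exact_mod_cast hz0.trans hz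
  have hlz : 0 ≤ Real.log z := Real.log_nonneg (by linarith)
  have h3 : c * (Real.log R / 8) * S ≤ (500 * Real.log z) ^ dg F * ((96 * (R : ℝ)) ^ dg F * A.card) := by
    calc c * (Real.log R / 8) * S ≤ c * Real.log Z * S := by
          apply mul_le_mul_of_nonneg_right _ hS0
          exact mul_le_mul_of_nonneg_left hlog hc.le
      _ ≤ (500 * Real.log z) ^ dg F * G * S := mul_le_mul_of_nonneg_right h2 hS0
      _ = (500 * Real.log z) ^ dg F * (G * S) := by ring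
      _ ≤ _ := mul_le_mul_of_nonneg_left h1 (by positivity)
  have h4 : (500 * Real.log z) ^ dg F * ((96 * (R : ℝ)) ^ dg F * A.card) =
      48000 ^ dg F * Real.log z ^ dg F * ((R : ℝ) ^ dg F * A.card) := by
    rw [mul_pow, mul_pow, show (48000 : ℝ) = 500 * 96 by norm_num, mul_pow]
    ring
  rw [h4] at h3
  have h5 : 8 / c * 48000 ^ dg F * Real.log z ^ dg F * ((R : ℝ) ^ dg F * A.card / Real.log R) =
      (48000 ^ dg F * Real.log z ^ dg F * ((R : ℝ) ^ dg F * A.card)) / (c * (Real.log R / 8)) := by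
    field_simp
  rw [h5, le_div_iff₀ (by positivity)]
  linarith

end

end Pool.Agent.SZ
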