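import Pool.Agent.Lib.SZ.Defs
import Pool.Agent.Lib.CFT.D1

/-!
# SZ: interface with the density of prime ideals (`BalPrimes`, module SZ4) and with the descent (`PrDiff`)
-/

namespace Pool.Agent.SZ

open NumberField CFT

/-- SZ4 (density): for arbitrarily large `R` there are at least `δ R ^ n / log R` algebraic integers `a` in the box of
side `R` such that `a / b0` is a prime element (outside `S`) in the class of `x₀` of the ray class group, with different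
prime ideals, and the primes are large. -/
def BalPrimes (F : Type) [Field F] [NumberField F] : Prop :=
  ∀ (S : Finset (Pr F)) (N : ℕ) (x₀ : F), x₀ ≠ 0 → ∃ (b0 : ℕ) (δ : ℝ), 0 < b0 ∧ 0 < δ ∧ ∀ R1 : ℕ, ∃ R : ℕ, R1 ≤ R ∧
    ∃ (A : Finset (𝓞 F)) (p : 𝓞 F → Pr F), (∀ a ∈ A, InB R a) ∧ Rough (b0 : 𝓞 F) R A ∧
      δ * (R : ℝ) ^ dg F / Real.log R ≤ A.card ∧ (∀ a ∈ A, ∀ a' ∈ A, p a = p a' → a = a') ∧
      ∀ a ∈ A, a ≠ 0 ∧ p a ∉ S ∧ Ray S N ((a : F) / (b0 : F) / x₀) ∧ (∀ v ∉ S, v ≠ p a → od v ((a : F) / (b0 : F)) = 0) ∧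
        od (p a) ((a : F) / (b0 : F)) = 1

/-- The statement needed by the descent (the same as `H60R.PrimeDiff`). -/
def PrDiff (F : Type) [Field F] [NumberField F] (m : ℕ) : Prop :=
  ∀ (S : Finset (Pr F)) (N : ℕ) (x₀ : F), x₀ ≠ 0 → ∀ c : F, c ≠ 0 →
    ∃ (π₁ π₂ X : F) (p₁ p₂ : Pr F), X ≠ 0 ∧ p₁ ≠ p₂ ∧ p₁ ∉ S ∧ p₂ ∉ S ∧ π₁ ≠ 0 ∧ π₂ ≠ 0 ∧
      Ray S N (π₁ / x₀) ∧ Ray S N (π₂ / x₀) ∧
      (∀ v ∉ S, v ≠ p₁ → od v π₁ = 0) ∧ od p₁ π₁ = 1 ∧ (∀ v ∉ S, v ≠ p₂ → od v π₂ = 0) ∧ od p₂ π₂ = 1 ∧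
      π₂ - π₁ = c * X ^ m

end Pool.Agent.SZ
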