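import Pool.Agent.Lib.SZ.Iface
import Pool.Agent.Lib.SZ.B6

/-!
# SZ: from Theorem B and the density of balanced primes to two prime elements with difference `c X ^ m`
-/

namespace Pool.Agent.SZ.Asm

open NumberField CFT

theorem prDiff_of_thmB (F : Type) [Field F] [NumberField F] (m : ℕ) (hm : 1 ≤ m) (hP : BalPrimes F)
    (hB : ∀ (b0 : ℕ) (c : 𝓞 F), 0 < b0 → c ≠ 0 → ThmB F (b0 : 𝓞 F) c m) : PrDiff F m := by
  intro S N x₀ hx₀ c hc
  obtain ⟨b0, δ, hb0, hδ, hbal⟩ := hP S N x₀ hx₀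
  -- an integral constant
  obtain ⟨α, β, hβ, hαβ⟩ := IsFractionRing.div_surjective (A := 𝓞 F) c
  have hβ0 : β ≠ 0 := nonZeroDivisors.ne_zero hβ
  have hβF : (β : F) ≠ 0 := by exact_mod_cast hβ0
  have hα0 : α ≠ 0 := by
    rintro rfl
    rw [map_zero, zero_div] at hαβ
    exact hc hαβ.symm
  set c' : 𝓞 F := (b0 : 𝓞 F) * α * β ^ (m - 1) with hc'
  have hb0O : (b0 : 𝓞 F) ≠ 0 := by exact_mod_cast hb0.ne'
  have hb0F : (b0 : F) ≠ 0 := by exact_mod_cast hb0.ne'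
  have hc'0 : c' ≠ 0 := mul_ne_zero (mul_ne_zero hb0O hα0) (pow_ne_zero _ hβ0)
  have hc'F : (c' : F) = (b0 : F) * c * (β : F) ^ m := by
    rw [← hαβ, hc']
    obtain ⟨m', rfl⟩ : ∃ m', m = m' + 1 := ⟨m - 1, by omega⟩
    push_cast
    rw [pow_succ (β : F)]
    show (b0 : F) * (α : F) * (β : F) ^ m' = (b0 : F) * ((α : F) / (β : F)) * ((β : F) ^ m' * (β : F))
    field_simp
  obtain ⟨R0, hR0⟩ := hB b0 c' hb0 hc'0 δ hδ
  obtain ⟨R, hR, A, p, hAbox, hRough, hcard, hinj, hA⟩ := hbal R0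
  obtain ⟨a1, ha1, a2, ha2, Y, hY0, hY⟩ := hR0 R hR A hAbox hRough hcard
  obtain ⟨h1a, h1b, h1c, h1d, h1e⟩ := hA a1 ha1
  obtain ⟨h2a, h2b, h2c, h2d, h2e⟩ := hA a2 ha2
  have hYF : (Y : F) ≠ 0 := by exact_mod_cast hY0
  have hne : a1 ≠ a2 := by
    intro h
    rw [h, sub_self] at hY
    exact mul_ne_zero hc'0 (pow_ne_zero m hY0) hY.symm
  have h1F : (a1 : F) ≠ 0 := by exact_mod_cast h1a
  have h2F : (a2 : F) ≠ 0 := by exact_mod_cast h2a
  refine ⟨(a1 : F) / (b0 : F), (a2 : F) / (b0 : F), (β : F) * (Y : F), p a1, p a2, mul_ne_zero hβF hYF, ?_, h1b, h2b,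
    div_ne_zero h1F hb0F, div_ne_zero h2F hb0F, h1c, h2c, h1d, h1e, h2d, h2e, ?_⟩
  · intro h
    exact hne (hinj a1 ha1 a2 ha2 h)
  · have hYF' : (a2 : F) - (a1 : F) = (c' : F) * (Y : F) ^ m := by
      have := congrArg (fun z : 𝓞 F => (z : F)) hY
      simpa using this
    rw [← sub_div, hYF', hc'F, mul_pow]
    field_simp

/-- The main theorem of module SZ, from its three inputs. -/
theorem prDiff (F : Type) [Field F] [NumberField F] (m : ℕ) (hm : 1 ≤ m) (hP : BalPrimes F) (hW : Weyl F m)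
    (hE : ∀ b0 : ℕ, 0 < b0 → Energy F (b0 : 𝓞 F)) : PrDiff F m :=
  prDiff_of_thmB F m hm hP fun b0 c hb0 hc => thmB (b0 : 𝓞 F) c hc m hm hW (hE b0 hb0)

end Pool.Agent.SZ.Asm
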