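import Pool.Agent.Lib.CFT.LD

/-!
# SZ4, part 1: from the Dirichlet density to the number of primes at arbitrarily large scales
-/

namespace Pool.Agent.SZ.Asm

open NumberField CFT Finset

/-- `∑ q^k / (k+1) ≤ 2 (log 2 + log (1/(s-1)))` for `q = 2^(-(s-1))`. -/
theorem geo_log (s : ℝ) (hs : 1 < s) (hs2 : s ≤ 2) (M : ℕ) :
    ∑ k ∈ Finset.range M, ((2 : ℝ) ^ (-(s - 1))) ^ k / (k + 1) ≤ 2 * (Real.log 2 + Real.log (1 / (s - 1))) := by
  set q : ℝ := (2 : ℝ) ^ (-(s - 1)) with hq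
  have hq0 : 0 < q := by positivity
  have hx0 : 0 < s - 1 := by linarith
  have hq1 : q < 1 := by
    rw [hq]
    exact Real.rpow_lt_one_of_one_lt_of_neg (by norm_num) (by linarith)
  have hqh : 1 / 2 ≤ q := by
    rw [hq]
    have : (2 : ℝ) ^ (-(1 : ℝ)) ≤ (2 : ℝ) ^ (-(s - 1)) := Real.rpow_le_rpow_of_exponent_le (by norm_num) (by linarith)
    rwa [Real.rpow_neg_one, ← one_div] at this
  -- 1 - q ≥ (s - 1) / 2
  have h1 : (s - 1) / 2 ≤ 1 - q := by
    have hconv := (convexOn_exp).2 (Set.mem_univ (0 : ℝ)) (Set.mem_univ (-Real.log 2))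
      (show 0 ≤ 1 - (s - 1) by linarith) (show 0 ≤ s - 1 by linarith) (by ring)
    simp only [smul_eq_mul, mul_zero, zero_add, Real.exp_zero, mul_one, Real.exp_neg,
      Real.exp_log (by norm_num : (0 : ℝ) < 2)] at hconv
    have h2 : q = Real.exp ((s - 1) * -Real.log 2) := by
      rw [hq, Real.rpow_def_of_pos (by norm_num)]
      congr 1
      ring
    rw [h2]
    linarith
  have hsum := Real.hasSum_pow_div_log_of_abs_lt_one (show |q| < 1 by rw [abs_of_pos hq0]; exact hq1)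
  have h3 : ∑ k ∈ Finset.range M, q ^ (k + 1) / (k + 1) ≤ -Real.log (1 - q) := by
    rw [← hsum.tsum_eq]
    exact hsum.summable.sum_le_tsum _ (fun k _ => by positivity)
  have h4 : -Real.log (1 - q) ≤ Real.log 2 + Real.log (1 / (s - 1)) := by
    rw [← Real.log_mul (by norm_num) (by positivity), ← Real.log_inv]
    apply Real.log_le_log (by rw [inv_pos]; linarith)
    rw [mul_one_div, ← one_div, div_le_div_iff₀ (by linarith) hx0]
    linarith
  have h5 : ∑ k ∈ Finset.range M, q ^ k / (k + 1) ≤ 2 * ∑ k ∈ Finset.range M, q ^ (k + 1) / (k + 1) := by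
    rw [Finset.mul_sum]
    refine Finset.sum_le_sum fun k _ => ?_
    rw [pow_succ]
    have h6 : q ^ k / ((k : ℝ) + 1) ≤ 2 * q * (q ^ k / ((k : ℝ) + 1)) := by
      have : 0 ≤ q ^ k / ((k : ℝ) + 1) := by positivity
      nlinarith
    refine h6.trans (le_of_eq ?_)
    ring
  linarith

/-- If the counting function of a set `P` (with a size function `N : P → ℕ`, `N ≥ 2`, finite fibres) satisfies
`π(2^(k+1)) ≤ δ0 2^(k+1)/(k+1) + B` for all `k`, then the Dirichlet series is at most `4 δ0 (log 2 + log 1/(s-1)) + 2 B`. -/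
theorem dirichlet_upper {α : Type*} (N : α → ℕ) (P : Set α) (hN : ∀ v ∈ P, 2 ≤ N v) (δ0 B : ℝ) (hδ0 : 0 ≤ δ0) (hB : 0 ≤ B)
    (hcount : ∀ k : ℕ, 1 ≤ k → ∀ Φ : Finset α, (∀ v ∈ Φ, v ∈ P ∧ N v < 2 ^ (k + 1)) →
      (Φ.card : ℝ) ≤ δ0 * 2 ^ (k + 1) / (k + 1) + B)
    (s : ℝ) (hs : 1 < s) (hs2 : s ≤ 2) :
    ∑' v : α, Set.indicator P (fun v => (N v : ℝ) ^ (-s)) v ≤ 4 * δ0 * (Real.log 2 + Real.log (1 / (s - 1))) + 2 * B := by
  classical
  have hlog0 : 0 ≤ Real.log 2 + Real.log (1 / (s - 1)) := by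
    have h1 := Real.log_pos (by norm_num : (1 : ℝ) < 2)
    have h2 : 0 ≤ Real.log (1 / (s - 1)) := by
      apply Real.log_nonneg
      rw [le_div_iff₀ (by linarith)]
      linarith
    linarith
  apply Real.tsum_le_of_sum_le
  · intro v
    apply Set.indicator_nonneg
    intro v _
    positivity
  intro Φ0
  set Φ := Φ0.filter (· ∈ P) with hΦ
  have h0 : ∑ v ∈ Φ0, Set.indicator P (fun v => (N v : ℝ) ^ (-s)) v = ∑ v ∈ Φ, (N v : ℝ) ^ (-s) := by
    rw [hΦ, Finset.sum_filter]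
    rfl
  rw [h0]
  set k : α → ℕ := fun v => Nat.log 2 (N v) with hk
  obtain ⟨M, hM⟩ : ∃ M : ℕ, ∀ v ∈ Φ, k v < M := by
    refine ⟨(Φ.sup k) + 1, fun v hv => ?_⟩
    have := Finset.le_sup (f := k) hv
    omega
  rw [← Finset.sum_fiberwise_of_maps_to (t := Finset.range M) (g := k) (fun v hv => Finset.mem_range.2 (hM v hv))]
  have hterm : ∀ j ∈ Finset.range M, ∑ v ∈ Φ with k v = j, (N v : ℝ) ^ (-s)
      ≤ 2 * δ0 * (((2 : ℝ) ^ (-(s - 1))) ^ j / (j + 1)) + B * (1 / 2) ^ j := by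
    intro j _
    have hcard : ((Φ.filter fun v => k v = j).card : ℝ) ≤ δ0 * 2 ^ (j + 1) / (j + 1) + B := by
      rcases Nat.eq_zero_or_pos j with hj | hj
      · have : Φ.filter (fun v => k v = j) = ∅ := by
          apply Finset.filter_eq_empty_iff.2
          intro v hv hkv
          rw [hΦ, Finset.mem_filter] at hv
          have h2 := hN v hv.2
          rw [hk, hj] at hkv
          simp only at hkv
          rw [Nat.log_eq_zero_iff] at hkv
          omega
        rw [this, Finset.card_empty]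
        push_cast
        positivity
      · refine hcount j hj _ ?_
        intro v hv
        rw [Finset.mem_filter, hΦ, Finset.mem_filter] at hv
        refine ⟨hv.1.2, ?_⟩
        rw [← hv.2]
        exact Nat.lt_pow_succ_log_self (by norm_num) _
    have hbd : ∀ v ∈ Φ.filter (fun v => k v = j), (N v : ℝ) ^ (-s) ≤ ((2 : ℝ) ^ j) ^ (-s) := by
      intro v hv
      rw [Finset.mem_filter, hΦ, Finset.mem_filter] at hv
      have h2 : 2 ^ j ≤ N v := by
        rw [← hv.2]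
        apply Nat.pow_log_le_self
        have := hN v hv.1.2
        omega
      have h3 : (2 : ℝ) ^ j ≤ N v := by exact_mod_cast h2
      exact Real.rpow_le_rpow_of_nonpos (by positivity) h3 (by linarith)
    have hpow : ((2 : ℝ) ^ j) ^ (-s) = ((2 : ℝ) ^ (-(s - 1))) ^ j * (1 / 2) ^ j := by
      rw [← Real.rpow_natCast 2 j, ← Real.rpow_mul (by norm_num), ← Real.rpow_natCast, ← Real.rpow_mul (by norm_num),
        one_div, inv_pow, ← Real.rpow_natCast 2 j, ← Real.rpow_neg (by norm_num), ← Real.rpow_add (by norm_num)]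
      congr 1
      ring
    calc ∑ v ∈ Φ with k v = j, (N v : ℝ) ^ (-s) ≤ ∑ v ∈ Φ with k v = j, ((2 : ℝ) ^ j) ^ (-s) := Finset.sum_le_sum hbd
      _ = ((Φ.filter fun v => k v = j).card : ℝ) * ((2 : ℝ) ^ j) ^ (-s) := by
          rw [Finset.sum_const, nsmul_eq_mul]
      _ ≤ (δ0 * 2 ^ (j + 1) / (j + 1) + B) * ((2 : ℝ) ^ j) ^ (-s) := by
          apply mul_le_mul_of_nonneg_right hcard
          positivity
      _ = 2 * δ0 * (((2 : ℝ) ^ (-(s - 1))) ^ j / (j + 1)) + B * (((2 : ℝ) ^ (-(s - 1))) ^ j * (1 / 2) ^ j) := by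
          rw [hpow, add_mul]
          congr 1
          rw [pow_succ]
          have h2 : (2 : ℝ) ^ j * (1 / 2) ^ j = 1 := by
            rw [← mul_pow]; norm_num
          calc δ0 * (2 ^ j * 2) / (j + 1) * (((2 : ℝ) ^ (-(s - 1))) ^ j * (1 / 2) ^ j)
              = 2 * δ0 * (((2 : ℝ) ^ (-(s - 1))) ^ j / (j + 1)) * (2 ^ j * (1 / 2) ^ j) := by ring
            _ = _ := by rw [h2, mul_one]
      _ ≤ 2 * δ0 * (((2 : ℝ) ^ (-(s - 1))) ^ j / (j + 1)) + B * (1 / 2) ^ j := by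
          apply add_le_add le_rfl
          apply mul_le_mul_of_nonneg_left _ hB
          have hq1 : ((2 : ℝ) ^ (-(s - 1))) ^ j ≤ 1 := by
            apply pow_le_one₀ (by positivity)
            exact Real.rpow_le_one_of_one_le_of_nonpos (by norm_num) (by linarith)
          have : (0 : ℝ) ≤ (1 / 2) ^ j := by positivity
          nlinarith
  refine (Finset.sum_le_sum hterm).trans ?_
  rw [Finset.sum_add_distrib, ← Finset.mul_sum, ← Finset.mul_sum]
  have h5 := geo_log s hs hs2 M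
  have h6 : ∑ j ∈ Finset.range M, (1 / 2 : ℝ) ^ j ≤ 2 := by
    have h7 : ∑ j ∈ Finset.range M, (1 / 2 : ℝ) ^ j ≤ ∑' j : ℕ, (1 / 2 : ℝ) ^ j :=
      summable_geometric_two.sum_le_tsum _ (fun _ _ => by positivity)
    rwa [tsum_geometric_two] at h7
  have h8 : 2 * δ0 * ∑ j ∈ Finset.range M, ((2 : ℝ) ^ (-(s - 1))) ^ j / (j + 1)
      ≤ 2 * δ0 * (2 * (Real.log 2 + Real.log (1 / (s - 1)))) := mul_le_mul_of_nonneg_left h5 (by positivity)
  have h9 : B * ∑ j ∈ Finset.range M, (1 / 2 : ℝ) ^ j ≤ B * 2 := mul_le_mul_of_nonneg_left h6 hB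
  linarith

/-- From the Dirichlet density to counting at arbitrarily large scales. -/
theorem count_scales {α : Type*} (N : α → ℕ) (P : Set α) (hN : ∀ v ∈ P, 2 ≤ N v) (hfin : ∀ t : ℕ, {v | v ∈ P ∧ N v ≤ t}.Finite)
    (δ C : ℝ) (hδ : 0 < δ) (h : ∀ s ∈ Set.Ioc (1 : ℝ) 2,
      δ * Real.log (1 / (s - 1)) - C ≤ ∑' v : α, Set.indicator P (fun v => (N v : ℝ) ^ (-s)) v) :
    ∃ δ0 : ℝ, 0 < δ0 ∧ ∀ t0 : ℕ, ∃ t : ℕ, t0 ≤ t ∧ δ0 * t / Real.log t ≤ ((hfin t).toFinset.card : ℝ) := by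
  classical
  refine ⟨δ * Real.log 2 / 8, by have := Real.log_pos (by norm_num : (1 : ℝ) < 2); positivity, ?_⟩
  intro t0
  by_contra hcon
  push Not at hcon
  have hl2 := Real.log_pos (by norm_num : (1 : ℝ) < 2)
  set B : ℝ := ((hfin t0).toFinset.card : ℝ) with hB
  have hup : ∀ s ∈ Set.Ioc (1 : ℝ) 2, ∑' v : α, Set.indicator P (fun v => (N v : ℝ) ^ (-s)) v
      ≤ 4 * (δ / 8) * (Real.log 2 + Real.log (1 / (s - 1))) + 2 * B := by
    intro s hs
    apply dirichlet_upper N P hN (δ / 8) B (by positivity) (by positivity) _ s hs.1 hs.2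
    intro k hk Φ hΦ
    rcases le_or_gt t0 (2 ^ (k + 1)) with h1 | h1
    · have h2 := hcon (2 ^ (k + 1)) h1
      have h3 : Φ ⊆ (hfin (2 ^ (k + 1))).toFinset := by
        intro v hv
        rw [Set.Finite.mem_toFinset]
        exact ⟨(hΦ v hv).1, (hΦ v hv).2.le⟩
      have h4 : (Φ.card : ℝ) ≤ ((hfin (2 ^ (k + 1))).toFinset.card : ℝ) := by exact_mod_cast Finset.card_le_card h3
      refine (h4.trans h2.le).trans ?_
      push_cast
      rw [Real.log_pow]
      have h5 : δ * Real.log 2 / 8 * 2 ^ (k + 1) / (((k + 1 : ℕ) : ℝ) * Real.log 2) = δ / 8 * 2 ^ (k + 1) / (k + 1) := by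
        push_cast
        field_simp
      rw [h5]
      have : 0 ≤ B := by positivity
      linarith
    · have h3 : Φ ⊆ (hfin t0).toFinset := by
        intro v hv
        rw [Set.Finite.mem_toFinset]
        exact ⟨(hΦ v hv).1, ((hΦ v hv).2.trans h1).le⟩
      have h4 : (Φ.card : ℝ) ≤ B := by
        rw [hB]
        exact_mod_cast Finset.card_le_card h3
      have : 0 ≤ δ / 8 * 2 ^ (k + 1) / ((k : ℝ) + 1) := by positivity
      linarith
  -- choose s close to 1
  obtain ⟨T, hT⟩ : ∃ T : ℝ, T = max 1 (2 / δ * (C + δ / 2 * Real.log 2 + 2 * B + 1)) := ⟨_, rfl⟩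
  have hT1 : 1 ≤ T := by rw [hT]; exact le_max_left _ _
  have hT2 : C + δ / 2 * Real.log 2 + 2 * B + 1 ≤ δ / 2 * T := by
    have : 2 / δ * (C + δ / 2 * Real.log 2 + 2 * B + 1) ≤ T := by rw [hT]; exact le_max_right _ _
    calc C + δ / 2 * Real.log 2 + 2 * B + 1 = δ / 2 * (2 / δ * (C + δ / 2 * Real.log 2 + 2 * B + 1)) := by
          field_simp
      _ ≤ δ / 2 * T := mul_le_mul_of_nonneg_left this (by positivity)
  have hs : 1 + Real.exp (-T) ∈ Set.Ioc (1 : ℝ) 2 := by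
    constructor
    · have := Real.exp_pos (-T)
      linarith
    · have : Real.exp (-T) ≤ 1 := Real.exp_le_one_iff.2 (by linarith)
      linarith
  have h1 := (h _ hs).trans (hup _ hs)
  have h2 : Real.log (1 / (1 + Real.exp (-T) - 1)) = T := by
    rw [add_sub_cancel_left, one_div, Real.log_inv, Real.log_exp, neg_neg]
  rw [h2] at h1
  linarith

end Pool.Agent.SZ.Asm
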