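import Pool.Agent.Lib.SZ.P1
import Pool.Agent.Lib.SZ.P4
import Pool.Agent.Lib.SZ.E32
import Pool.Agent.Lib.SZW.Bridge

/-!
# SZ: the final theorem. In every ray class there are two prime elements whose difference is `c X ^ m` (`m = 2, 3`).
-/

namespace Pool.Agent.SZ

open NumberField CFT

/-- Theorem B without hypotheses. -/
theorem thmB_final (F : Type) [Field F] [NumberField F] (b0 c : 𝓞 F) (hb0 : b0 ≠ 0) (hc : c ≠ 0) (m : ℕ)
    (hm : m = 2 ∨ m = 3) : ThmB F b0 c m :=
  Asm.thmB b0 c hc m (by omega) (SZW.weyl_field m hm) (e32_energy b0 hb0)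

theorem prDiff_final (F : Type) [Field F] [NumberField F] (m : ℕ) (hm : m = 2 ∨ m = 3) (h : CFTL.ClassDens F) : PrDiff F m :=
  Asm.prDiff F m (by omega) (Asm.balPrimes h) (SZW.weyl_field m hm) fun b0 hb0 =>
    e32_energy (b0 : 𝓞 F) (by exact_mod_cast hb0.ne')

end Pool.Agent.SZ
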